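import Mathlib
import Pool.Agent.Helper175.NS.Top

set_option autoImplicit false

namespace Pool.Agent.H401Z.CS

open Finset Pool.Agent.Helper175.NS

/-- the vertex set with a given bit mask -/
def dc (m : ℕ) : Finset (Fin 174) := univ.filter (fun i => m.testBit i.val = true)

theorem mem_dc {m : ℕ} {i : Fin 174} : i ∈ dc m ↔ m.testBit i.val = true := by
  simp [dc]

def dcL (l : List ℕ) : Finset (Finset (Fin 174)) := (l.map dc).toFinset

theorem mem_dcL {l : List ℕ} {A : Finset (Fin 174)} : A ∈ dcL l ↔ ∃ m ∈ l, dc m = A := by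
  rw [dcL, List.mem_toFinset, List.mem_map]

theorem sub_of_land {a b : ℕ} (h : b &&& a = a) : dc a ⊆ dc b := by
  intro n hn
  rw [mem_dc] at hn ⊢
  have h1 := congrArg (fun k => Nat.testBit k n.val) h
  simp only [Nat.testBit_land, hn, Bool.and_true] at h1
  exact h1

theorem land_of_sub {a b : ℕ} (ha : a < 2 ^ 174) (h : dc a ⊆ dc b) : b &&& a = a := by
  apply Nat.eq_of_testBit_eq
  intro i
  rw [Nat.testBit_land]
  rcases Nat.lt_or_ge i 174 with hi | hi
  · cases h1 : a.testBit i with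
    | false => simp
    | true =>
      have h2 := h (mem_dc (i := ⟨i, hi⟩).2 h1)
      rw [mem_dc] at h2
      simp only at h2
      simp [h2]
  · have h1 : a.testBit i = false := by
      apply Nat.testBit_eq_false_of_lt
      exact lt_of_lt_of_le ha (Nat.pow_le_pow_right (by norm_num) hi)
    simp [h1]

theorem dc_inj {a b : ℕ} (ha : a < 2 ^ 174) (hb : b < 2 ^ 174) (h : dc a = dc b) : a = b := by
  have h1 := land_of_sub ha h.subset
  have h2 := land_of_sub hb h.symm.subset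
  rw [← h1, Nat.land_comm, h2]

theorem dc_lor (a b : ℕ) : dc (a ||| b) = dc a ∪ dc b := by
  ext n
  simp [mem_dc]

theorem dc_land (a b : ℕ) : dc (a &&& b) = dc a ∩ dc b := by
  ext n
  simp [mem_dc]

theorem dc_zero : dc 0 = ∅ := by
  ext n
  simp [mem_dc]

theorem dc_two_pow (x : Fin 174) : dc (2 ^ x.val) = {x} := by
  ext n
  rw [mem_dc, Nat.testBit_two_pow, mem_singleton]
  simp only [decide_eq_true_eq]
  exact ⟨fun h => Fin.ext h.symm, fun h => by rw [h]⟩

theorem dc_xor {m : ℕ} {z : Fin 174} (hz : z ∈ dc m) : dc (m ^^^ 2 ^ z.val) = (dc m).erase z := by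
  rw [mem_dc] at hz
  ext n
  rw [mem_erase, mem_dc, mem_dc, Nat.testBit_xor, Nat.testBit_two_pow]
  by_cases h2 : n = z
  · subst h2
    simp [hz]
  · have h3 : ¬ (z.val = n.val) := fun h => h2 (Fin.ext h.symm)
    simp [h2, h3]

theorem top_not_mem {m : ℕ} (h : m < 2 ^ 173) : (173 : Fin 174) ∉ dc m := by
  rw [mem_dc]
  have : m.testBit 173 = false := Nat.testBit_eq_false_of_lt h
  simp [show ((173 : Fin 174) : ℕ) = 173 from rfl, this]

theorem disj_of_land {a b : ℕ} (h : a &&& b = 0) : Disjoint (dc a) (dc b) := by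
  rw [disjoint_iff_inter_eq_empty, ← dc_land, h, dc_zero]

theorem dc_nonempty {m : ℕ} (h : m < 2 ^ 174) (h0 : m ≠ 0) : (dc m).Nonempty := by
  rw [nonempty_iff_ne_empty]
  intro he
  apply h0
  apply dc_inj h (by positivity)
  rw [he, dc_zero]

/-- the mask of a list of vertices -/
def mk : List ℕ → ℕ
  | [] => 0
  | a :: l => 2 ^ a ||| mk l

theorem testBit_mk (l : List ℕ) (i : ℕ) : (mk l).testBit i = true ↔ i ∈ l := by
  induction l with
  | nil => simp [mk]
  | cons a l ih =>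
    rw [mk, Nat.testBit_lor, Bool.or_eq_true, ih, Nat.testBit_two_pow, List.mem_cons]
    simp [eq_comm]

theorem mem_dc_mk {l : List ℕ} {i : Fin 174} : i ∈ dc (mk l) ↔ i.val ∈ l := by
  rw [mem_dc, testBit_mk]

def okL (n : ℕ) (l : List ℕ) : Bool :=
  decide (l.length = n) && decide l.Nodup && l.all (fun v => decide (v < 174))

theorem card_mk {n : ℕ} {l : List ℕ} (h : okL n l = true) : (dc (mk l)).card = n := by
  simp only [okL, Bool.and_eq_true, decide_eq_true_eq, List.all_eq_true] at h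
  obtain ⟨⟨h1, h2⟩, h3⟩ := h
  rw [← h1, ← List.toFinset_card_of_nodup h2]
  apply card_bij (fun i _ => i.val)
  · intro i hi
    exact List.mem_toFinset.2 (mem_dc_mk.1 hi)
  · intro i _ j _ h
    exact Fin.ext h
  · intro j hj
    rw [List.mem_toFinset] at hj
    exact ⟨⟨j, h3 j hj⟩, mem_dc_mk.2 hj, rfl⟩

noncomputable def allR {α : Type} (l : List α) (p : α → Bool) : Bool :=
  List.rec true (fun a _ r => Bool.rec false r (p a)) l

noncomputable def anyR {α : Type} (l : List α) (p : α → Bool) : Bool :=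
  List.rec false (fun a _ r => Bool.rec r true (p a)) l

theorem allR_iff {α : Type} {l : List α} {p : α → Bool} :
    allR l p = true ↔ ∀ a ∈ l, p a = true := by
  induction l with
  | nil => simp [allR]
  | cons a l ih =>
    have : allR (a :: l) p = Bool.rec false (allR l p) (p a) := rfl
    rw [this, List.forall_mem_cons, ← ih]
    cases p a <;> simp

theorem anyR_iff {α : Type} {l : List α} {p : α → Bool} :
    anyR l p = true ↔ ∃ a ∈ l, p a = true := by
  induction l with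
  | nil => simp [anyR]
  | cons a l ih =>
    have : anyR (a :: l) p = Bool.rec (anyR l p) true (p a) := rfl
    rw [this, List.exists_mem_cons_iff, ← ih]
    cases p a <;> simp

/-- `t ⊆ m` -/
def sb (t m : ℕ) : Bool := Nat.beq (Nat.land m t) t

theorem sb_iff {t m : ℕ} : sb t m = true ↔ m &&& t = t := by
  rw [sb, Nat.beq_eq]
  rfl

/-- `a → b` -/
noncomputable def imp (a b : Bool) : Bool := Bool.rec true b a

theorem imp_iff {a b : Bool} : imp a b = true ↔ (a = true → b = true) := by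
  cases a <;> cases b <;> simp [imp]

/-- `a ∨ b` -/
noncomputable def orR (a b : Bool) : Bool := Bool.rec b true a

theorem orR_iff {a b : Bool} : orR a b = true ↔ (a = true ∨ b = true) := by
  cases a <;> cases b <;> simp [orR]

theorem sb_trans {t m u : ℕ} (h1 : m &&& t = t) (h2 : u &&& m = m) : u &&& t = t := by
  rw [← h1, ← Nat.land_assoc, h2]

/-- the facets of a list of blocks `(U, facets inside U)` -/
def fl (SB : List (ℕ × List ℕ)) : List ℕ := SB.flatMap Prod.snd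

theorem mem_fl {SB : List (ℕ × List ℕ)} {m : ℕ} : m ∈ fl SB ↔ ∃ B ∈ SB, m ∈ B.2 := by
  rw [fl, List.mem_flatMap]

noncomputable def okB (SB : List (ℕ × List ℕ)) : Bool :=
  allR SB (fun B => decide (B.1 < 2 ^ 173) && allR B.2 (fun m => sb m B.1))

theorem okB_iff {SB : List (ℕ × List ℕ)} : okB SB = true ↔
    ∀ B ∈ SB, B.1 < 2 ^ 173 ∧ ∀ m ∈ B.2, B.1 &&& m = m := by
  simp only [okB, allR_iff, Bool.and_eq_true, decide_eq_true_eq, sb_iff]

theorem okB_lt {SB : List (ℕ × List ℕ)} (h : okB SB = true) : ∀ m ∈ fl SB, m < 2 ^ 173 := by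
  intro m hm
  obtain ⟨B, hB, hm⟩ := mem_fl.1 hm
  obtain ⟨h1, h2⟩ := okB_iff.1 h B hB
  rw [← h2 m hm]
  exact lt_of_le_of_lt Nat.and_le_left h1

theorem okB_lt' {SB : List (ℕ × List ℕ)} (h : okB SB = true) : ∀ m ∈ fl SB, m < 2 ^ 174 :=
  fun m hm => lt_trans (okB_lt h m hm) (by norm_num)

noncomputable def scanAll (SB : List (ℕ × List ℕ)) (t : ℕ) (Q : ℕ → Bool) : Bool :=
  allR SB (fun B => imp (sb t B.1) (allR B.2 (fun m => imp (sb t m) (Q m))))

theorem scanAll_spec {SB : List (ℕ × List ℕ)} (h : okB SB = true) {t : ℕ} {Q : ℕ → Bool}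
    (hs : scanAll SB t Q = true) : ∀ m ∈ fl SB, m &&& t = t → Q m = true := by
  simp only [scanAll, allR_iff, imp_iff, sb_iff] at hs
  intro m hm ht
  obtain ⟨B, hB, hm⟩ := mem_fl.1 hm
  exact hs B hB (sb_trans ht ((okB_iff.1 h B hB).2 m hm)) m hm ht

noncomputable def scanAny (SB : List (ℕ × List ℕ)) (t : ℕ) (Q : ℕ → Bool) : Bool :=
  anyR SB (fun B => Bool.rec false (anyR B.2 (fun m => Bool.rec false (Q m) (sb t m))) (sb t B.1))

theorem scanAny_spec {SB : List (ℕ × List ℕ)} {t : ℕ} {Q : ℕ → Bool}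
    (hs : scanAny SB t Q = true) : ∃ m ∈ fl SB, m &&& t = t ∧ Q m = true := by
  have key : ∀ a b : Bool, (Bool.rec false b a : Bool) = true → a = true ∧ b = true := by
    intro a b
    cases a <;> simp
  obtain ⟨B, hB, h⟩ := anyR_iff.1 hs
  obtain ⟨m, hm, h⟩ := anyR_iff.1 (key _ _ h).2
  exact ⟨m, mem_fl.2 ⟨B, hB, hm⟩, sb_iff.1 (key _ _ h).1, (key _ _ h).2⟩

theorem mem_star' {V : Type} [DecidableEq V] {L : Finset (Finset V)} {ρ : Finset V} {v : V}
    {G : Finset V} : G ∈ star L ρ v ↔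
    (G ∈ L ∧ ¬ ρ ⊆ G) ∨ ∃ F ∈ L, ρ ⊆ F ∧ ∃ z ∈ ρ, G = insert v (F.erase z) := by
  refine ⟨star_cases, ?_⟩
  unfold Pool.Agent.Helper175.NS.star
  rw [Finset.mem_union, Finset.mem_filter, Finset.mem_biUnion]
  rintro (h | ⟨F, hF, h1, z, hz, rfl⟩)
  · exact Or.inl h
  · exact Or.inr ⟨F, mem_filter.2 ⟨hF, h1⟩, mem_image_of_mem _ hz⟩

/-- A bistellar flip is a homeomorphism. -/
theorem flip_homeo {V : Type} [DecidableEq V] (L L' : Finset (Finset V)) (A B : Finset V) (t : V)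
    (hA : A.Nonempty) (hB : B.Nonempty) (hAB : Disjoint A B) (htA : t ∉ A) (htB : t ∉ B)
    (ht : ∀ F ∈ L, t ∉ F)
    (h1 : ∀ b ∈ B, (A ∪ B).erase b ∈ L)
    (h2 : ∀ F ∈ L, A ⊆ F → ∃ b ∈ B, F = (A ∪ B).erase b)
    (h3 : ∀ F ∈ L, ¬ A ⊆ F → ¬ B ⊆ F)
    (h4 : ∀ F, F ∈ L' ↔ (F ∈ L ∧ ¬ A ⊆ F) ∨ ∃ a ∈ A, F = (A ∪ B).erase a) :
    Nonempty (Sp L ≃ₜ Sp L') := by
  have hAsub : ∀ b ∈ B, A ⊆ (A ∪ B).erase b := fun b hb a ha =>
    mem_erase.2 ⟨fun h => disjoint_left.1 hAB ha (h ▸ hb), mem_union_left _ ha⟩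
  have hBsub : ∀ a ∈ A, B ⊆ (A ∪ B).erase a := fun a ha b hb =>
    mem_erase.2 ⟨fun h => disjoint_left.1 hAB ha (h ▸ hb), mem_union_right _ hb⟩
  have ht' : ∀ F ∈ L', t ∉ F := by
    intro F hF
    rcases (h4 F).1 hF with h | ⟨a, _, rfl⟩
    · exact ht F h.1
    · intro h
      rcases mem_union.1 (mem_of_mem_erase h) with h | h
      · exact htA h
      · exact htB h
  have he : star L A t = star L' B t := by
    ext G
    rw [mem_star', mem_star']
    constructor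
    · rintro (⟨hG, hAG⟩ | ⟨F, hF, hAF, z, hz, rfl⟩)
      · exact Or.inl ⟨(h4 G).2 (Or.inl ⟨hG, hAG⟩), h3 G hG hAG⟩
      · obtain ⟨b, hb, rfl⟩ := h2 F hF hAF
        exact Or.inr ⟨_, (h4 _).2 (Or.inr ⟨z, hz, rfl⟩), hBsub z hz, b, hb, by rw [erase_right_comm]⟩
    · rintro (⟨hG, hBG⟩ | ⟨F, hF, hBF, z, hz, rfl⟩)
      · rcases (h4 G).1 hG with h | ⟨a, ha, rfl⟩
        · exact Or.inl h
        · exact absurd (hBsub a ha) hBG
      · rcases (h4 F).1 hF with h | ⟨a, ha, rfl⟩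
        · exact absurd hBF (h3 F h.1 h.2)
        · exact Or.inr ⟨_, h1 z hz, hAsub z hz, a, ha, by rw [erase_right_comm]⟩
  obtain ⟨e1⟩ := star_homeo L A t hA ht htA
  obtain ⟨e2⟩ := star_homeo L' B t hB ht' htB
  rw [he] at e1
  exact ⟨e1.symm.trans e2⟩

def flipB (l : List ℕ) (as bs : List ℕ) : List ℕ :=
  as.map (fun a => (mk as ||| mk bs) ^^^ 2 ^ a) ++ l.filter (fun m => m &&& mk as != mk as)

def okFlip (I τ : ℕ) (l : List ℕ) (as bs : List ℕ) : Bool :=
  decide (as ≠ []) && decide (bs ≠ []) && as.all (fun a => decide (a < 173)) &&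
    bs.all (fun b => decide (b < 173)) && decide (mk as &&& mk bs = 0) &&
    decide (mk as &&& I ≠ 0) && (decide (mk bs &&& I ≠ 0) || decide (mk bs = τ)) &&
    bs.all (fun b => l.contains ((mk as ||| mk bs) ^^^ 2 ^ b)) &&
    l.all (fun m => decide (m < 2 ^ 173) &&
      (if m &&& mk as = mk as then bs.any (fun b => decide (m = (mk as ||| mk bs) ^^^ 2 ^ b))
       else decide (m &&& mk bs ≠ mk bs)))

theorem mk_lt {l : List ℕ} {n : ℕ} (h : ∀ a ∈ l, a < n) : mk l < 2 ^ n := by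
  apply Nat.lt_pow_two_of_testBit
  intro i hi
  by_contra hc
  rw [Bool.not_eq_false, testBit_mk] at hc
  exact absurd (h i hc) (not_lt.2 hi)

theorem flipB_homeo {I τ : ℕ} (l as bs : List ℕ) (R : Finset (Finset (Fin 174)))
    (hR : ∀ F ∈ R, Disjoint F (dc I) ∧ ¬ dc τ ⊆ F ∧ (173 : Fin 174) ∉ F)
    (h : okFlip I τ l as bs = true) :
    Nonempty (Sp (dcL l ∪ R) ≃ₜ Sp (dcL (flipB l as bs) ∪ R)) := by
  simp only [okFlip, Bool.and_eq_true, Bool.or_eq_true, decide_eq_true_eq, List.all_eq_true,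
    List.contains_iff_mem] at h
  obtain ⟨⟨⟨⟨⟨⟨⟨⟨a1, a2⟩, a3⟩, a4⟩, a5⟩, a6⟩, a7⟩, a8⟩, a9⟩ := h
  have lA : mk as < 2 ^ 173 := mk_lt a3
  have lB : mk bs < 2 ^ 173 := mk_lt a4
  have lA' : mk as < 2 ^ 174 := lt_trans lA (by norm_num)
  have lB' : mk bs < 2 ^ 174 := lt_trans lB (by norm_num)
  have ne : ∀ s : List ℕ, s ≠ [] → (∀ a ∈ s, a < 173) → (dc (mk s)).Nonempty := by
    intro s hs hs'
    obtain ⟨a, ha⟩ := List.exists_mem_of_ne_nil s hs
    exact ⟨⟨a, lt_trans (hs' a ha) (by norm_num)⟩, mem_dc_mk.2 ha⟩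
  have hI : ∀ m : ℕ, m < 2 ^ 174 → m &&& I ≠ 0 → ∀ F ∈ R, ¬ dc m ⊆ F := by
    intro m hm h0 F hF hsub
    obtain ⟨x, hx⟩ := dc_nonempty (lt_of_le_of_lt Nat.and_le_left hm) h0
    rw [dc_land, mem_inter] at hx
    exact disjoint_left.1 (hR F hF).1 (hsub hx.1) hx.2
  have hx : ∀ z : Fin 174, z ∈ dc (mk as) ∪ dc (mk bs) →
      dc ((mk as ||| mk bs) ^^^ 2 ^ z.val) = (dc (mk as) ∪ dc (mk bs)).erase z := by
    intro z hz
    rw [← dc_lor] at hz ⊢
    exact dc_xor hz
  refine flip_homeo _ _ (dc (mk as)) (dc (mk bs)) 173 (ne as a1 a3) (ne bs a2 a4)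
    (disj_of_land a5) (top_not_mem lA) (top_not_mem lB) ?_ ?_ ?_ ?_ ?_
  · intro F hF
    rcases mem_union.1 hF with hF | hF
    · obtain ⟨m, hm, rfl⟩ := mem_dcL.1 hF
      exact top_not_mem (a9 m hm).1
    · exact (hR F hF).2.2
  · intro b hb
    exact mem_union_left _ (mem_dcL.2 ⟨_, a8 b.val (mem_dc_mk.1 hb), hx b (mem_union_right _ hb)⟩)
  · intro F hF hAF
    rcases mem_union.1 hF with hF | hF
    · obtain ⟨m, hm, rfl⟩ := mem_dcL.1 hF
      have h := (a9 m hm).2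
      rw [if_pos (land_of_sub lA' hAF), List.any_eq_true] at h
      obtain ⟨b, hb, h⟩ := h
      rw [decide_eq_true_eq] at h
      have hb' : (⟨b, lt_trans (a4 b hb) (by norm_num)⟩ : Fin 174) ∈ dc (mk bs) := mem_dc_mk.2 hb
      exact ⟨_, hb', by rw [h]; exact hx _ (mem_union_right _ hb')⟩
    · exact absurd hAF (hI _ lA' a6 F hF)
  · intro F hF hAF
    rcases mem_union.1 hF with hF | hF
    · obtain ⟨m, hm, rfl⟩ := mem_dcL.1 hF
      have h := (a9 m hm).2
      rw [if_neg (fun h' => hAF (sub_of_land h')), decide_eq_true_eq] at h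
      exact fun h' => h (land_of_sub lB' h')
    · rcases a7 with a7 | a7
      · exact hI _ lB' a7 F hF
      · rw [a7]
        exact (hR F hF).2.1
  · intro F
    rw [mem_union, mem_union, mem_dcL, mem_dcL]
    constructor
    · rintro (⟨m, hm, rfl⟩ | hF)
      · rw [flipB, List.mem_append, List.mem_map, List.mem_filter] at hm
        rcases hm with ⟨a, ha, rfl⟩ | ⟨hm, h⟩
        · have ha' : (⟨a, lt_trans (a3 a ha) (by norm_num)⟩ : Fin 174) ∈ dc (mk as) :=
            mem_dc_mk.2 ha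
          exact Or.inr ⟨_, ha', hx _ (mem_union_left _ ha')⟩
        · refine Or.inl ⟨Or.inl ⟨m, hm, rfl⟩, fun h' => ?_⟩
          simp [land_of_sub lA' h'] at h
      · exact Or.inl ⟨Or.inr hF, hI _ lA' a6 F hF⟩
    · rintro (⟨⟨m, hm, rfl⟩ | hF, h⟩ | ⟨a, ha, rfl⟩)
      · refine Or.inl ⟨m, ?_, rfl⟩
        rw [flipB, List.mem_append, List.mem_filter]
        refine Or.inr ⟨hm, ?_⟩
        rw [bne_iff_ne]
        exact fun h' => h (sub_of_land h')
      · exact Or.inr hF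
      · refine Or.inl ⟨_, ?_, hx a (mem_union_left _ ha)⟩
        rw [flipB, List.mem_append, List.mem_map]
        exact Or.inl ⟨a.val, mem_dc_mk.1 ha, rfl⟩

def sameB (l l' : List ℕ) : Bool :=
  l.all (fun m => l'.contains m) && l'.all (fun m => l.contains m)

theorem dcL_of_sameB {l l' : List ℕ} (h : sameB l l' = true) : dcL l = dcL l' := by
  rw [sameB, Bool.and_eq_true, List.all_eq_true, List.all_eq_true] at h
  ext A
  rw [mem_dcL, mem_dcL]
  constructor
  · rintro ⟨m, hm, rfl⟩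
    exact ⟨m, by simpa using h.1 m hm, rfl⟩
  · rintro ⟨m, hm, rfl⟩
    exact ⟨m, by simpa using h.2 m hm, rfl⟩

def chainB (I τ : ℕ) : List ℕ → List (List ℕ × List ℕ) → List ℕ → Bool
  | l, [], t => sameB l t
  | l, r :: ms, t => okFlip I τ l r.1 r.2 && chainB I τ (flipB l r.1 r.2) ms t

theorem chain_homeo {I τ : ℕ} (R : Finset (Finset (Fin 174)))
    (hR : ∀ F ∈ R, Disjoint F (dc I) ∧ ¬ dc τ ⊆ F ∧ (173 : Fin 174) ∉ F)
    (ms : List (List ℕ × List ℕ)) :
    ∀ (l t : List ℕ), chainB I τ l ms t = true →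
      Nonempty (Sp (dcL l ∪ R) ≃ₜ Sp (dcL t ∪ R)) := by
  induction ms with
  | nil =>
    intro l t h
    rw [chainB] at h
    rw [dcL_of_sameB h]
    exact ⟨Homeomorph.refl _⟩
  | cons r ms ih =>
    intro l t h
    rw [chainB, Bool.and_eq_true] at h
    obtain ⟨e1⟩ := flipB_homeo l r.1 r.2 R hR h.1
    obtain ⟨e2⟩ := ih _ t h.2
    exact ⟨e1.trans e2⟩

theorem dcL_append (a b : List ℕ) : dcL (a ++ b) = dcL a ∪ dcL b := by
  ext F
  simp only [mem_union, mem_dcL, List.mem_append]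
  constructor
  · rintro ⟨m, h | h, rfl⟩
    · exact Or.inl ⟨m, h, rfl⟩
    · exact Or.inr ⟨m, h, rfl⟩
  · rintro (⟨m, h, rfl⟩ | ⟨m, h, rfl⟩)
    · exact ⟨m, Or.inl h, rfl⟩
    · exact ⟨m, Or.inr h, rfl⟩

/-- collapse the blocks one by one: `(I, τ, moves)` flips the first block to the facet `τ`. -/
noncomputable def colB : List (ℕ × List ℕ) → List (ℕ × ℕ × List (List ℕ × List ℕ)) → List ℕ → Bool
  | SB, [], t => sameB (fl SB) t
  | [], _ :: _, _ => false
  | B :: SB, g :: gs, t =>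
    allR SB (fun B' => Nat.beq (Nat.land B'.1 g.1) 0) && scanAll SB g.2.1 (fun _ => false) &&
      decide (g.2.1 < 2 ^ 173) && chainB g.1 g.2.1 B.2 g.2.2 [g.2.1] &&
      colB (SB ++ [(g.2.1, [g.2.1])]) gs t

theorem col_homeo (gs : List (ℕ × ℕ × List (List ℕ × List ℕ))) :
    ∀ (SB : List (ℕ × List ℕ)) (t : List ℕ), okB SB = true → colB SB gs t = true →
      Nonempty (Sp (dcL (fl SB)) ≃ₜ Sp (dcL t)) := by
  induction gs with
  | nil =>
    intro l t _ h
    rw [colB] at h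
    rw [dcL_of_sameB h]
    exact ⟨Homeomorph.refl _⟩
  | cons g gs ih =>
    intro SB t hok h
    rcases SB with _ | ⟨B, SB⟩
    · simp [colB] at h
    simp only [colB, Bool.and_eq_true, allR_iff, decide_eq_true_eq, Nat.beq_eq] at h
    obtain ⟨⟨⟨⟨h1, h2⟩, h3⟩, h4⟩, h5⟩ := h
    have hok' : okB SB = true := okB_iff.2 fun B' hB' => okB_iff.1 hok B' (List.mem_cons_of_mem _ hB')
    obtain ⟨e2⟩ := ih _ t (by
      rw [okB_iff]
      intro B' hB'
      rcases List.mem_append.1 hB' with hB' | hB'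
      · exact okB_iff.1 hok' B' hB'
      · rw [List.mem_singleton.1 hB']
        exact ⟨h3, fun m hm => by rw [List.mem_singleton.1 hm, Nat.and_self]⟩) h5
    obtain ⟨e1⟩ := chain_homeo (dcL (fl SB)) (by
      intro F hF
      obtain ⟨m, hm, rfl⟩ := mem_dcL.1 hF
      refine ⟨?_, fun h' => ?_, top_not_mem (okB_lt hok' m hm)⟩
      · obtain ⟨B', hB', hm'⟩ := mem_fl.1 hm
        exact (disj_of_land (h1 B' hB')).mono_left (sub_of_land ((okB_iff.1 hok' B' hB').2 m hm'))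
      · exact absurd (scanAll_spec hok' h2 m hm (land_of_sub (lt_trans h3 (by norm_num)) h'))
          (by simp)) _ _ _ h4
    have a1 : dcL B.2 ∪ dcL (fl SB) = dcL (fl (B :: SB)) := by
      rw [← dcL_append]
      rfl
    have a2 : dcL [g.2.1] ∪ dcL (fl SB) = dcL (fl (SB ++ [(g.2.1, [g.2.1])])) := by
      rw [union_comm, ← dcL_append]
      simp [fl]
    rw [a1, a2] at e1
    exact ⟨e1.trans e2⟩

end Pool.Agent.H401Z.CS
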