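import Mathlib
import Pool.Agent.Helper175.NS.Section

set_option autoImplicit false

namespace Pool.Agent.H401Z.CS

open Finset Pool.Agent.Helper175.NS

variable {V : Type} [DecidableEq V]

/-- adding `F` to `l` closes up the star of a knot edge -/
def Crit (K : V → Prop) (F : Finset V) (l : List (Finset V)) : Prop :=
  ∃ x ∈ F, ∃ y ∈ F, x ≠ y ∧ ¬ K x ∧ ¬ K y ∧ (∀ z ∈ F, z ≠ x → z ≠ y → K z) ∧
    ∃ H1 ∈ l, ∃ H2 ∈ l, F.erase x ⊆ H1 ∧ F.erase y ⊆ H2

def NoCrit (K : V → Prop) : List (Finset V) → Prop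
  | [] => True
  | F :: l => NoCrit K l ∧ ¬ Crit K F l

theorem flat_free {K : V → Prop} {psi : V → V → Fin 3 → Fin 3}
    {col : V → V → Fin 3} (l : List (Finset V)) : Shell l →
    (∀ G ∈ l, Good K psi col G) → NoCrit K l →
    ∀ G ∈ l, ∀ u ∈ G, ¬ K u → ∀ c, ∃ g, Flat K psi g l ∧ g u = c := by
  induction l with
  | nil => intro _ _ _ G hG; simp at hG
  | cons F l ih =>
    intro hS hg hno G hG u hu huK c
    have hgF := hg F (by simp)
    rcases l with _ | ⟨F', l⟩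
    · rcases List.mem_cons.1 hG with rfl | hG
      · refine ⟨fun w => psi u w c, ?_, hgF.refl u hu huK c⟩
        intro G' hG' v hv w hw hvK hwK
        rcases List.mem_cons.1 hG' with rfl | hG'
        · exact (hgF.coc u hu v hv w hw huK hvK hwK c).symm
        · simp at hG'
      · simp at hG
    have ext : ∀ g : V → Fin 3, Flat K psi g (F' :: l) →
        ∃ g2 : V → Fin 3, Flat K psi g2 (F :: F' :: l) ∧ ∀ G ∈ F' :: l, ∀ w ∈ G, g2 w = g w := by
      intro g hfl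
      refine extend ⟨F', by simp⟩ hS hgF hfl ?_
      intro x hx y hy hxy hxK hyK hz H1 hH1 H2 hH2 h1 h2
      exact absurd ⟨x, hx, y, hy, hxy, hxK, hyK, hz, H1, hH1, H2, hH2, h1, h2⟩ hno.2
    have ih' := ih hS.1 (fun G hG => hg G (List.mem_cons_of_mem _ hG)) hno.1
    by_cases hex : ∃ G ∈ F' :: l, u ∈ G
    · obtain ⟨G', hG', huG'⟩ := hex
      obtain ⟨g, hfl, hgu⟩ := ih' G' hG' u huG' huK c
      obtain ⟨g2, h1, h2⟩ := ext g hfl
      exact ⟨g2, h1, (h2 G' hG' u huG').trans hgu⟩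
    · have hGF : G = F := by
        rcases List.mem_cons.1 hG with h | h
        · exact h
        · exact absurd ⟨G, h, hu⟩ hex
      subst hGF
      obtain ⟨H, hH, x, hxF, -, hxH⟩ := hS.2 F' (by simp)
      obtain ⟨u0, hu0, hu0K⟩ := hgF.exists_nonK x
      obtain ⟨g, hfl, hgu⟩ := ih' H hH u0 (hxH hu0) hu0K (psi u u0 c)
      obtain ⟨g2, h1, h2⟩ := ext g hfl
      refine ⟨g2, h1, ?_⟩
      have hu0F := Finset.mem_of_mem_erase hu0
      rw [h1 G (by simp) u0 hu0F u hu hu0K huK, h2 H hH u0 (hxH hu0), hgu,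
        hgF.coc u hu u0 hu0F u hu huK hu0K huK, hgF.refl u hu huK]

/-- the section `g` carries the colour of the knot vertex `a`, which is present in `l` -/
def Ag (K : V → Prop) (col : V → V → Fin 3) (g : V → Fin 3) (l : List (Finset V)) (a : V) : Prop :=
  (∃ G ∈ l, a ∈ G) ∧ ∀ G ∈ l, a ∈ G → ∀ w ∈ G, ¬ K w → g w = col a w

theorem ag_of_point {K : V → Prop} {psi : V → V → Fin 3 → Fin 3} {col : V → V → Fin 3}
    {g : V → Fin 3} {l : List (Finset V)} (hS : Shell l) (hg : ∀ G ∈ l, Good K psi col G)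
    (hfl : Flat K psi g l) {a u : V} (ha : K a) {G : Finset V} (hG : G ∈ l) (haG : a ∈ G)
    (hu : u ∈ G) (huK : ¬ K u) (h : g u = col a u) : Ag K col g l a := by
  refine ⟨⟨G, hG, haG⟩, ?_⟩
  rcases dichotomy ha l hS hg hfl with h1 | h1
  · exact h1
  · exact absurd h (h1 G hG haG u hu huK)

theorem ag_edge {K : V → Prop} {psi : V → V → Fin 3 → Fin 3} {col : V → V → Fin 3}
    {g : V → Fin 3} {l : List (Finset V)} (hS : Shell l) (hg : ∀ G ∈ l, Good K psi col G)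
    (hfl : Flat K psi g l) {a b : V} (ha : K a) (hb : K b) (h : Ag K col g l a)
    {G : Finset V} (hG : G ∈ l) (haG : a ∈ G) (hbG : b ∈ G) : Ag K col g l b := by
  obtain ⟨u, hu, huK⟩ := (hg G hG).exists_nonK a
  have huG := mem_of_mem_erase hu
  exact ag_of_point hS hg hfl hb hG hbG huG huK
    ((h.2 G hG haG u huG huK).trans ((hg G hG).cole a haG b hbG ha hb u huG huK))

theorem ag_step {K : V → Prop} {psi : V → V → Fin 3 → Fin 3} {col : V → V → Fin 3}
    {g : V → Fin 3} {F : Finset V} {l : List (Finset V)} (hne : ∃ G, G ∈ l) (hS : Shell (F :: l))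
    (hg : ∀ G ∈ F :: l, Good K psi col G) (hfl : Flat K psi g l)
    (hcov : Crit K F l → ∀ z1 ∈ F, ∀ z2 ∈ F, z1 ≠ z2 → K z1 → K z2 →
      Ag K col g l z1 ∨ Ag K col g l z2) :
    ∃ g2, Flat K psi g2 (F :: l) ∧ ∀ e, K e → Ag K col g l e → Ag K col g2 (F :: l) e := by
  have hgF := hg F (by simp)
  have hcl : ∀ e, K e → Ag K col g l e →
      e ∈ F → ∀ x ∈ F, ∀ y ∈ F, x ≠ y → e ≠ x → e ≠ y → ¬ K x → ¬ K y →
      ∀ H1 ∈ l, ∀ H2 ∈ l, F.erase x ⊆ H1 → F.erase y ⊆ H2 → g x = psi y x (g y) := by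
    intro e heK hal heF x hx y hy hxy hex hey hxK hyK H1 hH1 H2 hH2 h1 h2
    have e1 := hal.2 H1 hH1 (h1 (Finset.mem_erase.2 ⟨hex, heF⟩)) y
      (h1 (Finset.mem_erase.2 ⟨hxy.symm, hy⟩)) hyK
    have e2 := hal.2 H2 hH2 (h2 (Finset.mem_erase.2 ⟨hey, heF⟩)) x
      (h2 (Finset.mem_erase.2 ⟨hxy, hx⟩)) hxK
    rw [e1, e2, hgF.colf e heF heK y hy x hx hyK hxK]
  obtain ⟨g2, hfl2, hg2⟩ := extend (col := col) hne hS hgF hfl (by
    intro x hx y hy hxy hxK hyK hz H1 hH1 H2 hH2 h1 h2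
    obtain ⟨z1, hz1, z2, hz2, h12, h1x, h1y, h2x, h2y⟩ := hgF.exists_two x y
    rcases hcov ⟨x, hx, y, hy, hxy, hxK, hyK, hz, H1, hH1, H2, hH2, h1, h2⟩ z1 hz1 z2 hz2 h12
      (hz z1 hz1 h1x h1y) (hz z2 hz2 h2x h2y) with h | h
    · exact hcl z1 (hz z1 hz1 h1x h1y) h hz1 x hx y hy hxy h1x h1y hxK hyK H1 hH1 H2 hH2 h1 h2
    · exact hcl z2 (hz z2 hz2 h2x h2y) h hz2 x hx y hy hxy h2x h2y hxK hyK H1 hH1 H2 hH2 h1 h2)
  refine ⟨g2, hfl2, ?_⟩
  rintro e heK ⟨⟨G, hG, heG⟩, hal⟩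
  obtain ⟨u, hu, huK⟩ := (hg G (List.mem_cons_of_mem _ hG)).exists_nonK e
  have huG := Finset.mem_of_mem_erase hu
  exact ag_of_point hS hg hfl2 heK (List.mem_cons_of_mem _ hG) heG huG huK
    ((hg2 G hG u huG).trans (hal G hG heG u huG huK))

omit [DecidableEq V] in
theorem pair_cases {K : V → Prop} {x y p q : V} (hK : ∀ a, K a ↔ a = x ∨ a = y ∨ a = p ∨ a = q)
    {z1 z2 : V} (k1 : K z1) (k2 : K z2) (h12 : z1 ≠ z2) (P : V → Prop) (p1 : P z1) (p2 : P z2) :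
    (P x ∧ P y) ∨ (P x ∧ P p) ∨ (P x ∧ P q) ∨ (P y ∧ P p) ∨ (P y ∧ P q) ∨ (P p ∧ P q) := by
  rcases (hK z1).1 k1 with r1 | r1 | r1 | r1 <;>
    rcases (hK z2).1 k2 with r2 | r2 | r2 | r2 <;>
    first
      | exact absurd (r1.trans r2.symm) h12
      | (rw [r1] at p1; rw [r2] at p2; tauto)

/-- The knot is the 4-cycle `x p q y`. If the edge `x y` is present before `p`, `q` are, and its
star is not closed before the edge `x p` is present, a flat section exists. -/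
theorem knot_flat {K : V → Prop} {psi : V → V → Fin 3 → Fin 3} {col : V → V → Fin 3}
    {x y p q : V} (hK : ∀ a, K a ↔ a = x ∨ a = y ∨ a = p ∨ a = q)
    (l : List (Finset V)) : Shell l → (∀ G ∈ l, Good K psi col G) →
    (∀ F l', (F :: l') <:+ l → (p ∈ F ∨ q ∈ F) → ∃ G ∈ l', x ∈ G ∧ y ∈ G) →
    (∀ F l', (F :: l') <:+ l → Crit K F l' → x ∈ F → y ∈ F → ∃ G ∈ l', x ∈ G ∧ p ∈ G) →
    NoCrit K l ∨ ∃ g, Flat K psi g l ∧ ((Ag K col g l p ∧ Ag K col g l q) ∨
      (Ag K col g l x ∧ Ag K col g l y ∧ (Ag K col g l p ∨ Ag K col g l q))) := by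
  have kx : K x := (hK x).2 (by simp)
  have ky : K y := (hK y).2 (by simp)
  have kp : K p := (hK p).2 (by simp)
  have kq : K q := (hK q).2 (by simp)
  induction l with
  | nil => intro _ _ _ _; exact Or.inl trivial
  | cons F l ih =>
    intro hS hg H1 H2
    have hg' : ∀ G ∈ l, Good K psi col G := fun G hG => hg G (List.mem_cons_of_mem _ hG)
    have hgF := hg F (by simp)
    have h1 := H1 F l (List.suffix_refl _)
    have h2 := H2 F l (List.suffix_refl _)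
    rcases ih hS.1 hg' (fun F' l' h => H1 F' l' (h.trans (List.suffix_cons _ _)))
      (fun F' l' h => H2 F' l' (h.trans (List.suffix_cons _ _))) with hno | ⟨g, hfl, hst⟩
    · by_cases hc : Crit K F l
      · right
        obtain ⟨u, hu, v, hv, huv, huK, hvK, hz, G1, hG1, G2, hG2, e1, e2⟩ := id hc
        obtain ⟨z1, hz1, z2, hz2, h12, h1u, h1v, h2u, h2v⟩ := hgF.exists_two u v
        have k1 := hz z1 hz1 h1u h1v
        have k2 := hz z2 hz2 h2u h2v
        have hvG : v ∈ G1 := e1 (mem_erase.2 ⟨huv.symm, hv⟩)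
        have hz1G : z1 ∈ G1 := e1 (mem_erase.2 ⟨h1u, hz1⟩)
        have hz2G : z2 ∈ G1 := e1 (mem_erase.2 ⟨h2u, hz2⟩)
        obtain ⟨g, hfl, hgv⟩ := flat_free l hS.1 hg' hno G1 hG1 v hvG hvK (col z1 v)
        have a1 : Ag K col g l z1 := ag_of_point hS.1 hg' hfl k1 hG1 hz1G hvG hvK hgv
        have a2 : Ag K col g l z2 := ag_edge hS.1 hg' hfl k1 k2 a1 hG1 hz1G hz2G
        have hall : ∀ z ∈ F, K z → Ag K col g l z := by
          intro z hzF kz
          rcases hgF.two z hzF z1 hz1 z2 hz2 kz k1 k2 with h | h | h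
          · exact h ▸ a1
          · exact h ▸ a2
          · exact absurd h h12
        have hst : (Ag K col g l p ∧ Ag K col g l q) ∨
            (Ag K col g l x ∧ Ag K col g l y ∧ (Ag K col g l p ∨ Ag K col g l q)) := by
          by_cases hpq : p ∈ F ∨ q ∈ F
          · have apq : Ag K col g l p ∨ Ag K col g l q :=
              hpq.imp (fun h => hall p h kp) (fun h => hall q h kq)
            obtain ⟨G, hG, hxG, hyG⟩ := h1 hpq
            by_cases hx : x ∈ F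
            · exact Or.inr ⟨hall x hx kx, ag_edge hS.1 hg' hfl kx ky (hall x hx kx) hG hxG hyG, apq⟩
            · by_cases hy : y ∈ F
              · exact Or.inr ⟨ag_edge hS.1 hg' hfl ky kx (hall y hy ky) hG hyG hxG,
                  hall y hy ky, apq⟩
              · left
                have := pair_cases hK k1 k2 h12 (fun z => z ∈ F) hz1 hz2
                have hb : p ∈ F ∧ q ∈ F := by tauto
                exact ⟨hall p hb.1 kp, hall q hb.2 kq⟩
          · rw [not_or] at hpq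
            have hxy : x ∈ F ∧ y ∈ F := by
              have := pair_cases hK k1 k2 h12 (fun z => z ∈ F) hz1 hz2
              tauto
            obtain ⟨G, hG, hxG, hpG⟩ := h2 hc hxy.1 hxy.2
            exact Or.inr ⟨hall x hxy.1 kx, hall y hxy.2 ky,
              Or.inl (ag_edge hS.1 hg' hfl kx kp (hall x hxy.1 kx) hG hxG hpG)⟩
        obtain ⟨g2, hfl2, hper⟩ := ag_step ⟨G1, hG1⟩ hS hg hfl
          (fun _ z hzF _ _ _ kz _ => Or.inl (hall z hzF kz))
        refine ⟨g2, hfl2, ?_⟩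
        rcases hst with ⟨a, b⟩ | ⟨a, b, c⟩
        · exact Or.inl ⟨hper p kp a, hper q kq b⟩
        · exact Or.inr ⟨hper x kx a, hper y ky b, c.imp (hper p kp) (hper q kq)⟩
      · exact Or.inl ⟨hno, hc⟩
    · right
      have hne : ∃ G, G ∈ l := by
        rcases hst with ⟨⟨⟨G, hG, -⟩, -⟩, -⟩ | ⟨⟨⟨G, hG, -⟩, -⟩, -⟩ <;> exact ⟨G, hG⟩
      obtain ⟨g2, hfl2, hper⟩ := ag_step hne hS hg hfl (by
        intro hc z1 hz1 z2 hz2 h12 k1 k2
        by_contra hcon
        rw [not_or] at hcon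
        have := pair_cases hK k1 k2 h12 (fun z => z ∈ F ∧ ¬ Ag K col g l z) ⟨hz1, hcon.1⟩
          ⟨hz2, hcon.2⟩
        rcases hst with ⟨a, b⟩ | ⟨a, b, c⟩
        · have hxy : (x ∈ F ∧ ¬ Ag K col g l x) ∧ y ∈ F := by tauto
          obtain ⟨G, hG, hxG, hpG⟩ := h2 hc hxy.1.1 hxy.2
          exact hxy.1.2 (ag_edge hS.1 hg' hfl kp kx a hG hpG hxG)
        · tauto)
      refine ⟨g2, hfl2, ?_⟩
      rcases hst with ⟨a, b⟩ | ⟨a, b, c⟩
      · exact Or.inl ⟨hper p kp a, hper q kq b⟩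
      · exact Or.inr ⟨hper x kx a, hper y ky b, c.imp (hper p kp) (hper q kq)⟩

theorem knot_flat' {K : V → Prop} {psi : V → V → Fin 3 → Fin 3} {col : V → V → Fin 3}
    {x y p q : V} (hK : ∀ a, K a ↔ a = x ∨ a = y ∨ a = p ∨ a = q)
    (l : List (Finset V)) (hS : Shell l) (hg : ∀ G ∈ l, Good K psi col G) (hne : ∃ G, G ∈ l)
    (H1 : ∀ F l', (F :: l') <:+ l → (p ∈ F ∨ q ∈ F) → ∃ G ∈ l', x ∈ G ∧ y ∈ G)
    (H2 : ∀ F l', (F :: l') <:+ l → Crit K F l' → x ∈ F → y ∈ F → ∃ G ∈ l', x ∈ G ∧ p ∈ G) :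
    ∃ g, Flat K psi g l := by
  rcases knot_flat hK l hS hg H1 H2 with h | ⟨g, h, -⟩
  · obtain ⟨G, hG⟩ := hne
    obtain ⟨u, hu, huK⟩ := (hg G hG).exists_nonK x
    obtain ⟨g, h, -⟩ := flat_free l hS hg h G hG u (mem_of_mem_erase hu) huK 0
    exact ⟨g, h⟩
  · exact ⟨g, h⟩

end Pool.Agent.H401Z.CS
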