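import Mathlib
import Pool.Agent.Helper175.NS.Section

set_option autoImplicit false

namespace Pool.Agent.H401Z.CS

open Finset Pool.Agent.Helper175.NS

variable {V : Type} [DecidableEq V] [Fintype V]

omit [Fintype V] in
theorem mid {ρ F : Finset V} (hρ : ρ.card = 2) (hF : F.card = 4) (h : ρ ⊆ F) :
    ∃ a b, a ∈ F ∧ b ∈ F ∧ a ≠ b ∧ a ∉ ρ ∧ b ∉ ρ ∧ (∀ v ∈ F, v ∉ ρ → v = a ∨ v = b) ∧
      ∀ t : Finset V, t.card = 3 → ρ ⊆ t → t ⊆ F → t = F.erase a ∨ t = F.erase b := by
  have h2 : (F \ ρ).card = 2 := by rw [card_sdiff_of_subset h, hF, hρ]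
  obtain ⟨a, b, hab, he⟩ := card_eq_two.1 h2
  have ha : a ∈ F \ ρ := by rw [he]; simp
  have hb : b ∈ F \ ρ := by rw [he]; simp
  rw [mem_sdiff] at ha hb
  have hv : ∀ v ∈ F, v ∉ ρ → v = a ∨ v = b := by
    intro v hv hv'
    have : v ∈ F \ ρ := mem_sdiff.2 ⟨hv, hv'⟩
    rw [he] at this
    simpa using this
  refine ⟨a, b, ha.1, hb.1, hab, ha.2, hb.2, hv, ?_⟩
  intro t ht hρt htF
  have h1 : (F \ t).card = 1 := by rw [card_sdiff_of_subset htF, hF, ht]
  obtain ⟨c, hc⟩ := card_eq_one.1 h1
  have hc' : c ∈ F \ t := by rw [hc]; simp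
  rw [mem_sdiff] at hc'
  have hte : t = F.erase c := by
    apply eq_of_subset_of_card_le
    · intro x hx
      exact mem_erase.2 ⟨fun h => hc'.2 (h ▸ hx), htF hx⟩
    · rw [card_erase_of_mem hc'.1, hF, ht]
  rcases hv c hc'.1 (fun h => hc'.2 (hρt h)) with rfl | rfl
  · exact Or.inl hte
  · exact Or.inr hte

omit [Fintype V] in
theorem ridge_eq {t F : Finset V} (ht : t.card = 3) (hF : F.card = 4) (h : t ⊆ F) :
    ∃ v ∈ F, t = F.erase v := by
  have h1 : (F \ t).card = 1 := by rw [card_sdiff_of_subset h, hF, ht]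
  obtain ⟨c, hc⟩ := card_eq_one.1 h1
  have hc' : c ∈ F \ t := by rw [hc]; simp
  rw [mem_sdiff] at hc'
  refine ⟨c, hc'.1, ?_⟩
  apply eq_of_subset_of_card_le
  · intro x hx
    exact mem_erase.2 ⟨fun h => hc'.2 (h ▸ hx), h hx⟩
  · rw [card_erase_of_mem hc'.1, hF, ht]

/-- a sum over the triangles through `ρ` of a function that lives on the triangles of `F` -/
theorem sum_two {ρ F : Finset V} (hF : F.card = 4) {a b : V} (ha : a ∈ F) (hb : b ∈ F)
    (hab : a ≠ b) (haρ : a ∉ ρ) (hbρ : b ∉ ρ) (h : ρ ⊆ F) (z : Finset V → ZMod 2)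
    (hz : ∀ t : Finset V, t.card = 3 → ρ ⊆ t → z t ≠ 0 → t = F.erase a ∨ t = F.erase b) :
    ∑ t ∈ univ.filter (fun t : Finset V => t.card = 3 ∧ ρ ⊆ t), z t =
      z (F.erase a) + z (F.erase b) := by
  have hne : F.erase a ≠ F.erase b := by
    intro he
    have : b ∈ F.erase a := mem_erase.2 ⟨hab.symm, hb⟩
    rw [he] at this
    exact (mem_erase.1 this).1 rfl
  rw [← sum_pair hne]
  symm
  apply sum_subset
  · intro t ht
    rw [mem_filter]
    refine ⟨mem_univ _, ?_⟩
    rcases mem_insert.1 ht with rfl | ht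
    · exact ⟨by rw [card_erase_of_mem ha, hF], fun x hx => mem_erase.2 ⟨fun e => haρ (e ▸ hx), h hx⟩⟩
    · rw [mem_singleton] at ht
      subst ht
      exact ⟨by rw [card_erase_of_mem hb, hF], fun x hx => mem_erase.2 ⟨fun e => hbρ (e ▸ hx), h hx⟩⟩
  · intro t ht hn
    rw [mem_filter] at ht
    by_contra h0
    rcases hz t ht.2.1 ht.2.2 h0 with rfl | rfl
    · exact hn (by simp)
    · exact hn (by simp)

theorem bd_cycle {F : Finset V} (hF : F.card = 4) (ρ : Finset V) (hρ : ρ.card = 2) :
    ∑ t ∈ univ.filter (fun t : Finset V => t.card = 3 ∧ ρ ⊆ t),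
      (if t ⊆ F then (1 : ZMod 2) else 0) = 0 := by
  by_cases h : ρ ⊆ F
  · obtain ⟨a, b, ha, hb, hab, haρ, hbρ, -, ht⟩ := mid hρ hF h
    rw [sum_two hF ha hb hab haρ hbρ h (fun t => if t ⊆ F then (1 : ZMod 2) else 0)]
    · rw [if_pos (erase_subset _ _), if_pos (erase_subset _ _)]
      rfl
    · intro t h3 hρt hz
      refine ht t h3 hρt ?_
      by_contra hc
      exact hz (if_neg hc)
  · apply sum_eq_zero
    intro t ht
    rw [mem_filter] at ht
    exact if_neg fun h' => h (ht.2.2.trans h')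

theorem cyc_bdry (G : Finset V) (l : List (Finset V)) : Shell l → (∀ H ∈ l, H.card = 4) →
    ∀ z : Finset V → ZMod 2,
    (∀ t : Finset V, t.card = 3 → G ⊆ t → z t ≠ 0 → ∃ H ∈ l, t ⊆ H) →
    (∀ ρ : Finset V, ρ.card = 2 → G ⊆ ρ →
      ∑ t ∈ univ.filter (fun t : Finset V => t.card = 3 ∧ ρ ⊆ t), z t = 0) →
    ∃ c : Finset V → ZMod 2, (∀ H, c H ≠ 0 → H ∈ l) ∧
      ∀ t : Finset V, t.card = 3 → G ⊆ t → z t = ∑ H ∈ univ.filter (fun H => t ⊆ H), c H := by
  induction l with
  | nil =>
    intro _ _ z hz _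
    refine ⟨fun _ => 0, fun H h => absurd rfl h, fun t h3 hG => ?_⟩
    rw [sum_const_zero]
    by_contra h0
    obtain ⟨H, hH, -⟩ := hz t h3 hG h0
    simp at hH
  | cons F l ih =>
    intro hS hc z hz hcyc
    have hF := hc F (by simp)
    have hc' : ∀ H ∈ l, H.card = 4 := fun H hH => hc H (List.mem_cons_of_mem _ hH)
    by_cases hnew : ∀ t : Finset V, t.card = 3 → G ⊆ t → z t ≠ 0 → ∃ H ∈ l, t ⊆ H
    · obtain ⟨c, h1, h2⟩ := ih hS.1 hc' z hnew hcyc
      exact ⟨c, fun H h => List.mem_cons_of_mem _ (h1 H h), h2⟩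
    · push Not at hnew
      obtain ⟨t0, h3, hG0, hz0, hn0⟩ := hnew
      have ht0F : t0 ⊆ F := by
        obtain ⟨H, hH, h⟩ := hz t0 h3 hG0 hz0
        rcases List.mem_cons.1 hH with rfl | hH
        · exact h
        · exact absurd h (hn0 H hH)
      have one : ∀ x : ZMod 2, x ≠ 0 → x = 1 := by decide
      have key : ∀ t : Finset V, t.card = 3 → G ⊆ t → t ⊆ F → (∀ H ∈ l, ¬ t ⊆ H) → z t = 1 := by
        intro t ht hGt htF hn
        by_cases he : t = t0
        · rw [he]
          exact one _ hz0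
        obtain ⟨v, hv, rfl⟩ := ridge_eq ht hF htF
        obtain ⟨v0, hv0, rfl⟩ := ridge_eq h3 hF ht0F
        have hvv : v ≠ v0 := fun h => he (by rw [h])
        have hρc : ((F.erase v).erase v0).card = 2 := by
          rw [card_erase_of_mem (mem_erase.2 ⟨hvv.symm, hv0⟩), ht]
        have hρF : (F.erase v).erase v0 ⊆ F := (erase_subset _ _).trans (erase_subset _ _)
        have hρG : G ⊆ (F.erase v).erase v0 := fun x hx =>
          mem_erase.2 ⟨(mem_erase.1 (hG0 hx)).1, hGt hx⟩
        have hρnew : ∀ H ∈ l, ¬ (F.erase v).erase v0 ⊆ H := by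
          intro H hH hsub
          obtain ⟨H', hH', y, hy, h1, h2⟩ := hS.2 H hH
          have hyρ : y ∉ (F.erase v).erase v0 := by
            intro h
            have := h1 (mem_inter.2 ⟨hy, hsub h⟩)
            exact (mem_erase.1 this).1 rfl
          by_cases e1 : y = v0
          · exact hn0 H' hH' (e1 ▸ h2)
          · by_cases e2 : y = v
            · exact hn H' hH' (e2 ▸ h2)
            · exact hyρ (mem_erase.2 ⟨e1, mem_erase.2 ⟨e2, hy⟩⟩)
        have hs := hcyc _ hρc hρG
        rw [sum_two hF hv hv0 hvv (by simp) (by simp) hρF z] at hs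
        · rw [one _ hz0] at hs
          revert hs
          generalize z (F.erase v) = u
          revert u
          decide
        · intro t ht' hρt hzt
          obtain ⟨H, hH, h⟩ := hz t ht' (hρG.trans hρt) hzt
          rcases List.mem_cons.1 hH with rfl | hH
          · obtain ⟨w, hw, rfl⟩ := ridge_eq ht' hF h
            by_cases e1 : w = v0
            · exact Or.inr (by rw [e1])
            · by_cases e2 : w = v
              · exact Or.inl (by rw [e2])
              · have := hρt (mem_erase.2 ⟨e1, mem_erase.2 ⟨e2, hw⟩⟩)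
                exact absurd rfl (mem_erase.1 this).1
          · exact absurd (hρt.trans h) (hρnew H hH)
      obtain ⟨c, h1, h2⟩ := ih hS.1 hc' (fun t => z t + if t ⊆ F then (1 : ZMod 2) else 0)
        (by
          intro t ht hGt hzt
          by_contra hcon
          push Not at hcon
          by_cases htF : t ⊆ F
          · rw [if_pos htF, key t ht hGt htF hcon] at hzt
            exact hzt rfl
          · rw [if_neg htF, add_zero] at hzt
            obtain ⟨H, hH, h⟩ := hz t ht hGt hzt
            rcases List.mem_cons.1 hH with rfl | hH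
            · exact htF h
            · exact hcon H hH h)
        (by
          intro ρ hρ hG
          rw [sum_add_distrib, hcyc ρ hρ hG, bd_cycle hF ρ hρ, add_zero])
      refine ⟨fun H => c H + if H = F then 1 else 0, ?_, ?_⟩
      · intro H h
        by_cases e : H = F
        · rw [e]
          simp
        · simp only [if_neg e, add_zero] at h
          exact List.mem_cons_of_mem _ (h1 H h)
      · intro t ht hGt
        rw [sum_add_distrib, ← h2 t ht hGt, sum_ite_eq']
        simp only [mem_filter, mem_univ, true_and]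
        split_ifs
        · rw [add_assoc]
          exact (add_zero _).symm
        · simp

/-- If every ridge of `F` through `G` is old, there is a top-dimensional cycle through `F`. -/
theorem top_cycle (G F : Finset V) (l : List (Finset V)) (hS : Shell l)
    (hc : ∀ H ∈ l, H.card = 4) (hF : F.card = 4) (hFl : F ∉ l)
    (hold : ∀ v ∈ F, v ∉ G → ∃ H ∈ l, F.erase v ⊆ H) :
    ∃ c : Finset V → ZMod 2, (∀ H, c H ≠ 0 → H ∈ F :: l) ∧ c F = 1 ∧
      ∀ t : Finset V, t.card = 3 → G ⊆ t → ∑ H ∈ univ.filter (fun H => t ⊆ H), c H = 0 := by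
  obtain ⟨c, h1, h2⟩ := cyc_bdry G l hS hc (fun t => if t ⊆ F then (1 : ZMod 2) else 0)
    (by
      intro t ht hGt hz
      have htF : t ⊆ F := by
        by_contra h
        exact hz (if_neg h)
      obtain ⟨v, hv, rfl⟩ := ridge_eq ht hF htF
      exact hold v hv fun h => (mem_erase.1 (hGt h)).1 rfl)
    (fun ρ hρ _ => bd_cycle hF ρ hρ)
  refine ⟨fun H => c H + if H = F then 1 else 0, ?_, ?_, ?_⟩
  · intro H h
    by_cases e : H = F
    · rw [e]
      simp
    · simp only [if_neg e, add_zero] at h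
      exact List.mem_cons_of_mem _ (h1 H h)
  · have : c F = 0 := by
      by_contra h
      exact hFl (h1 F h)
    simp [this]
  · intro t ht hGt
    rw [sum_add_distrib, ← h2 t ht hGt, sum_ite_eq']
    simp only [mem_filter, mem_univ, true_and]
    split_ifs
    · rfl
    · simp

/-- two facets across a ridge that lies in no third facet carry the same coefficient -/
theorem adj_eq {S : Finset (Finset V)} {c : Finset V → ZMod 2} (hc : ∀ H, c H ≠ 0 → H ∈ S)
    {t A B : Finset V} (hsum : ∑ H ∈ univ.filter (fun H => t ⊆ H), c H = 0)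
    (hA : t ⊆ A) (hB : t ⊆ B) (hAB : A ≠ B) (h : ∀ H ∈ S, t ⊆ H → H = A ∨ H = B) :
    c A = c B := by
  have : ∑ H ∈ univ.filter (fun H => t ⊆ H), c H = c A + c B := by
    rw [← sum_pair hAB]
    symm
    apply sum_subset
    · intro H hH
      rcases mem_insert.1 hH with rfl | hH
      · simpa using hA
      · rw [mem_singleton] at hH
        subst hH
        simpa using hB
    · intro H hH hn
      by_contra h0
      rcases h H (hc H h0) (mem_filter.1 hH).2 with rfl | rfl
      · exact hn (by simp)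
      · exact hn (by simp)
  rw [this] at hsum
  revert hsum
  generalize c A = u
  generalize c B = w
  revert u w
  decide

end Pool.Agent.H401Z.CS
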