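import Mathlib
import Pool.Agent.H401Z.CS.Top
import Pool.Agent.H401Z.CS.Knot

set_option autoImplicit false

namespace Pool.Agent.H401Z.CS

open Finset Pool.Agent.Helper175.NS

variable {V : Type} [DecidableEq V] [Fintype V]

/-- every top-dimensional mod 2 cycle of the link of `G` is constant -/
def Conn (S : Finset (Finset V)) (G : Finset V) : Prop :=
  ∀ c : Finset V → ZMod 2, (∀ H, c H ≠ 0 → H ∈ S) →
    (∀ t : Finset V, t.card = 3 → G ⊆ t → ∑ H ∈ univ.filter (fun H => t ⊆ H), c H = 0) →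
    ∀ A ∈ S, ∀ B ∈ S, G ⊆ A → G ⊆ B → c A = c B

/-- a 3-colourable knot `x p q y` with `p`, `q` in `I` -/
def Gad (S : Finset (Finset V)) (I : Finset V) (x y : V) : Prop :=
  ∃ (K : V → Prop) (psi : V → V → Fin 3 → Fin 3) (col : V → V → Fin 3) (p q : V),
    (∀ a, K a ↔ a = x ∨ a = y ∨ a = p ∨ a = q) ∧ p ∈ I ∧ q ∈ I ∧
    (∀ G ∈ S, Good K psi col G) ∧ (∃ G ∈ S, x ∈ G ∧ p ∈ G) ∧
    (¬ ∃ g : V → Fin 3, ∀ F ∈ S, ∀ u ∈ F, ∀ v ∈ F, ¬ K u → ¬ K v → g v = psi u v (g u)) ∧
    Conn S {x, y}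

structure Cell (S : Finset (Finset V)) (I τ : Finset V) : Prop where
  card : τ.card = 4
  sub : ∀ F ∈ S, ¬ Disjoint F I → F ⊆ τ ∪ I
  nb : ∀ F ∈ S, ¬ Disjoint F I → ∀ v ∈ F, ∃ F' ∈ S, F' ≠ F ∧ F.erase v ⊆ F'
  ne : ∃ F ∈ S, ¬ Disjoint F I
  gad : ∀ x ∈ τ, ∀ y ∈ τ, x ≠ y → Gad S I x y ∨ Gad S I y x

omit [Fintype V] in
theorem shell_suffix {l l' : List (Finset V)} (h : l' <:+ l) (hl : Shell l) : Shell l' := by
  obtain ⟨a, rfl⟩ := h
  induction a with
  | nil => exact hl
  | cons F a ih => exact ih hl.1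

theorem split_first {α : Type} (P : α → Prop) (l : List α) (h : ∃ x ∈ l, P x) :
    ∃ a F b, l = a ++ F :: b ∧ P F ∧ ∀ y ∈ a, ¬ P y := by
  induction l with
  | nil => simp at h
  | cons c l ih =>
    by_cases hc : P c
    · exact ⟨[], c, l, rfl, hc, by simp⟩
    · obtain ⟨x, hx, hP⟩ := h
      rcases List.mem_cons.1 hx with rfl | hx
      · exact absurd hP hc
      · obtain ⟨a, F, b, rfl, h1, h2⟩ := ih ⟨x, hx, hP⟩
        refine ⟨c :: a, F, b, rfl, h1, ?_⟩
        intro y hy
        rcases List.mem_cons.1 hy with rfl | hy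
        · exact hc
        · exact h2 y hy

theorem split_last {α : Type} (P : α → Prop) (l : List α) (h : ∃ x ∈ l, P x) :
    ∃ a F b, l = a ++ F :: b ∧ P F ∧ ∀ y ∈ b, ¬ P y := by
  induction l with
  | nil => simp at h
  | cons c l ih =>
    by_cases hl : ∃ x ∈ l, P x
    · obtain ⟨a, F, b, rfl, h1, h2⟩ := ih hl
      exact ⟨c :: a, F, b, rfl, h1, h2⟩
    · obtain ⟨x, hx, hP⟩ := h
      rcases List.mem_cons.1 hx with rfl | hx
      · exact ⟨[], x, l, rfl, hP, fun y hy h => hl ⟨y, hy, h⟩⟩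
      · exact absurd ⟨x, hx, hP⟩ hl

theorem last_of_top {S : Finset (Finset V)} {l : List (Finset V)} (hl : Shell l) (hnd : l.Nodup)
    (hlS : ∀ F, F ∈ l ↔ F ∈ S) (hc : ∀ F ∈ S, F.card = 4) {G : Finset V} (hG : Conn S G)
    {F : Finset V} {l' : List (Finset V)} (hsuf : (F :: l') <:+ l) (hGF : G ⊆ F)
    (hold : ∀ v ∈ F, v ∉ G → ∃ H ∈ l', F.erase v ⊆ H) :
    ∀ H ∈ S, G ⊆ H → H ∈ F :: l' := by
  have hsub : ∀ H ∈ F :: l', H ∈ S := fun H hH => (hlS H).1 (hsuf.subset hH)
  obtain ⟨c, h1, h2, h3⟩ := top_cycle G F l' (shell_suffix hsuf hl).1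
    (fun H hH => hc H (hsub H (List.mem_cons_of_mem _ hH))) (hc F (hsub F (by simp)))
    (List.nodup_cons.1 (hnd.sublist hsuf.sublist)).1 hold
  intro H hH hGH
  apply h1
  rw [hG c (fun H h => hsub H (h1 H h)) h3 H hH F (hsub F (by simp)) hGH hGF, h2]
  decide

theorem suffix_tail {α : Type} {l a b : List α} {F G : α} (h1 : (F :: a) <:+ l)
    (h2 : (G :: b) <:+ l) {z : α} (hz : z ∈ F :: a) (hz' : z ∉ G :: b) : (G :: b) <:+ a := by
  rcases List.suffix_or_suffix_of_suffix h1 h2 with h | h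
  · exact absurd (h.subset hz) hz'
  · rcases List.suffix_cons_iff.1 h with h | h
    · rw [h] at hz'
      exact absurd hz hz'
    · exact h

theorem cell_false {S : Finset (Finset V)} {l : List (Finset V)} (hl : Shell l) (hnd : l.Nodup)
    (hlS : ∀ F, F ∈ l ↔ F ∈ S) (hc : ∀ F ∈ S, F.card = 4) (h0 : Conn S ∅) {I τ : Finset V}
    (hC : Cell S I τ) (hlast : ∀ F l', l = F :: l' → Disjoint F I)
    (hfirst : ∀ F l', l = l' ++ [F] → Disjoint F I) : False := by
  have hex : ∃ F ∈ l, ¬ Disjoint F I := by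
    obtain ⟨F, hF, h⟩ := hC.ne
    exact ⟨F, (hlS F).2 hF, h⟩
  have inter : ∀ F ∈ S, ∀ F' ∈ S, ¬ Disjoint F I → Disjoint F' I → ∀ t, t ⊆ F → t ⊆ F' →
      t ⊆ τ := by
    intro F hF F' _ h h' t h1 h2 v hv
    rcases mem_union.1 (hC.sub F hF h (h1 hv)) with h3 | h3
    · exact h3
    · exact absurd h3 (disjoint_left.1 h' (h2 hv))
  obtain ⟨l1, Fi, l2, e1, hFi, hl2⟩ := split_last (fun F => ¬ Disjoint F I) l hex
  obtain ⟨l3, Fo, l4, e2, hFo, hl3⟩ := split_first (fun F => ¬ Disjoint F I) l hex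
  have si : (Fi :: l2) <:+ l := e1 ▸ List.suffix_append _ _
  have so : (Fo :: l4) <:+ l := e2 ▸ List.suffix_append _ _
  have hFiS : Fi ∈ S := (hlS _).1 (si.subset (by simp))
  have hFoS : Fo ∈ S := (hlS _).1 (so.subset (by simp))
  -- the entry triangle
  obtain ⟨G0, hG0⟩ : ∃ G0, G0 ∈ l2 := by
    rcases l2 with _ | ⟨G, l2⟩
    · exact absurd (hfirst Fi l1 e1) hFi
    · exact ⟨G, by simp⟩
  obtain ⟨Hi, hHi, yi, hyi, -, hti⟩ := (shell_suffix si hl).2 G0 hG0
  have hHiS : Hi ∈ S := (hlS _).1 (si.subset (List.mem_cons_of_mem _ hHi))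
  have ti : Fi.erase yi ⊆ τ := inter Fi hFiS Hi hHiS hFi (not_not.1 (hl2 Hi hHi)) _
    (erase_subset _ _) hti
  -- the exit triangle
  have hnew : ∃ v ∈ Fo, ∀ H ∈ l4, ¬ Fo.erase v ⊆ H := by
    by_contra hcon
    push Not at hcon
    have hall := last_of_top hl hnd hlS hc h0 so (empty_subset _) (fun v hv _ => hcon v hv)
    rcases l3 with _ | ⟨G, l3⟩
    · exact hFo (hlast Fo l4 e2)
    · have hG : G ∈ l := by rw [e2]; simp
      have h1 := hall G ((hlS G).1 hG) (empty_subset _)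
      rw [e2, List.cons_append, List.nodup_cons] at hnd
      exact hnd.1 (List.mem_append_right _ h1)
  obtain ⟨vo, hvo, hno⟩ := hnew
  obtain ⟨Ho, hHoS, hHne, hto⟩ := hC.nb Fo hFoS hFo vo hvo
  have hHo4 : Ho ∉ Fo :: l4 := by
    intro h
    rcases List.mem_cons.1 h with h | h
    · exact hHne h
    · exact hno Ho h hto
  have hHo3 : Ho ∈ l3 := by
    have : Ho ∈ l := (hlS _).2 hHoS
    rw [e2, List.mem_append] at this
    exact this.resolve_right hHo4
  have to' : Fo.erase vo ⊆ τ := inter Fo hFoS Ho hHoS hFo (not_not.1 (hl3 Ho hHo3)) _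
    (erase_subset _ _) hto
  -- a common edge
  have hcard : 1 < (Fi.erase yi ∩ Fo.erase vo).card := by
    have a1 : (Fi.erase yi).card = 3 := by rw [card_erase_of_mem hyi, hc _ hFiS]
    have a2 : (Fo.erase vo).card = 3 := by rw [card_erase_of_mem hvo, hc _ hFoS]
    have a3 := card_le_card (union_subset ti to')
    have a4 := card_union_add_card_inter (Fi.erase yi) (Fo.erase vo)
    have a5 := hC.card
    omega
  have main : ∀ x y, x ∈ Fi.erase yi ∩ Fo.erase vo → y ∈ Fi.erase yi ∩ Fo.erase vo → x ≠ y →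
      ¬ Gad S I x y := by
    rintro x y hx hy hxy ⟨K, psi, col, p, q, hK, hp, hq, hgood, ⟨Gp, hGpS, hxGp, hpGp⟩, hnf, hconn⟩
    rw [mem_inter] at hx hy
    apply hnf
    obtain ⟨g, hg⟩ := knot_flat' (psi := psi) (col := col) hK l hl
      (fun G hG => hgood G ((hlS G).1 hG)) ⟨Fi, (hlS _).2 hFiS⟩
      (by
        intro F l' hs hpq
        have hF : ¬ Disjoint F I := by
          intro hd
          rcases hpq with h | h
          · exact disjoint_left.1 hd h hp
          · exact disjoint_left.1 hd h hq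
        refine ⟨Hi, ?_, hti hx.1, hti hy.1⟩
        rcases List.suffix_or_suffix_of_suffix hs si with h | h
        · rcases List.suffix_cons_iff.1 h with h | h
          · rw [(List.cons.inj h).2]
            exact hHi
          · exact absurd hF (hl2 F (h.subset (by simp)))
        · rcases List.suffix_cons_iff.1 h with h | h
          · rw [← (List.cons.inj h).2]
            exact hHi
          · exact h.subset (List.mem_cons_of_mem _ hHi))
      (by
        rintro F l' hs ⟨u, hu, v, hv, huv, huK, hvK, hz, H1, hH1, H2, hH2, h1, h2⟩ hxF hyF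
        have hFS : F ∈ S := (hlS _).1 (hs.subset (by simp))
        have hall := last_of_top hl hnd hlS hc hconn hs
          (insert_subset hxF (singleton_subset_iff.2 hyF)) (by
            intro w hw hwn
            by_cases e1 : w = u
            · exact ⟨H1, hH1, e1 ▸ h1⟩
            · by_cases e2 : w = v
              · exact ⟨H2, hH2, e2 ▸ h2⟩
              · exfalso
                simp only [mem_insert, mem_singleton, not_or] at hwn
                rcases (hgood F hFS).two x hxF y hyF w hw ((hK x).2 (by simp))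
                  ((hK y).2 (by simp)) (hz w hw e1 e2) with h | h | h
                · exact hxy h
                · exact hwn.1 h.symm
                · exact hwn.2 h.symm)
        have h3 := hall Ho hHoS (insert_subset (hto hx.2) (singleton_subset_iff.2 (hto hy.2)))
        have h4 := suffix_tail hs so h3 hHo4
        refine ⟨Gp, h4.subset ?_, hxGp, hpGp⟩
        have : Gp ∈ l := (hlS _).2 hGpS
        rw [e2, List.mem_append] at this
        refine this.resolve_left fun h => hl3 Gp h fun hd => disjoint_left.1 hd hpGp hp)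
    exact ⟨g, fun F hF => hg F ((hlS F).2 hF)⟩
  obtain ⟨x, hx, y, hy, hxy⟩ := one_lt_card.1 hcard
  rcases hC.gad x (ti (mem_inter.1 hx).1) y (ti (mem_inter.1 hy).1) hxy with h | h
  · exact main x y hx hy hxy h
  · exact main y x hy hx hxy.symm h

theorem no_shell {S : Finset (Finset V)} {l : List (Finset V)} (hl : Shell l) (hnd : l.Nodup)
    (hlS : ∀ F, F ∈ l ↔ F ∈ S) (hc : ∀ F ∈ S, F.card = 4) (h0 : Conn S ∅)
    {I1 τ1 I2 τ2 I3 τ3 : Finset V} (c1 : Cell S I1 τ1) (c2 : Cell S I2 τ2) (c3 : Cell S I3 τ3)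
    (d12 : Disjoint (τ1 ∪ I1) I2) (d13 : Disjoint (τ1 ∪ I1) I3) (d23 : Disjoint (τ2 ∪ I2) I3) :
    False := by
  obtain ⟨F0, hF0, -⟩ := c1.ne
  have hne : l ≠ [] := List.ne_nil_of_mem ((hlS F0).2 hF0)
  have key : ∀ I τ, Cell S I τ → ¬ Disjoint (l.head hne) I ∨ ¬ Disjoint (l.getLast hne) I := by
    intro I τ c
    by_contra h
    push Not at h
    refine cell_false hl hnd hlS hc h0 c ?_ ?_
    · rintro F l' rfl
      exact h.1
    · rintro F l' rfl
      simpa using h.2
  have ex : ∀ F ∈ S, ¬ (¬ Disjoint F I1 ∧ ¬ Disjoint F I2) ∧ ¬ (¬ Disjoint F I1 ∧ ¬ Disjoint F I3) ∧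
      ¬ (¬ Disjoint F I2 ∧ ¬ Disjoint F I3) := fun F hF =>
    ⟨fun h => h.2 (d12.mono_left (c1.sub F hF h.1)), fun h => h.2 (d13.mono_left (c1.sub F hF h.1)),
      fun h => h.2 (d23.mono_left (c2.sub F hF h.1))⟩
  have a := ex _ ((hlS _).1 (List.head_mem hne))
  have b := ex _ ((hlS _).1 (List.getLast_mem hne))
  have k1 := key _ _ c1
  have k2 := key _ _ c2
  have k3 := key _ _ c3
  tauto

omit [Fintype V] in
/-- the usual indexed form of a shelling gives `Shell` of the reversed list -/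
theorem shell_of_index (L : List (Finset V))
    (h : ∀ i j : Fin L.length, i < j → ∃ k : Fin L.length, k < j ∧
      L.get i ∩ L.get j ⊆ L.get k ∩ L.get j ∧ (L.get j \ L.get k).card = 1) :
    Shell L.reverse := by
  have key : ∀ n, n ≤ L.length → Shell (L.take n).reverse := by
    intro n
    induction n with
    | zero => intro _; simp [Shell]
    | succ n ih =>
      intro hn
      have hn' : n < L.length := hn
      rw [List.take_add_one, List.getElem?_eq_getElem hn', Option.toList_some, List.reverse_append,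
        List.reverse_singleton, List.singleton_append]
      refine ⟨ih hn'.le, ?_⟩
      intro G hG
      rw [List.mem_reverse, List.mem_take_iff_getElem] at hG
      obtain ⟨i, hi, rfl⟩ := hG
      have hi' : i < n := lt_of_lt_of_le hi (min_le_left _ _)
      obtain ⟨k, hk, h1, h2⟩ := h ⟨i, lt_trans hi' hn'⟩ ⟨n, hn'⟩ hi'
      obtain ⟨y, hy⟩ := card_eq_one.1 h2
      have hy' : y ∈ L.get ⟨n, hn'⟩ \ L.get k := by rw [hy]; simp
      rw [mem_sdiff] at hy'
      refine ⟨L.get k, ?_, y, hy'.1, ?_, ?_⟩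
      · rw [List.mem_reverse, List.mem_take_iff_getElem]
        exact ⟨k.val, lt_min hk k.isLt, rfl⟩
      · intro v hv
        rw [mem_inter] at hv
        refine mem_erase.2 ⟨?_, hv.1⟩
        rintro rfl
        exact hy'.2 (mem_inter.1 (h1 (mem_inter.2 ⟨hv.2, hv.1⟩))).1
      · intro v hv
        by_contra hc
        have : v ∈ L.get ⟨n, hn'⟩ \ L.get k := mem_sdiff.2 ⟨(mem_erase.1 hv).2, hc⟩
        rw [hy, mem_singleton] at this
        exact (mem_erase.1 hv).1 this
  simpa using key L.length le_rfl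

end Pool.Agent.H401Z.CS
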