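import Mathlib
import Pool.Agent.H401Z.CS.Mask
import Pool.Agent.H401Z.CS.NoShell

set_option autoImplicit false

namespace Pool.Agent.H401Z.CS

open Finset Pool.Agent.Helper175.NS

/-- transition functions along the edges of the template (only the nontrivial ones are listed) -/
def tab : List (ℕ × (Fin 3 → Fin 3)) :=
  [(54, ![1, 0, 2]), (55, ![0, 2, 1]), (58, ![2, 0, 1]), (60, ![2, 0, 1]), (99, ![1, 0, 2]), (103,
  ![2, 0, 1]), (104, ![1, 0, 2]), (106, ![2, 0, 1]), (115, ![0, 2, 1]), (118, ![1, 2, 0]), (120,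
  ![2, 0, 1]), (124, ![2, 1, 0]), (134, ![1, 0, 2]), (135, ![1, 2, 0]), (139, ![1, 2, 0]), (140,
  ![1, 0, 2]), (163, ![1, 2, 0]), (166, ![1, 2, 0]), (171, ![1, 2, 0]), (184, ![2, 0, 1]), (186,
  ![2, 0, 1]), (195, ![1, 2, 0]), (199, ![2, 1, 0]), (200, ![1, 0, 2])]

def psiT (u v : ℕ) (c : Fin 3) : Fin 3 :=
  match tab.lookup (16 * u + v) with
  | some p => p c
  | none => c

def ctab : List (ℕ × Fin 3) :=
  [(8, 2), (9, 2), (10, 2), (12, 2), (22, 1), (27, 1), (66, 2), (67, 2), (70, 2), (71, 1), (72,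
  2), (73, 2), (74, 1), (75, 2), (76, 2), (82, 1), (83, 2), (86, 1), (87, 1), (90, 1), (91, 1),
  (92, 1)]

def colT (a u : ℕ) : Fin 3 := (ctab.lookup (16 * a + u)).getD 0

def KT (n : ℕ) : Prop := n = 0 ∨ n = 1 ∨ n = 4 ∨ n = 5

instance : DecidablePred KT := fun n => by unfold KT; infer_instance

/-- the facets of the template ball, preceded by a pattern for the facets outside it -/
def templ : List (List ℕ) :=
  [[0, 1, 2, 3, 13], [0, 1, 2, 7], [0, 1, 3, 7], [3, 4, 5, 7], [1, 3, 6, 7], [3, 4, 6, 7], [1, 2,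
  3, 8], [2, 3, 4, 8], [1, 3, 6, 8], [3, 4, 6, 8], [1, 5, 6, 8], [0, 4, 8, 9], [2, 4, 8, 9], [3,
  4, 5, 10], [1, 2, 7, 10], [2, 5, 7, 10], [4, 5, 7, 10], [1, 6, 7, 10], [4, 6, 7, 10], [1, 2, 8,
  10], [0, 8, 9, 10], [2, 8, 9, 10], [0, 2, 3, 11], [2, 3, 4, 11], [2, 4, 6, 11], [1, 5, 6, 11],
  [2, 5, 6, 11], [0, 2, 7, 11], [2, 5, 7, 11], [1, 5, 8, 11], [0, 7, 8, 11], [5, 7, 8, 11], [0, 3,
  10, 11], [3, 4, 10, 11], [1, 6, 10, 11], [4, 6, 10, 11], [0, 8, 10, 11], [1, 8, 10, 11], [2, 4,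
  6, 12], [2, 5, 6, 12], [0, 3, 7, 12], [3, 5, 7, 12], [0, 4, 8, 12], [4, 6, 8, 12], [5, 6, 8,
  12], [0, 7, 8, 12], [5, 7, 8, 12], [0, 4, 9, 12], [2, 4, 9, 12], [0, 3, 10, 12], [2, 5, 10, 12],
  [3, 5, 10, 12], [0, 9, 10, 12], [2, 9, 10, 12]]

def GoodT (s : List ℕ) : Prop :=
  (∀ u ∈ s, ¬ KT u → ∀ c, psiT u u c = c) ∧
  (∀ u ∈ s, ¬ KT u → ∀ v ∈ s, ¬ KT v → ∀ w ∈ s, ¬ KT w → ∀ c,
    psiT v w (psiT u v c) = psiT u w c) ∧
  (∀ a ∈ s, KT a → ∀ u ∈ s, ¬ KT u → ∀ v ∈ s, ¬ KT v → psiT u v (colT a u) = colT a v) ∧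
  (∀ a ∈ s, KT a → ∀ b ∈ s, KT b → ∀ u ∈ s, ¬ KT u → colT a u = colT b u) ∧
  (∀ a ∈ s, KT a → ∀ b ∈ s, KT b → ∀ c ∈ s, KT c → a = b ∨ a = c ∨ b = c)

instance (s : List ℕ) : Decidable (GoodT s) := by unfold GoodT; infer_instance

theorem good_all : ∀ s ∈ templ, GoodT s := by decide +kernel

theorem noflat : ∀ a2 a3 a6 a7 : Fin 3, a3 = psiT 2 3 a2 → a6 = psiT 2 6 a2 → a7 = psiT 2 7 a2 →
    a6 = psiT 3 6 a3 → a7 = psiT 3 7 a3 → False := by decide +kernel

/-- the template label of a vertex -/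
def lab (f : List ℕ) (v : Fin 174) : ℕ := f.idxOf v.val

theorem lab_val {f : List ℕ} (hf : f.length = 13) {v : Fin 174} (h : KT (lab f v)) :
    f.getD (lab f v) 0 = v.val := by
  have hlt : f.idxOf v.val < f.length := by
    unfold KT lab at h
    omega
  unfold lab
  rw [List.getD_eq_getElem _ _ hlt, List.getElem_idxOf]

theorem good_of {f : List ℕ} (hf : f.length = 13) {F : Finset (Fin 174)} (hF : F.card = 4)
    {s : List ℕ} (hs : s ∈ templ) (h : ∀ v ∈ F, lab f v ∈ s) :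
    Good (fun v => KT (lab f v)) (fun u v => psiT (lab f u) (lab f v))
      (fun a u => colT (lab f a) (lab f u)) F := by
  obtain ⟨h2, h3, h4, h5, h6⟩ := good_all s hs
  have inj : ∀ a b : Fin 174, KT (lab f a) → KT (lab f b) → lab f a = lab f b → a = b := by
    intro a b ka kb e
    apply Fin.ext
    rw [← lab_val hf ka, ← lab_val hf kb, e]
  exact ⟨hF, fun u hu ku => h2 _ (h u hu) ku,
    fun u hu v hv w hw ku kv kw => h3 _ (h u hu) ku _ (h v hv) kv _ (h w hw) kw,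
    fun a ha ka u hu v hv ku kv => h4 _ (h a ha) ka _ (h u hu) ku _ (h v hv) kv,
    fun a ha b hb ka kb u hu ku => h5 _ (h a ha) ka _ (h b hb) kb _ (h u hu) ku,
    fun a ha b hb c hc ka kb kc =>
      (h6 _ (h a ha) ka _ (h b hb) kb _ (h c hc) kc).imp (inj a b ka kb)
        (fun h => h.imp (inj a c ka kc) (inj b c kb kc))⟩

/-- spanning trees in first-child, next-sibling form; a node is the facet `x :: t`, and `t` is the
triangle it shares with its parent -/
inductive Tr : Type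
  | nil : Tr
  | node (x : ℕ) (t : List ℕ) (ch sib : Tr) : Tr

def Tr.flat : Tr → List ℕ → List ℕ
  | .nil, acc => acc
  | .node x t ch sib, acc => mk (x :: t) :: ch.flat (sib.flat acc)

noncomputable def adjB (SB : List (ℕ × List ℕ)) (g a b : ℕ) (t : List ℕ) : Bool :=
  okL 3 t && sb g (mk t) && sb (mk t) a && sb (mk t) b && decide (a ≠ b) &&
    decide (a < 2 ^ 174) && decide (b < 2 ^ 174) &&
    scanAll SB (mk t) (fun m => orR (Nat.beq m a) (Nat.beq m b))

noncomputable def okTr (SB : List (ℕ × List ℕ)) (g : ℕ) : ℕ → Tr → Bool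
  | _, .nil => true
  | par, .node x t ch sib =>
    adjB SB g par (mk (x :: t)) t && okTr SB g (mk (x :: t)) ch && okTr SB g par sib

theorem okTr_eq {SB : List (ℕ × List ℕ)} (hok : okB SB = true) {g : ℕ}
    {c : Finset (Fin 174) → ZMod 2} (hc : ∀ H, c H ≠ 0 → H ∈ dcL (fl SB))
    (hs : ∀ t : Finset (Fin 174), t.card = 3 → dc g ⊆ t →
      ∑ H ∈ univ.filter (fun H => t ⊆ H), c H = 0) (T : Tr) :
    ∀ par acc, okTr SB g par T = true → ∀ m ∈ T.flat acc, m ∈ acc ∨ c (dc m) = c (dc par) := by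
  induction T with
  | nil => intro par acc _ m hm; exact Or.inl hm
  | node x t ch sib ih1 ih2 =>
    intro par acc h m hm
    simp only [okTr, adjB, Bool.and_eq_true, decide_eq_true_eq, sb_iff] at h
    obtain ⟨⟨⟨⟨⟨⟨⟨⟨⟨h1, h2⟩, h2a⟩, h2b⟩, h3⟩, h4⟩, h5⟩, h6⟩, h7⟩, h8⟩ := h
    have e : c (dc par) = c (dc (mk (x :: t))) := by
      refine adj_eq hc (hs (dc (mk t)) (card_mk h1) (sub_of_land h2))
        (sub_of_land h2a) (sub_of_land h2b) (fun h => h3 (dc_inj h4 h5 h)) ?_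
      intro H hH ht
      obtain ⟨m', hm', rfl⟩ := mem_dcL.1 hH
      have hlt : mk t < 2 ^ 174 := by
        rw [← h2a]
        exact lt_of_le_of_lt Nat.and_le_left h4
      have := scanAll_spec hok h6 m' hm' (land_of_sub hlt ht)
      rw [orR_iff, Nat.beq_eq, Nat.beq_eq] at this
      exact this.imp (fun h => by rw [h]) (fun h => by rw [h])
    rw [Tr.flat, List.mem_cons] at hm
    rcases hm with rfl | hm
    · exact Or.inr e.symm
    · rcases ih1 _ _ h7 m hm with h | h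
      · exact ih2 par acc h8 m h
      · exact Or.inr (h.trans e.symm)

noncomputable def covB (SB : List (ℕ × List ℕ)) (g root : ℕ) (T : Tr) : Bool :=
  decide (g < 2 ^ 174) && scanAll SB g (fun m => anyR (root :: T.flat []) (fun a => Nat.beq m a))

theorem conn_of {SB : List (ℕ × List ℕ)} (hok : okB SB = true) {g root : ℕ} {T : Tr}
    (h7 : okTr SB g root T = true) (h : covB SB g root T = true) : Conn (dcL (fl SB)) (dc g) := by
  simp only [covB, Bool.and_eq_true, decide_eq_true_eq] at h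
  obtain ⟨h1, h3⟩ := h
  intro c hc hs
  have key : ∀ A ∈ dcL (fl SB), dc g ⊆ A → c A = c (dc root) := by
    intro A hA hg
    obtain ⟨m, hm, rfl⟩ := mem_dcL.1 hA
    obtain ⟨a, ha, e⟩ := anyR_iff.1 (scanAll_spec hok h3 m hm (land_of_sub h1 hg))
    rw [Nat.beq_eq] at e
    subst e
    rcases List.mem_cons.1 ha with h | h
    · rw [h]
    · rcases okTr_eq hok hc hs T root [] h7 m h with h | h
      · simp at h
      · exact h
  intro A hA B hB a b
  rw [key A hA a, key B hB b]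

noncomputable def edgeB (SB : List (ℕ × List ℕ)) (u v : ℕ) : Bool :=
  scanAny SB (mk [u, v]) (fun _ => true)

noncomputable def gadB (SB : List (ℕ × List ℕ)) (I : ℕ) (g : List ℕ × ℕ × Tr) : Bool :=
  decide (g.1.length = 13) && g.1.all (fun v => decide (v < 174)) &&
    (List.range 13).all (fun j => decide (g.1.idxOf (g.1.getD j 0) = j)) &&
    I.testBit (g.1.getD 4 0) && I.testBit (g.1.getD 5 0) &&
    allR SB (fun B => orR (Nat.beq (Nat.land B.1 (mk (g.1.drop 4))) 0) (allR B.2 (fun m =>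
      anyR templ.tail (fun s => Nat.beq m (mk (s.map (fun j => g.1.getD j 0))))))) &&
    edgeB SB (g.1.getD 0 0) (g.1.getD 4 0) && edgeB SB (g.1.getD 2 0) (g.1.getD 3 0) &&
    edgeB SB (g.1.getD 2 0) (g.1.getD 6 0) && edgeB SB (g.1.getD 2 0) (g.1.getD 7 0) &&
    edgeB SB (g.1.getD 3 0) (g.1.getD 6 0) && edgeB SB (g.1.getD 3 0) (g.1.getD 7 0) &&
    okTr SB (mk [g.1.getD 0 0, g.1.getD 1 0]) g.2.1 g.2.2 &&
    covB SB (mk [g.1.getD 0 0, g.1.getD 1 0]) g.2.1 g.2.2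

theorem templ_lt : ∀ s ∈ templ.tail, ∀ j ∈ s, j < 13 := by decide +kernel

theorem gad_of {SB : List (ℕ × List ℕ)} (hok : okB SB = true)
    (h4 : ∀ F ∈ dcL (fl SB), F.card = 4) {I : ℕ} {g : List ℕ × ℕ × Tr} (h : gadB SB I g = true)
    {x y : Fin 174} (hx : g.1.getD 0 0 = x.val) (hy : g.1.getD 1 0 = y.val) :
    Gad (dcL (fl SB)) (dc I) x y := by
  obtain ⟨f, root, T⟩ := g
  simp only [gadB, Bool.and_eq_true, decide_eq_true_eq, List.all_eq_true, allR_iff, anyR_iff,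
    orR_iff, Nat.beq_eq, List.mem_range] at h hx hy
  obtain ⟨⟨⟨⟨⟨⟨⟨⟨⟨⟨⟨⟨⟨a1, a2⟩, a3⟩, a4⟩, a5⟩, a6⟩, b1⟩, b2⟩, b3⟩, b4⟩, b5⟩, b6⟩, c1⟩, c2⟩ := h
  have hlt : ∀ j, j < 8 → f.getD j 0 < 174 := by
    intro j hj
    have : j < f.length := by omega
    rw [List.getD_eq_getElem _ _ this]
    exact a2 _ (List.getElem_mem _)
  let w : (j : ℕ) → j < 8 → Fin 174 := fun j hj => ⟨f.getD j 0, hlt j hj⟩
  have hw : ∀ j hj, lab f (w j hj) = j := fun j hj => a3 j (by omega)
  have ed : ∀ i j hi hj, edgeB SB (f.getD i 0) (f.getD j 0) = true →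
      ∃ G ∈ dcL (fl SB), w i hi ∈ G ∧ w j hj ∈ G := by
    intro i j hi hj h
    obtain ⟨m, hm, h1, -⟩ := scanAny_spec h
    exact ⟨dc m, mem_dcL.2 ⟨m, hm, rfl⟩, sub_of_land h1 (mem_dc_mk.2 (by simp [w])),
      sub_of_land h1 (mem_dc_mk.2 (by simp [w]))⟩
  have ex : x = w 0 (by norm_num) := Fin.ext hx.symm
  have ey : y = w 1 (by norm_num) := Fin.ext hy.symm
  refine ⟨fun v => KT (lab f v), fun u v => psiT (lab f u) (lab f v),
    fun a u => colT (lab f a) (lab f u), w 4 (by norm_num), w 5 (by norm_num), ?_,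
    mem_dc.2 a4, mem_dc.2 a5, ?_, ?_, ?_, ?_⟩
  · intro a
    rw [ex, ey]
    constructor
    · intro ka
      have hv := lab_val a1 ka
      rcases ka with k | k | k | k <;> rw [k] at hv
      · exact Or.inl (Fin.ext hv.symm)
      · exact Or.inr (Or.inl (Fin.ext hv.symm))
      · exact Or.inr (Or.inr (Or.inl (Fin.ext hv.symm)))
      · exact Or.inr (Or.inr (Or.inr (Fin.ext hv.symm)))
    · rintro (rfl | rfl | rfl | rfl) <;> rw [hw] <;> decide
  · intro G hG
    have hc := h4 G hG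
    obtain ⟨m, hm, rfl⟩ := mem_dcL.1 hG
    obtain ⟨B, hB, hm⟩ := mem_fl.1 hm
    rcases a6 B hB with h | h
    · refine good_of a1 hc (s := [0, 1, 2, 3, 13]) (by decide) fun v hv => ?_
      have hd := disjoint_left.1 (disj_of_land h) (sub_of_land ((okB_iff.1 hok B hB).2 m hm) hv)
      rw [mem_dc_mk] at hd
      have hle : lab f v ≤ 13 := a1 ▸ List.idxOf_le_length
      by_contra hcon
      simp only [List.mem_cons, List.not_mem_nil, or_false, not_or] at hcon
      have hl : lab f v < f.length := by omega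
      apply hd
      rw [List.mem_drop_iff_getElem]
      refine ⟨lab f v - 4, by omega, ?_⟩
      have e : 4 + (lab f v - 4) = lab f v := by omega
      simp only [e]
      exact List.getElem_idxOf hl
    · obtain ⟨s, hs, rfl⟩ := h m hm
      refine good_of a1 hc (List.mem_of_mem_tail hs) fun v hv => ?_
      obtain ⟨j, hj, e⟩ := List.mem_map.1 (mem_dc_mk.1 hv)
      have : lab f v = j := by
        unfold lab
        rw [← e]
        exact a3 j (templ_lt s hs j hj)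
      rwa [this]
  · rw [ex]
    exact ed 0 4 (by norm_num) (by norm_num) b1
  · rintro ⟨g, hg⟩
    have key : ∀ i j hi hj, ¬ KT i → ¬ KT j → edgeB SB (f.getD i 0) (f.getD j 0) = true →
        g (w j hj) = psiT i j (g (w i hi)) := by
      intro i j hi hj ki kj h
      obtain ⟨G, hG, h1, h2⟩ := ed i j hi hj h
      have := hg G hG _ h1 _ h2 (by simpa only [hw] using ki) (by simpa only [hw] using kj)
      simp only [hw] at this
      exact this
    exact noflat _ _ _ _ (key 2 3 (by norm_num) (by norm_num) (by decide) (by decide) b2)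
      (key 2 6 (by norm_num) (by norm_num) (by decide) (by decide) b3)
      (key 2 7 (by norm_num) (by norm_num) (by decide) (by decide) b4)
      (key 3 6 (by norm_num) (by norm_num) (by decide) (by decide) b5)
      (key 3 7 (by norm_num) (by norm_num) (by decide) (by decide) b6)
  · have := conn_of hok c1 c2
    have e : dc (mk [f.getD 0 0, f.getD 1 0]) = {x, y} := by
      ext v
      rw [mem_dc_mk, hx, hy]
      simp [Fin.ext_iff]
    rwa [e] at this

noncomputable def nbB (SL : List (List ℕ)) (SB : List (ℕ × List ℕ)) : Bool :=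
  allR SL (fun vl => allR vl (fun v => scanAny SB (mk vl ^^^ 2 ^ v) (fun m => !Nat.beq m (mk vl))))

theorem nb_of {SL : List (List ℕ)} {SB : List (ℕ × List ℕ)} (hS : fl SB = SL.map mk)
    (hok : okB SB = true) (h : nbB SL SB = true) :
    ∀ F ∈ dcL (fl SB), ∀ v ∈ F, ∃ F' ∈ dcL (fl SB), F' ≠ F ∧ F.erase v ⊆ F' := by
  simp only [nbB, allR_iff] at h
  intro F hF v hv
  obtain ⟨m, hm, rfl⟩ := mem_dcL.1 hF
  have hm' := hm
  rw [hS, List.mem_map] at hm'
  obtain ⟨vl, hvl, rfl⟩ := hm'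
  obtain ⟨m', hm', h1, h2⟩ := scanAny_spec (h vl hvl v.val (mem_dc_mk.1 hv))
  refine ⟨dc m', mem_dcL.2 ⟨m', hm', rfl⟩, fun e => ?_, ?_⟩
  · rw [dc_inj (okB_lt' hok _ hm') (okB_lt' hok _ hm) e] at h2
    simp at h2
  · rw [← dc_xor hv]
    exact sub_of_land h1

noncomputable def cellB (SB : List (ℕ × List ℕ)) (I : ℕ) (tl : List ℕ)
    (gs : List (List ℕ × ℕ × Tr)) : Bool :=
  okL 4 tl && decide (I < 2 ^ 174) &&
    allR SB (fun B => orR (Nat.beq (Nat.land B.1 I) 0) (sb B.1 (mk tl ||| I))) &&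
    anyR (fl SB) (fun m => decide (m &&& I ≠ 0)) &&
    tl.all (fun x => tl.all (fun y => decide (x = y) || gs.any (fun g =>
      (decide (g.1.getD 0 0 = x) && decide (g.1.getD 1 0 = y)) ||
      (decide (g.1.getD 0 0 = y) && decide (g.1.getD 1 0 = x)))))

theorem cell_of {SB : List (ℕ × List ℕ)} (hok : okB SB = true)
    (h4 : ∀ F ∈ dcL (fl SB), F.card = 4)
    (hnb : ∀ F ∈ dcL (fl SB), ∀ v ∈ F, ∃ F' ∈ dcL (fl SB), F' ≠ F ∧ F.erase v ⊆ F')
    {I : ℕ} {tl : List ℕ} {gs : List (List ℕ × ℕ × Tr)} (h : cellB SB I tl gs = true)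
    (hg : gs.all (gadB SB I) = true) : Cell (dcL (fl SB)) (dc I) (dc (mk tl)) := by
  simp only [cellB, Bool.and_eq_true, Bool.or_eq_true, decide_eq_true_eq, List.all_eq_true,
    List.any_eq_true, allR_iff, anyR_iff, orR_iff, sb_iff, Nat.beq_eq] at h hg
  obtain ⟨⟨⟨⟨a1, a2⟩, a3⟩, m0, hm0, a4⟩, a5⟩ := h
  refine ⟨card_mk a1, ?_, fun F hF _ => hnb F hF, ⟨dc m0, mem_dcL.2 ⟨m0, hm0, rfl⟩, ?_⟩, ?_⟩
  · intro F hF hd
    obtain ⟨m, hm, rfl⟩ := mem_dcL.1 hF
    obtain ⟨B, hB, hm⟩ := mem_fl.1 hm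
    have hsub := sub_of_land ((okB_iff.1 hok B hB).2 m hm)
    rcases a3 B hB with h | h
    · exact absurd ((disj_of_land h).mono_left hsub) hd
    · rw [← dc_lor]
      exact hsub.trans (sub_of_land h)
  · rw [disjoint_iff_inter_eq_empty, ← dc_land]
    exact (dc_nonempty (lt_of_le_of_lt Nat.and_le_right a2) a4).ne_empty
  · intro x hx y hy hxy
    rcases a5 _ (mem_dc_mk.1 hx) _ (mem_dc_mk.1 hy) with h | ⟨g, hg', h | h⟩
    · exact absurd (Fin.ext h) hxy
    · exact Or.inl (gad_of hok h4 (hg g hg') h.1 h.2)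
    · exact Or.inr (gad_of hok h4 (hg g hg') h.1 h.2)

end Pool.Agent.H401Z.CS
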