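import Mathlib
import Pool.Agent.H401Z.CS.Mask

set_option autoImplicit false

namespace Pool.Agent.H401Z.CS

open Finset

/-- the two closure rules of constructibility -/
def Rules {V : Type} [DecidableEq V] (P : ℕ → Finset (Finset V) → Prop) : Prop :=
  (∀ σ : Finset V, P σ.card {σ}) ∧
  (∀ (k : ℕ) (F₁ F₂ G : Finset (Finset V)), 1 ≤ k →
    (∀ σ ∈ F₁, σ.card = k) → (∀ σ ∈ F₂, σ.card = k) → P k F₁ → P k F₂ →
    (∀ γ ∈ G, γ.card = k - 1) →
    (∀ ρ : Finset V, (∃ γ ∈ G, ρ ⊆ γ) ↔ (∃ σ ∈ F₁, ∃ τ ∈ F₂, ρ ⊆ σ ∧ ρ ⊆ τ)) →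
    P (k - 1) G → P k (F₁ ∪ F₂))

theorem ridges {V : Type} [DecidableEq V] {P : ℕ → Finset (Finset V) → Prop} (hP : Rules P)
    (k : ℕ) : ∀ τ : Finset V, τ.card = k + 1 → ∀ R : Finset V, R.Nonempty → R ⊆ τ →
      P k (R.image τ.erase) := by
  have single : ∀ (k : ℕ) (τ : Finset V), τ.card = k + 1 → ∀ a ∈ τ, P k {τ.erase a} := by
    intro k τ hτ a ha
    have := hP.1 (τ.erase a)
    rwa [card_erase_of_mem ha, hτ, Nat.add_sub_cancel] at this
  induction k with
  | zero =>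
    intro τ hτ R hR hsub
    obtain ⟨a, rfl⟩ := card_eq_one.1 hτ
    rw [hR.subset_singleton_iff.1 hsub, image_singleton]
    exact single 0 _ hτ a (by simp)
  | succ k ih =>
    intro τ hτ R hR
    induction hR using Finset.Nonempty.cons_induction with
    | singleton a =>
      intro hsub
      rw [image_singleton]
      exact single _ τ hτ a (hsub (by simp))
    | cons a R ha hR ih2 =>
      intro hsub
      rw [cons_eq_insert] at hsub ⊢
      have haτ : a ∈ τ := hsub (by simp)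
      have hRτ : R ⊆ τ := (subset_insert _ _).trans hsub
      have hca : (τ.erase a).card = k + 1 := by rw [card_erase_of_mem haτ, hτ]; rfl
      have hRa : R ⊆ τ.erase a := fun b hb => mem_erase.2 ⟨fun h => ha (h ▸ hb), hRτ hb⟩
      rw [image_insert, insert_eq, union_comm]
      refine hP.2 (k + 1) _ _ (R.image (τ.erase a).erase) (by omega) ?_ ?_ (ih2 hRτ)
        (single _ τ hτ a haτ) ?_ ?_ (ih _ hca R hR hRa)
      · intro σ hσ
        obtain ⟨b, hb, rfl⟩ := mem_image.1 hσ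
        rw [card_erase_of_mem (hRτ hb), hτ]
        rfl
      · intro σ hσ
        rw [mem_singleton.1 hσ, hca]
      · intro σ hσ
        obtain ⟨b, hb, rfl⟩ := mem_image.1 hσ
        rw [card_erase_of_mem (hRa hb), hca]
      · intro ρ
        constructor
        · rintro ⟨γ, hγ, h⟩
          obtain ⟨b, hb, rfl⟩ := mem_image.1 hγ
          exact ⟨_, mem_image_of_mem _ hb, _, mem_singleton_self _,
            h.trans (erase_subset_erase _ (erase_subset _ _)), h.trans (erase_subset _ _)⟩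
        · rintro ⟨σ, hσ, τ', hτ', h1, h2⟩
          obtain ⟨b, hb, rfl⟩ := mem_image.1 hσ
          rw [mem_singleton.1 hτ'] at h2
          exact ⟨_, mem_image_of_mem _ hb, fun v hv => mem_erase.2 ⟨(mem_erase.1 (h1 hv)).1, h2 hv⟩⟩

/-- construction trees -/
inductive CT : Type
  | leaf (m : List ℕ) : CT
  | node (τ : List ℕ) (R : List ℕ) (l r : CT) : CT

def CT.fac : CT → List ℕ
  | .leaf m => [mk m]
  | .node _ _ l r => r.fac ++ l.fac

def orL : List ℕ → ℕ
  | [] => 0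
  | a :: l => a ||| orL l

theorem sub_orL {l : List ℕ} {m : ℕ} (h : m ∈ l) : dc m ⊆ dc (orL l) := by
  induction l with
  | nil => simp at h
  | cons a l ih =>
    rw [orL, dc_lor]
    rcases List.mem_cons.1 h with rfl | h
    · exact subset_union_left
    · exact (ih h).trans subset_union_right

noncomputable def glueB (τ : ℕ) (R : List ℕ) (A B : List ℕ) (U : ℕ) : Bool :=
  decide (R ≠ []) &&
    allR R (fun v => decide (v < 174) && τ.testBit v &&
      anyR A (fun s => sb (τ ^^^ 2 ^ v) s) && anyR B (fun s => sb (τ ^^^ 2 ^ v) s)) &&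
    allR A (fun s => orR (anyR R (fun v => sb (Nat.land s U) (τ ^^^ 2 ^ v)))
      (allR B (fun s' => anyR R (fun v => sb (Nat.land s s') (τ ^^^ 2 ^ v)))))

noncomputable def okCT : CT → Bool
  | .leaf m => okL 4 m
  | .node τ R l r => okCT l && okCT r && okL 4 τ && glueB (mk τ) R l.fac r.fac (orL r.fac)

theorem constr_of {P : ℕ → Finset (Finset (Fin 174)) → Prop} (hP : Rules P) (T : CT) :
    okCT T = true → (∀ F ∈ dcL T.fac, F.card = 4) ∧ P 4 (dcL T.fac) := by
  induction T with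
  | leaf m =>
    intro h
    have e : dcL (CT.leaf m).fac = {dc (mk m)} := by
      ext F
      simp [mem_dcL, CT.fac, eq_comm]
    have hc : (dc (mk m)).card = 4 := card_mk h
    rw [e]
    refine ⟨fun F hF => by rw [mem_singleton.1 hF, hc], ?_⟩
    have := hP.1 (dc (mk m))
    rwa [hc] at this
  | node τl R l r ih1 ih2 =>
    intro h
    simp only [okCT, glueB, Bool.and_eq_true, orR_iff, decide_eq_true_eq,
      allR_iff, anyR_iff, sb_iff] at h
    obtain ⟨⟨⟨h1, h2⟩, a1⟩, ⟨a2, a3⟩, a4⟩ := h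
    obtain ⟨c1, p1⟩ := ih1 h1
    obtain ⟨c2, p2⟩ := ih2 h2
    rw [CT.fac, dcL_append, union_comm]
    refine ⟨fun F hF => (mem_union.1 hF).elim (c1 F) (c2 F), ?_⟩
    have hτ : (dc (mk τl)).card = 3 + 1 := card_mk a1
    generalize mk τl = τ at *
    have hRτ : dc (mk R) ⊆ dc τ := fun v hv => mem_dc.2 (a3 _ (mem_dc_mk.1 hv)).1.1.2
    have hRne : (dc (mk R)).Nonempty := by
      obtain ⟨v, hv⟩ := List.exists_mem_of_ne_nil R a2
      exact ⟨⟨v, (a3 v hv).1.1.1⟩, mem_dc_mk.2 hv⟩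
    have fin : ∀ (w : ℕ) (ρ : Finset (Fin 174)), ρ ⊆ dc w →
        (∃ v ∈ R, (τ ^^^ 2 ^ v) &&& w = w) → ∃ γ ∈ (dc (mk R)).image (dc τ).erase, ρ ⊆ γ := by
      rintro w ρ hρ ⟨v, hv, h⟩
      have hv' : (⟨v, (a3 v hv).1.1.1⟩ : Fin 174) ∈ dc (mk R) := mem_dc_mk.2 hv
      refine ⟨_, mem_image_of_mem _ hv', hρ.trans ?_⟩
      rw [← dc_xor (hRτ hv')]
      exact sub_of_land h
    refine hP.2 4 _ _ ((dc (mk R)).image (dc τ).erase) (by norm_num) c1 c2 p1 p2 ?_ ?_
      (ridges hP 3 _ hτ _ hRne hRτ)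
    · intro γ hγ
      obtain ⟨b, hb, rfl⟩ := mem_image.1 hγ
      rw [card_erase_of_mem (hRτ hb), hτ]
    · intro ρ
      constructor
      · rintro ⟨γ, hγ, h⟩
        obtain ⟨b, hb, rfl⟩ := mem_image.1 hγ
        obtain ⟨⟨-, s, hs, e1⟩, s', hs', e2⟩ := a3 _ (mem_dc_mk.1 hb)
        rw [← dc_xor (hRτ hb)] at h
        exact ⟨_, mem_dcL.2 ⟨s, hs, rfl⟩, _, mem_dcL.2 ⟨s', hs', rfl⟩, h.trans (sub_of_land e1),
          h.trans (sub_of_land e2)⟩
      · rintro ⟨σ, hσ, σ', hσ', e1, e2⟩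
        obtain ⟨s, hs, rfl⟩ := mem_dcL.1 hσ
        obtain ⟨s', hs', rfl⟩ := mem_dcL.1 hσ'
        rcases a4 s hs with h | h
        · refine fin (s &&& orL r.fac) ρ ?_ h
          rw [dc_land]
          exact subset_inter e1 (e2.trans (sub_orL hs'))
        · refine fin (s &&& s') ρ ?_ (h s' hs')
          rw [dc_land]
          exact subset_inter e1 e2

end Pool.Agent.H401Z.CS
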