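import Mathlib
import Pool.Agent.H401Z.CS.Data
import Pool.Agent.H401Z.CS.Constr

set_option autoImplicit false
set_option maxRecDepth 100000

namespace Pool.Agent.H401Z.CS

noncomputable def ct0 : CT :=
  (.node [2, 3, 4, 5] [2, 3, 4] (.node [1, 3, 4, 5] [3, 4] (.node [1, 2, 4, 5] [4] (.node [1, 3,
  5, 6] [1, 3, 5] (.node [2, 3, 5, 6] [3, 5] (.node [1, 2, 5, 6] [5] (.leaf [1, 2, 3, 6]) (.node
  [1, 5, 6, 14] [1, 5, 6] (.node [2, 5, 6, 11] [2, 5, 6] (.node [2, 5, 11, 13] [2, 5, 11] (.node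
  [1, 2, 6, 10] [1, 2, 6] (.node [1, 2, 5, 10] [1, 2] (.node [2, 5, 10, 13] [2, 5] (.node [1, 5,
  10, 14] [1, 5] (.node [5, 11, 12, 13] [5, 11, 13] (.node [5, 6, 7, 14] [5, 6, 14] (.node [5, 6,
  7, 11] [5, 6] (.node [2, 6, 9, 10] [2, 6, 10] (.node [2, 9, 10, 13] [2, 10] (.node [2, 6, 9, 11]
  [2, 6] (.node [6, 7, 9, 11] [6, 11] (.node [6, 7, 9, 10] [6, 9] (.node [7, 9, 10, 13] [9, 10]
  (.node [5, 7, 11, 12] [5, 11] (.node [7, 8, 10, 13] [7, 10, 13] (.node [5, 8, 10, 13] [10, 13]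
  (.node [6, 7, 8, 10] [7, 10] (.node [5, 8, 10, 14] [5, 10] (.node [1, 6, 10, 15] [1, 6, 10]
  (.node [6, 7, 8, 13] [7, 8] (.node [6, 8, 10, 15] [6, 10] (.node [6, 7, 13, 14] [6, 7] (.node
  [1, 6, 13, 14] [6, 14] (.node [1, 6, 13, 15] [1, 6] (.node [6, 8, 13, 15] [6] (.node [5, 8, 13,
  15] [8, 13] (.node [5, 12, 13, 15] [5, 13] (.node [5, 7, 12, 15] [5, 12] (.node [7, 9, 13, 14]
  [7, 13] (.node [2, 9, 13, 14] [9, 13] (.node [1, 12, 13, 15] [13, 15] (.node [1, 11, 12, 13]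
  [12, 13] (.node [5, 7, 9, 14] [7, 14] (.node [5, 7, 9, 15] [5, 7] (.node [1, 7, 11, 12] [11, 12]
  (.node [1, 11, 13, 14] [1, 13] (.node [1, 7, 12, 15] [12] (.node [2, 11, 13, 14] [13] (.node [5,
  8, 9, 15] [5, 15] (.node [5, 8, 9, 14] [5] (.node [7, 9, 11, 15] [7, 9] (.node [1, 7, 11, 15]
  [7] (.node [8, 9, 11, 15] [9, 15] (.node [1, 10, 11, 15] [1, 15] (.node [1, 10, 11, 14] [1]
  (.node [8, 10, 11, 15] [15] (.node [8, 10, 11, 14] [10] (.node [2, 8, 11, 14] [11, 14] (.node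
  [2, 8, 9, 14] [14] (.leaf [2, 8, 9, 11]) (.leaf [2, 8, 9, 14])) (.leaf [2, 8, 11, 14])) (.leaf
  [8, 10, 11, 14])) (.leaf [8, 10, 11, 15])) (.leaf [1, 10, 11, 14])) (.leaf [1, 10, 11, 15]))
  (.leaf [8, 9, 11, 15])) (.leaf [1, 7, 11, 15])) (.leaf [7, 9, 11, 15])) (.leaf [5, 8, 9, 14]))
  (.leaf [5, 8, 9, 15])) (.leaf [2, 11, 13, 14])) (.leaf [1, 7, 12, 15])) (.leaf [1, 11, 13, 14]))
  (.leaf [1, 7, 11, 12])) (.leaf [5, 7, 9, 15])) (.leaf [5, 7, 9, 14])) (.leaf [1, 11, 12, 13]))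
  (.leaf [1, 12, 13, 15])) (.leaf [2, 9, 13, 14])) (.leaf [7, 9, 13, 14])) (.leaf [5, 7, 12, 15]))
  (.leaf [5, 12, 13, 15])) (.leaf [5, 8, 13, 15])) (.leaf [6, 8, 13, 15])) (.leaf [1, 6, 13, 15]))
  (.leaf [1, 6, 13, 14])) (.leaf [6, 7, 13, 14])) (.leaf [6, 8, 10, 15])) (.leaf [6, 7, 8, 13]))
  (.leaf [1, 6, 10, 15])) (.leaf [5, 8, 10, 14])) (.leaf [6, 7, 8, 10])) (.leaf [5, 8, 10, 13]))
  (.leaf [7, 8, 10, 13])) (.leaf [5, 7, 11, 12])) (.leaf [7, 9, 10, 13])) (.leaf [6, 7, 9, 10]))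
  (.leaf [6, 7, 9, 11])) (.leaf [2, 6, 9, 11])) (.leaf [2, 9, 10, 13])) (.leaf [2, 6, 9, 10]))
  (.leaf [5, 6, 7, 11])) (.leaf [5, 6, 7, 14])) (.leaf [5, 11, 12, 13])) (.leaf [1, 5, 10, 14]))
  (.leaf [2, 5, 10, 13])) (.leaf [1, 2, 5, 10])) (.leaf [1, 2, 6, 10])) (.leaf [2, 5, 11, 13]))
  (.leaf [2, 5, 6, 11])) (.leaf [1, 5, 6, 14]))) (.node [2, 5, 6, 23] [2, 5, 6] (.node [3, 5, 6,
  20] [3, 5, 6] (.node [3, 5, 20, 22] [3, 5, 20] (.node [2, 3, 6, 19] [2, 3, 6] (.node [2, 3, 5,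
  19] [2, 3] (.node [3, 5, 19, 22] [3, 5] (.node [2, 5, 19, 23] [2, 5] (.node [5, 20, 21, 22] [5,
  20, 22] (.node [5, 6, 16, 23] [5, 6, 23] (.node [5, 6, 16, 20] [5, 6] (.node [3, 6, 18, 19] [3,
  6, 19] (.node [3, 18, 19, 22] [3, 19] (.node [3, 6, 18, 20] [3, 6] (.node [6, 16, 18, 20] [6,
  20] (.node [6, 16, 18, 19] [6, 18] (.node [16, 18, 19, 22] [18, 19] (.node [5, 16, 20, 21] [5,
  20] (.node [16, 17, 19, 22] [16, 19, 22] (.node [5, 17, 19, 22] [19, 22] (.node [6, 16, 17, 19]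
  [16, 19] (.node [5, 17, 19, 23] [5, 19] (.node [2, 6, 19, 24] [2, 6, 19] (.node [6, 16, 17, 22]
  [16, 17] (.node [6, 17, 19, 24] [6, 19] (.node [6, 16, 22, 23] [6, 16] (.node [2, 6, 22, 23] [6,
  23] (.node [2, 6, 22, 24] [2, 6] (.node [6, 17, 22, 24] [6] (.node [5, 17, 22, 24] [17, 22]
  (.node [5, 21, 22, 24] [5, 22] (.node [5, 16, 21, 24] [5, 21] (.node [16, 18, 22, 23] [16, 22]
  (.node [3, 18, 22, 23] [18, 22] (.node [2, 21, 22, 24] [22, 24] (.node [2, 20, 21, 22] [21, 22]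
  (.node [5, 16, 18, 23] [16, 23] (.node [5, 16, 18, 24] [5, 16] (.node [2, 16, 20, 21] [20, 21]
  (.node [2, 20, 22, 23] [2, 22] (.node [2, 16, 21, 24] [21] (.node [3, 20, 22, 23] [22] (.node
  [5, 17, 18, 24] [5, 24] (.node [5, 17, 18, 23] [5] (.node [16, 18, 20, 24] [16, 18] (.node [2,
  16, 20, 24] [16] (.node [17, 18, 20, 24] [18, 24] (.node [2, 19, 20, 24] [2, 24] (.node [2, 19,
  20, 23] [2] (.node [17, 19, 20, 24] [24] (.node [17, 19, 20, 23] [19] (.node [3, 17, 20, 23]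
  [20, 23] (.node [3, 17, 18, 23] [23] (.leaf [3, 17, 18, 20]) (.leaf [3, 17, 18, 23])) (.leaf [3,
  17, 20, 23])) (.leaf [17, 19, 20, 23])) (.leaf [17, 19, 20, 24])) (.leaf [2, 19, 20, 23]))
  (.leaf [2, 19, 20, 24])) (.leaf [17, 18, 20, 24])) (.leaf [2, 16, 20, 24])) (.leaf [16, 18, 20,
  24])) (.leaf [5, 17, 18, 23])) (.leaf [5, 17, 18, 24])) (.leaf [3, 20, 22, 23])) (.leaf [2, 16,
  21, 24])) (.leaf [2, 20, 22, 23])) (.leaf [2, 16, 20, 21])) (.leaf [5, 16, 18, 24])) (.leaf [5,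
  16, 18, 23])) (.leaf [2, 20, 21, 22])) (.leaf [2, 21, 22, 24])) (.leaf [3, 18, 22, 23])) (.leaf
  [16, 18, 22, 23])) (.leaf [5, 16, 21, 24])) (.leaf [5, 21, 22, 24])) (.leaf [5, 17, 22, 24]))
  (.leaf [6, 17, 22, 24])) (.leaf [2, 6, 22, 24])) (.leaf [2, 6, 22, 23])) (.leaf [6, 16, 22,
  23])) (.leaf [6, 17, 19, 24])) (.leaf [6, 16, 17, 22])) (.leaf [2, 6, 19, 24])) (.leaf [5, 17,
  19, 23])) (.leaf [6, 16, 17, 19])) (.leaf [5, 17, 19, 22])) (.leaf [16, 17, 19, 22])) (.leaf [5,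
  16, 20, 21])) (.leaf [16, 18, 19, 22])) (.leaf [6, 16, 18, 19])) (.leaf [6, 16, 18, 20])) (.leaf
  [3, 6, 18, 20])) (.leaf [3, 18, 19, 22])) (.leaf [3, 6, 18, 19])) (.leaf [5, 6, 16, 20])) (.leaf
  [5, 6, 16, 23])) (.leaf [5, 20, 21, 22])) (.leaf [2, 5, 19, 23])) (.leaf [3, 5, 19, 22])) (.leaf
  [2, 3, 5, 19])) (.leaf [2, 3, 6, 19])) (.leaf [3, 5, 20, 22])) (.leaf [3, 5, 6, 20])) (.leaf [2,
  5, 6, 23]))) (.node [3, 5, 6, 32] [3, 5, 6] (.node [1, 5, 6, 29] [1, 5, 6] (.node [1, 5, 29, 31]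
  [1, 5, 29] (.node [1, 3, 6, 28] [1, 3, 6] (.node [1, 3, 5, 28] [1, 3] (.node [1, 5, 28, 31] [1,
  5] (.node [3, 5, 28, 32] [3, 5] (.node [5, 29, 30, 31] [5, 29, 31] (.node [5, 6, 25, 32] [5, 6,
  32] (.node [5, 6, 25, 29] [5, 6] (.node [1, 6, 27, 28] [1, 6, 28] (.node [1, 27, 28, 31] [1, 28]
  (.node [1, 6, 27, 29] [1, 6] (.node [6, 25, 27, 29] [6, 29] (.node [6, 25, 27, 28] [6, 27]
  (.node [25, 27, 28, 31] [27, 28] (.node [5, 25, 29, 30] [5, 29] (.node [25, 26, 28, 31] [25, 28,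
  31] (.node [5, 26, 28, 31] [28, 31] (.node [6, 25, 26, 28] [25, 28] (.node [5, 26, 28, 32] [5,
  28] (.node [3, 6, 28, 33] [3, 6, 28] (.node [6, 25, 26, 31] [25, 26] (.node [6, 26, 28, 33] [6,
  28] (.node [6, 25, 31, 32] [6, 25] (.node [3, 6, 31, 32] [6, 32] (.node [3, 6, 31, 33] [3, 6]
  (.node [6, 26, 31, 33] [6] (.node [5, 26, 31, 33] [26, 31] (.node [5, 30, 31, 33] [5, 31] (.node
  [5, 25, 30, 33] [5, 30] (.node [25, 27, 31, 32] [25, 31] (.node [1, 27, 31, 32] [27, 31] (.node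
  [3, 30, 31, 33] [31, 33] (.node [3, 29, 30, 31] [30, 31] (.node [5, 25, 27, 32] [25, 32] (.node
  [5, 25, 27, 33] [5, 25] (.node [3, 25, 29, 30] [29, 30] (.node [3, 29, 31, 32] [3, 31] (.node
  [3, 25, 30, 33] [30] (.node [1, 29, 31, 32] [31] (.node [5, 26, 27, 33] [5, 33] (.node [5, 26,
  27, 32] [5] (.node [25, 27, 29, 33] [25, 27] (.node [3, 25, 29, 33] [25] (.node [26, 27, 29, 33]
  [27, 33] (.node [3, 28, 29, 33] [3, 33] (.node [3, 28, 29, 32] [3] (.node [26, 28, 29, 33] [33]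
  (.node [26, 28, 29, 32] [28] (.node [1, 26, 29, 32] [29, 32] (.node [1, 26, 27, 32] [32] (.leaf
  [1, 26, 27, 29]) (.leaf [1, 26, 27, 32])) (.leaf [1, 26, 29, 32])) (.leaf [26, 28, 29, 32]))
  (.leaf [26, 28, 29, 33])) (.leaf [3, 28, 29, 32])) (.leaf [3, 28, 29, 33])) (.leaf [26, 27, 29,
  33])) (.leaf [3, 25, 29, 33])) (.leaf [25, 27, 29, 33])) (.leaf [5, 26, 27, 32])) (.leaf [5, 26,
  27, 33])) (.leaf [1, 29, 31, 32])) (.leaf [3, 25, 30, 33])) (.leaf [3, 29, 31, 32])) (.leaf [3,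
  25, 29, 30])) (.leaf [5, 25, 27, 33])) (.leaf [5, 25, 27, 32])) (.leaf [3, 29, 30, 31])) (.leaf
  [3, 30, 31, 33])) (.leaf [1, 27, 31, 32])) (.leaf [25, 27, 31, 32])) (.leaf [5, 25, 30, 33]))
  (.leaf [5, 30, 31, 33])) (.leaf [5, 26, 31, 33])) (.leaf [6, 26, 31, 33])) (.leaf [3, 6, 31,
  33])) (.leaf [3, 6, 31, 32])) (.leaf [6, 25, 31, 32])) (.leaf [6, 26, 28, 33])) (.leaf [6, 25,
  26, 31])) (.leaf [3, 6, 28, 33])) (.leaf [5, 26, 28, 32])) (.leaf [6, 25, 26, 28])) (.leaf [5,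
  26, 28, 31])) (.leaf [25, 26, 28, 31])) (.leaf [5, 25, 29, 30])) (.leaf [25, 27, 28, 31]))
  (.leaf [6, 25, 27, 28])) (.leaf [6, 25, 27, 29])) (.leaf [1, 6, 27, 29])) (.leaf [1, 27, 28,
  31])) (.leaf [1, 6, 27, 28])) (.leaf [5, 6, 25, 29])) (.leaf [5, 6, 25, 32])) (.leaf [5, 29, 30,
  31])) (.leaf [3, 5, 28, 32])) (.leaf [1, 5, 28, 31])) (.leaf [1, 3, 5, 28])) (.leaf [1, 3, 6,
  28])) (.leaf [1, 5, 29, 31])) (.leaf [1, 5, 6, 29])) (.leaf [3, 5, 6, 32]))) (.node [1, 2, 5,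
  41] [1, 2, 5] (.node [2, 4, 5, 38] [2, 4, 5] (.node [4, 5, 38, 40] [4, 5, 38] (.node [1, 2, 4,
  37] [1, 2, 4] (.node [1, 4, 5, 37] [1, 4] (.node [4, 5, 37, 40] [4, 5] (.node [1, 5, 37, 41] [1,
  5] (.node [5, 38, 39, 40] [5, 38, 40] (.node [2, 5, 34, 41] [2, 5, 41] (.node [2, 5, 34, 38] [2,
  5] (.node [2, 4, 36, 37] [2, 4, 37] (.node [4, 36, 37, 40] [4, 37] (.node [2, 4, 36, 38] [2, 4]
  (.node [2, 34, 36, 38] [2, 38] (.node [2, 34, 36, 37] [2, 36] (.node [34, 36, 37, 40] [36, 37]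
  (.node [5, 34, 38, 39] [5, 38] (.node [34, 35, 37, 40] [34, 37, 40] (.node [5, 35, 37, 40] [37,
  40] (.node [2, 34, 35, 37] [34, 37] (.node [5, 35, 37, 41] [5, 37] (.node [1, 2, 37, 42] [1, 2,
  37] (.node [2, 34, 35, 40] [34, 35] (.node [2, 35, 37, 42] [2, 37] (.node [2, 34, 40, 41] [2,
  34] (.node [1, 2, 40, 41] [2, 41] (.node [1, 2, 40, 42] [1, 2] (.node [2, 35, 40, 42] [2] (.node
  [5, 35, 40, 42] [35, 40] (.node [5, 39, 40, 42] [5, 40] (.node [5, 34, 39, 42] [5, 39] (.node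
  [34, 36, 40, 41] [34, 40] (.node [4, 36, 40, 41] [36, 40] (.node [1, 39, 40, 42] [40, 42] (.node
  [1, 38, 39, 40] [39, 40] (.node [5, 34, 36, 41] [34, 41] (.node [5, 34, 36, 42] [5, 34] (.node
  [1, 34, 38, 39] [38, 39] (.node [1, 38, 40, 41] [1, 40] (.node [1, 34, 39, 42] [39] (.node [4,
  38, 40, 41] [40] (.node [5, 35, 36, 42] [5, 42] (.node [5, 35, 36, 41] [5] (.node [34, 36, 38,
  42] [34, 36] (.node [1, 34, 38, 42] [34] (.node [35, 36, 38, 42] [36, 42] (.node [1, 37, 38, 42]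
  [1, 42] (.node [1, 37, 38, 41] [1] (.node [35, 37, 38, 42] [42] (.node [35, 37, 38, 41] [37]
  (.node [4, 35, 38, 41] [38, 41] (.node [4, 35, 36, 41] [41] (.leaf [4, 35, 36, 38]) (.leaf [4,
  35, 36, 41])) (.leaf [4, 35, 38, 41])) (.leaf [35, 37, 38, 41])) (.leaf [35, 37, 38, 42]))
  (.leaf [1, 37, 38, 41])) (.leaf [1, 37, 38, 42])) (.leaf [35, 36, 38, 42])) (.leaf [1, 34, 38,
  42])) (.leaf [34, 36, 38, 42])) (.leaf [5, 35, 36, 41])) (.leaf [5, 35, 36, 42])) (.leaf [4, 38,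
  40, 41])) (.leaf [1, 34, 39, 42])) (.leaf [1, 38, 40, 41])) (.leaf [1, 34, 38, 39])) (.leaf [5,
  34, 36, 42])) (.leaf [5, 34, 36, 41])) (.leaf [1, 38, 39, 40])) (.leaf [1, 39, 40, 42])) (.leaf
  [4, 36, 40, 41])) (.leaf [34, 36, 40, 41])) (.leaf [5, 34, 39, 42])) (.leaf [5, 39, 40, 42]))
  (.leaf [5, 35, 40, 42])) (.leaf [2, 35, 40, 42])) (.leaf [1, 2, 40, 42])) (.leaf [1, 2, 40,
  41])) (.leaf [2, 34, 40, 41])) (.leaf [2, 35, 37, 42])) (.leaf [2, 34, 35, 40])) (.leaf [1, 2,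
  37, 42])) (.leaf [5, 35, 37, 41])) (.leaf [2, 34, 35, 37])) (.leaf [5, 35, 37, 40])) (.leaf [34,
  35, 37, 40])) (.leaf [5, 34, 38, 39])) (.leaf [34, 36, 37, 40])) (.leaf [2, 34, 36, 37])) (.leaf
  [2, 34, 36, 38])) (.leaf [2, 4, 36, 38])) (.leaf [4, 36, 37, 40])) (.leaf [2, 4, 36, 37]))
  (.leaf [2, 5, 34, 38])) (.leaf [2, 5, 34, 41])) (.leaf [5, 38, 39, 40])) (.leaf [1, 5, 37, 41]))
  (.leaf [4, 5, 37, 40])) (.leaf [1, 4, 5, 37])) (.leaf [1, 2, 4, 37])) (.leaf [4, 5, 38, 40]))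
  (.leaf [2, 4, 5, 38])) (.leaf [1, 2, 5, 41]))) (.node [1, 3, 5, 50] [1, 3, 5] (.node [1, 4, 5,
  47] [1, 4, 5] (.node [4, 5, 47, 49] [4, 5, 47] (.node [1, 3, 4, 46] [1, 3, 4] (.node [3, 4, 5,
  46] [3, 4] (.node [4, 5, 46, 49] [4, 5] (.node [3, 5, 46, 50] [3, 5] (.node [5, 47, 48, 49] [5,
  47, 49] (.node [1, 5, 43, 50] [1, 5, 50] (.node [1, 5, 43, 47] [1, 5] (.node [1, 4, 45, 46] [1,
  4, 46] (.node [4, 45, 46, 49] [4, 46] (.node [1, 4, 45, 47] [1, 4] (.node [1, 43, 45, 47] [1,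
  47] (.node [1, 43, 45, 46] [1, 45] (.node [43, 45, 46, 49] [45, 46] (.node [5, 43, 47, 48] [5,
  47] (.node [43, 44, 46, 49] [43, 46, 49] (.node [5, 44, 46, 49] [46, 49] (.node [1, 43, 44, 46]
  [43, 46] (.node [5, 44, 46, 50] [5, 46] (.node [1, 3, 46, 51] [1, 3, 46] (.node [1, 43, 44, 49]
  [43, 44] (.node [1, 44, 46, 51] [1, 46] (.node [1, 43, 49, 50] [1, 43] (.node [1, 3, 49, 50] [1,
  50] (.node [1, 3, 49, 51] [1, 3] (.node [1, 44, 49, 51] [1] (.node [5, 44, 49, 51] [44, 49]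
  (.node [5, 48, 49, 51] [5, 49] (.node [5, 43, 48, 51] [5, 48] (.node [43, 45, 49, 50] [43, 49]
  (.node [4, 45, 49, 50] [45, 49] (.node [3, 48, 49, 51] [49, 51] (.node [3, 47, 48, 49] [48, 49]
  (.node [5, 43, 45, 50] [43, 50] (.node [5, 43, 45, 51] [5, 43] (.node [3, 43, 47, 48] [47, 48]
  (.node [3, 47, 49, 50] [3, 49] (.node [3, 43, 48, 51] [48] (.node [4, 47, 49, 50] [49] (.node
  [5, 44, 45, 51] [5, 51] (.node [5, 44, 45, 50] [5] (.node [43, 45, 47, 51] [43, 45] (.node [3,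
  43, 47, 51] [43] (.node [44, 45, 47, 51] [45, 51] (.node [3, 46, 47, 51] [3, 51] (.node [3, 46,
  47, 50] [3] (.node [44, 46, 47, 51] [51] (.node [44, 46, 47, 50] [46] (.node [4, 44, 47, 50]
  [47, 50] (.node [4, 44, 45, 50] [50] (.leaf [4, 44, 45, 47]) (.leaf [4, 44, 45, 50])) (.leaf [4,
  44, 47, 50])) (.leaf [44, 46, 47, 50])) (.leaf [44, 46, 47, 51])) (.leaf [3, 46, 47, 50]))
  (.leaf [3, 46, 47, 51])) (.leaf [44, 45, 47, 51])) (.leaf [3, 43, 47, 51])) (.leaf [43, 45, 47,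
  51])) (.leaf [5, 44, 45, 50])) (.leaf [5, 44, 45, 51])) (.leaf [4, 47, 49, 50])) (.leaf [3, 43,
  48, 51])) (.leaf [3, 47, 49, 50])) (.leaf [3, 43, 47, 48])) (.leaf [5, 43, 45, 51])) (.leaf [5,
  43, 45, 50])) (.leaf [3, 47, 48, 49])) (.leaf [3, 48, 49, 51])) (.leaf [4, 45, 49, 50])) (.leaf
  [43, 45, 49, 50])) (.leaf [5, 43, 48, 51])) (.leaf [5, 48, 49, 51])) (.leaf [5, 44, 49, 51]))
  (.leaf [1, 44, 49, 51])) (.leaf [1, 3, 49, 51])) (.leaf [1, 3, 49, 50])) (.leaf [1, 43, 49,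
  50])) (.leaf [1, 44, 46, 51])) (.leaf [1, 43, 44, 49])) (.leaf [1, 3, 46, 51])) (.leaf [5, 44,
  46, 50])) (.leaf [1, 43, 44, 46])) (.leaf [5, 44, 46, 49])) (.leaf [43, 44, 46, 49])) (.leaf [5,
  43, 47, 48])) (.leaf [43, 45, 46, 49])) (.leaf [1, 43, 45, 46])) (.leaf [1, 43, 45, 47])) (.leaf
  [1, 4, 45, 47])) (.leaf [4, 45, 46, 49])) (.leaf [1, 4, 45, 46])) (.leaf [1, 5, 43, 47])) (.leaf
  [1, 5, 43, 50])) (.leaf [5, 47, 48, 49])) (.leaf [3, 5, 46, 50])) (.leaf [4, 5, 46, 49])) (.leaf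
  [3, 4, 5, 46])) (.leaf [1, 3, 4, 46])) (.leaf [4, 5, 47, 49])) (.leaf [1, 4, 5, 47])) (.leaf [1,
  3, 5, 50]))) (.node [2, 3, 5, 59] [2, 3, 5] (.node [3, 4, 5, 56] [3, 4, 5] (.node [4, 5, 56, 58]
  [4, 5, 56] (.node [2, 3, 4, 55] [2, 3, 4] (.node [2, 4, 5, 55] [2, 4] (.node [4, 5, 55, 58] [4,
  5] (.node [2, 5, 55, 59] [2, 5] (.node [5, 56, 57, 58] [5, 56, 58] (.node [3, 5, 52, 59] [3, 5,
  59] (.node [3, 5, 52, 56] [3, 5] (.node [3, 4, 54, 55] [3, 4, 55] (.node [4, 54, 55, 58] [4, 55]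
  (.node [3, 4, 54, 56] [3, 4] (.node [3, 52, 54, 56] [3, 56] (.node [3, 52, 54, 55] [3, 54]
  (.node [52, 54, 55, 58] [54, 55] (.node [5, 52, 56, 57] [5, 56] (.node [52, 53, 55, 58] [52, 55,
  58] (.node [5, 53, 55, 58] [55, 58] (.node [3, 52, 53, 55] [52, 55] (.node [5, 53, 55, 59] [5,
  55] (.node [2, 3, 55, 60] [2, 3, 55] (.node [3, 52, 53, 58] [52, 53] (.node [3, 53, 55, 60] [3,
  55] (.node [3, 52, 58, 59] [3, 52] (.node [2, 3, 58, 59] [3, 59] (.node [2, 3, 58, 60] [2, 3]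
  (.node [3, 53, 58, 60] [3] (.node [5, 53, 58, 60] [53, 58] (.node [5, 57, 58, 60] [5, 58] (.node
  [5, 52, 57, 60] [5, 57] (.node [52, 54, 58, 59] [52, 58] (.node [4, 54, 58, 59] [54, 58] (.node
  [2, 57, 58, 60] [58, 60] (.node [2, 56, 57, 58] [57, 58] (.node [5, 52, 54, 59] [52, 59] (.node
  [5, 52, 54, 60] [5, 52] (.node [2, 52, 56, 57] [56, 57] (.node [2, 56, 58, 59] [2, 58] (.node
  [2, 52, 57, 60] [57] (.node [4, 56, 58, 59] [58] (.node [5, 53, 54, 60] [5, 60] (.node [5, 53,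
  54, 59] [5] (.node [52, 54, 56, 60] [52, 54] (.node [2, 52, 56, 60] [52] (.node [53, 54, 56, 60]
  [54, 60] (.node [2, 55, 56, 60] [2, 60] (.node [2, 55, 56, 59] [2] (.node [53, 55, 56, 60] [60]
  (.node [53, 55, 56, 59] [55] (.node [4, 53, 56, 59] [56, 59] (.node [4, 53, 54, 59] [59] (.leaf
  [4, 53, 54, 56]) (.leaf [4, 53, 54, 59])) (.leaf [4, 53, 56, 59])) (.leaf [53, 55, 56, 59]))
  (.leaf [53, 55, 56, 60])) (.leaf [2, 55, 56, 59])) (.leaf [2, 55, 56, 60])) (.leaf [53, 54, 56,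
  60])) (.leaf [2, 52, 56, 60])) (.leaf [52, 54, 56, 60])) (.leaf [5, 53, 54, 59])) (.leaf [5, 53,
  54, 60])) (.leaf [4, 56, 58, 59])) (.leaf [2, 52, 57, 60])) (.leaf [2, 56, 58, 59])) (.leaf [2,
  52, 56, 57])) (.leaf [5, 52, 54, 60])) (.leaf [5, 52, 54, 59])) (.leaf [2, 56, 57, 58])) (.leaf
  [2, 57, 58, 60])) (.leaf [4, 54, 58, 59])) (.leaf [52, 54, 58, 59])) (.leaf [5, 52, 57, 60]))
  (.leaf [5, 57, 58, 60])) (.leaf [5, 53, 58, 60])) (.leaf [3, 53, 58, 60])) (.leaf [2, 3, 58,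
  60])) (.leaf [2, 3, 58, 59])) (.leaf [3, 52, 58, 59])) (.leaf [3, 53, 55, 60])) (.leaf [3, 52,
  53, 58])) (.leaf [2, 3, 55, 60])) (.leaf [5, 53, 55, 59])) (.leaf [3, 52, 53, 55])) (.leaf [5,
  53, 55, 58])) (.leaf [52, 53, 55, 58])) (.leaf [5, 52, 56, 57])) (.leaf [52, 54, 55, 58]))
  (.leaf [3, 52, 54, 55])) (.leaf [3, 52, 54, 56])) (.leaf [3, 4, 54, 56])) (.leaf [4, 54, 55,
  58])) (.leaf [3, 4, 54, 55])) (.leaf [3, 5, 52, 56])) (.leaf [3, 5, 52, 59])) (.leaf [5, 56, 57,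
  58])) (.leaf [2, 5, 55, 59])) (.leaf [4, 5, 55, 58])) (.leaf [2, 4, 5, 55])) (.leaf [2, 3, 4,
  55])) (.leaf [4, 5, 56, 58])) (.leaf [3, 4, 5, 56])) (.leaf [2, 3, 5, 59])))

noncomputable def ct1 : CT :=
  (.node [2, 3, 4, 61] [2, 3, 4] (.node [0, 3, 4, 61] [3, 4] (.node [0, 2, 4, 61] [4] (.node [0,
  3, 61, 62] [0, 3, 61] (.node [2, 3, 61, 62] [3, 61] (.node [0, 2, 61, 62] [61] (.leaf [0, 2, 3,
  62]) (.node [0, 61, 62, 70] [0, 61, 62] (.node [2, 61, 62, 67] [2, 61, 62] (.node [2, 61, 67,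
  69] [2, 61, 67] (.node [0, 2, 62, 66] [0, 2, 62] (.node [0, 2, 61, 66] [0, 2] (.node [2, 61, 66,
  69] [2, 61] (.node [0, 61, 66, 70] [0, 61] (.node [61, 67, 68, 69] [61, 67, 69] (.node [61, 62,
  63, 70] [61, 62, 70] (.node [61, 62, 63, 67] [61, 62] (.node [2, 62, 65, 66] [2, 62, 66] (.node
  [2, 65, 66, 69] [2, 66] (.node [2, 62, 65, 67] [2, 62] (.node [62, 63, 65, 67] [62, 67] (.node
  [62, 63, 65, 66] [62, 65] (.node [63, 65, 66, 69] [65, 66] (.node [61, 63, 67, 68] [61, 67]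
  (.node [63, 64, 66, 69] [63, 66, 69] (.node [61, 64, 66, 69] [66, 69] (.node [62, 63, 64, 66]
  [63, 66] (.node [61, 64, 66, 70] [61, 66] (.node [0, 62, 66, 71] [0, 62, 66] (.node [62, 63, 64,
  69] [63, 64] (.node [62, 64, 66, 71] [62, 66] (.node [62, 63, 69, 70] [62, 63] (.node [0, 62,
  69, 70] [62, 70] (.node [0, 62, 69, 71] [0, 62] (.node [62, 64, 69, 71] [62] (.node [61, 64, 69,
  71] [64, 69] (.node [61, 68, 69, 71] [61, 69] (.node [61, 63, 68, 71] [61, 68] (.node [63, 65,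
  69, 70] [63, 69] (.node [2, 65, 69, 70] [65, 69] (.node [0, 68, 69, 71] [69, 71] (.node [0, 67,
  68, 69] [68, 69] (.node [61, 63, 65, 70] [63, 70] (.node [61, 63, 65, 71] [61, 63] (.node [0,
  63, 67, 68] [67, 68] (.node [0, 67, 69, 70] [0, 69] (.node [0, 63, 68, 71] [68] (.node [2, 67,
  69, 70] [69] (.node [61, 64, 65, 71] [61, 71] (.node [61, 64, 65, 70] [61] (.node [63, 65, 67,
  71] [63, 65] (.node [0, 63, 67, 71] [63] (.node [64, 65, 67, 71] [65, 71] (.node [0, 66, 67, 71]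
  [0, 71] (.node [0, 66, 67, 70] [0] (.node [64, 66, 67, 71] [71] (.node [64, 66, 67, 70] [66]
  (.node [2, 64, 67, 70] [67, 70] (.node [2, 64, 65, 70] [70] (.leaf [2, 64, 65, 67]) (.leaf [2,
  64, 65, 70])) (.leaf [2, 64, 67, 70])) (.leaf [64, 66, 67, 70])) (.leaf [64, 66, 67, 71]))
  (.leaf [0, 66, 67, 70])) (.leaf [0, 66, 67, 71])) (.leaf [64, 65, 67, 71])) (.leaf [0, 63, 67,
  71])) (.leaf [63, 65, 67, 71])) (.leaf [61, 64, 65, 70])) (.leaf [61, 64, 65, 71])) (.leaf [2,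
  67, 69, 70])) (.leaf [0, 63, 68, 71])) (.leaf [0, 67, 69, 70])) (.leaf [0, 63, 67, 68])) (.leaf
  [61, 63, 65, 71])) (.leaf [61, 63, 65, 70])) (.leaf [0, 67, 68, 69])) (.leaf [0, 68, 69, 71]))
  (.leaf [2, 65, 69, 70])) (.leaf [63, 65, 69, 70])) (.leaf [61, 63, 68, 71])) (.leaf [61, 68, 69,
  71])) (.leaf [61, 64, 69, 71])) (.leaf [62, 64, 69, 71])) (.leaf [0, 62, 69, 71])) (.leaf [0,
  62, 69, 70])) (.leaf [62, 63, 69, 70])) (.leaf [62, 64, 66, 71])) (.leaf [62, 63, 64, 69]))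
  (.leaf [0, 62, 66, 71])) (.leaf [61, 64, 66, 70])) (.leaf [62, 63, 64, 66])) (.leaf [61, 64, 66,
  69])) (.leaf [63, 64, 66, 69])) (.leaf [61, 63, 67, 68])) (.leaf [63, 65, 66, 69])) (.leaf [62,
  63, 65, 66])) (.leaf [62, 63, 65, 67])) (.leaf [2, 62, 65, 67])) (.leaf [2, 65, 66, 69])) (.leaf
  [2, 62, 65, 66])) (.leaf [61, 62, 63, 67])) (.leaf [61, 62, 63, 70])) (.leaf [61, 67, 68, 69]))
  (.leaf [0, 61, 66, 70])) (.leaf [2, 61, 66, 69])) (.leaf [0, 2, 61, 66])) (.leaf [0, 2, 62,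
  66])) (.leaf [2, 61, 67, 69])) (.leaf [2, 61, 62, 67])) (.leaf [0, 61, 62, 70]))) (.node [2, 61,
  62, 79] [2, 61, 62] (.node [3, 61, 62, 76] [3, 61, 62] (.node [3, 61, 76, 78] [3, 61, 76] (.node
  [2, 3, 62, 75] [2, 3, 62] (.node [2, 3, 61, 75] [2, 3] (.node [3, 61, 75, 78] [3, 61] (.node [2,
  61, 75, 79] [2, 61] (.node [61, 76, 77, 78] [61, 76, 78] (.node [61, 62, 72, 79] [61, 62, 79]
  (.node [61, 62, 72, 76] [61, 62] (.node [3, 62, 74, 75] [3, 62, 75] (.node [3, 74, 75, 78] [3,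
  75] (.node [3, 62, 74, 76] [3, 62] (.node [62, 72, 74, 76] [62, 76] (.node [62, 72, 74, 75] [62,
  74] (.node [72, 74, 75, 78] [74, 75] (.node [61, 72, 76, 77] [61, 76] (.node [72, 73, 75, 78]
  [72, 75, 78] (.node [61, 73, 75, 78] [75, 78] (.node [62, 72, 73, 75] [72, 75] (.node [61, 73,
  75, 79] [61, 75] (.node [2, 62, 75, 80] [2, 62, 75] (.node [62, 72, 73, 78] [72, 73] (.node [62,
  73, 75, 80] [62, 75] (.node [62, 72, 78, 79] [62, 72] (.node [2, 62, 78, 79] [62, 79] (.node [2,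
  62, 78, 80] [2, 62] (.node [62, 73, 78, 80] [62] (.node [61, 73, 78, 80] [73, 78] (.node [61,
  77, 78, 80] [61, 78] (.node [61, 72, 77, 80] [61, 77] (.node [72, 74, 78, 79] [72, 78] (.node
  [3, 74, 78, 79] [74, 78] (.node [2, 77, 78, 80] [78, 80] (.node [2, 76, 77, 78] [77, 78] (.node
  [61, 72, 74, 79] [72, 79] (.node [61, 72, 74, 80] [61, 72] (.node [2, 72, 76, 77] [76, 77]
  (.node [2, 76, 78, 79] [2, 78] (.node [2, 72, 77, 80] [77] (.node [3, 76, 78, 79] [78] (.node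
  [61, 73, 74, 80] [61, 80] (.node [61, 73, 74, 79] [61] (.node [72, 74, 76, 80] [72, 74] (.node
  [2, 72, 76, 80] [72] (.node [73, 74, 76, 80] [74, 80] (.node [2, 75, 76, 80] [2, 80] (.node [2,
  75, 76, 79] [2] (.node [73, 75, 76, 80] [80] (.node [73, 75, 76, 79] [75] (.node [3, 73, 76, 79]
  [76, 79] (.node [3, 73, 74, 79] [79] (.leaf [3, 73, 74, 76]) (.leaf [3, 73, 74, 79])) (.leaf [3,
  73, 76, 79])) (.leaf [73, 75, 76, 79])) (.leaf [73, 75, 76, 80])) (.leaf [2, 75, 76, 79]))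
  (.leaf [2, 75, 76, 80])) (.leaf [73, 74, 76, 80])) (.leaf [2, 72, 76, 80])) (.leaf [72, 74, 76,
  80])) (.leaf [61, 73, 74, 79])) (.leaf [61, 73, 74, 80])) (.leaf [3, 76, 78, 79])) (.leaf [2,
  72, 77, 80])) (.leaf [2, 76, 78, 79])) (.leaf [2, 72, 76, 77])) (.leaf [61, 72, 74, 80])) (.leaf
  [61, 72, 74, 79])) (.leaf [2, 76, 77, 78])) (.leaf [2, 77, 78, 80])) (.leaf [3, 74, 78, 79]))
  (.leaf [72, 74, 78, 79])) (.leaf [61, 72, 77, 80])) (.leaf [61, 77, 78, 80])) (.leaf [61, 73,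
  78, 80])) (.leaf [62, 73, 78, 80])) (.leaf [2, 62, 78, 80])) (.leaf [2, 62, 78, 79])) (.leaf
  [62, 72, 78, 79])) (.leaf [62, 73, 75, 80])) (.leaf [62, 72, 73, 78])) (.leaf [2, 62, 75, 80]))
  (.leaf [61, 73, 75, 79])) (.leaf [62, 72, 73, 75])) (.leaf [61, 73, 75, 78])) (.leaf [72, 73,
  75, 78])) (.leaf [61, 72, 76, 77])) (.leaf [72, 74, 75, 78])) (.leaf [62, 72, 74, 75])) (.leaf
  [62, 72, 74, 76])) (.leaf [3, 62, 74, 76])) (.leaf [3, 74, 75, 78])) (.leaf [3, 62, 74, 75]))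
  (.leaf [61, 62, 72, 76])) (.leaf [61, 62, 72, 79])) (.leaf [61, 76, 77, 78])) (.leaf [2, 61, 75,
  79])) (.leaf [3, 61, 75, 78])) (.leaf [2, 3, 61, 75])) (.leaf [2, 3, 62, 75])) (.leaf [3, 61,
  76, 78])) (.leaf [3, 61, 62, 76])) (.leaf [2, 61, 62, 79]))) (.node [3, 61, 62, 88] [3, 61, 62]
  (.node [0, 61, 62, 85] [0, 61, 62] (.node [0, 61, 85, 87] [0, 61, 85] (.node [0, 3, 62, 84] [0,
  3, 62] (.node [0, 3, 61, 84] [0, 3] (.node [0, 61, 84, 87] [0, 61] (.node [3, 61, 84, 88] [3,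
  61] (.node [61, 85, 86, 87] [61, 85, 87] (.node [61, 62, 81, 88] [61, 62, 88] (.node [61, 62,
  81, 85] [61, 62] (.node [0, 62, 83, 84] [0, 62, 84] (.node [0, 83, 84, 87] [0, 84] (.node [0,
  62, 83, 85] [0, 62] (.node [62, 81, 83, 85] [62, 85] (.node [62, 81, 83, 84] [62, 83] (.node
  [81, 83, 84, 87] [83, 84] (.node [61, 81, 85, 86] [61, 85] (.node [81, 82, 84, 87] [81, 84, 87]
  (.node [61, 82, 84, 87] [84, 87] (.node [62, 81, 82, 84] [81, 84] (.node [61, 82, 84, 88] [61,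
  84] (.node [3, 62, 84, 89] [3, 62, 84] (.node [62, 81, 82, 87] [81, 82] (.node [62, 82, 84, 89]
  [62, 84] (.node [62, 81, 87, 88] [62, 81] (.node [3, 62, 87, 88] [62, 88] (.node [3, 62, 87, 89]
  [3, 62] (.node [62, 82, 87, 89] [62] (.node [61, 82, 87, 89] [82, 87] (.node [61, 86, 87, 89]
  [61, 87] (.node [61, 81, 86, 89] [61, 86] (.node [81, 83, 87, 88] [81, 87] (.node [0, 83, 87,
  88] [83, 87] (.node [3, 86, 87, 89] [87, 89] (.node [3, 85, 86, 87] [86, 87] (.node [61, 81, 83,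
  88] [81, 88] (.node [61, 81, 83, 89] [61, 81] (.node [3, 81, 85, 86] [85, 86] (.node [3, 85, 87,
  88] [3, 87] (.node [3, 81, 86, 89] [86] (.node [0, 85, 87, 88] [87] (.node [61, 82, 83, 89] [61,
  89] (.node [61, 82, 83, 88] [61] (.node [81, 83, 85, 89] [81, 83] (.node [3, 81, 85, 89] [81]
  (.node [82, 83, 85, 89] [83, 89] (.node [3, 84, 85, 89] [3, 89] (.node [3, 84, 85, 88] [3]
  (.node [82, 84, 85, 89] [89] (.node [82, 84, 85, 88] [84] (.node [0, 82, 85, 88] [85, 88] (.node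
  [0, 82, 83, 88] [88] (.leaf [0, 82, 83, 85]) (.leaf [0, 82, 83, 88])) (.leaf [0, 82, 85, 88]))
  (.leaf [82, 84, 85, 88])) (.leaf [82, 84, 85, 89])) (.leaf [3, 84, 85, 88])) (.leaf [3, 84, 85,
  89])) (.leaf [82, 83, 85, 89])) (.leaf [3, 81, 85, 89])) (.leaf [81, 83, 85, 89])) (.leaf [61,
  82, 83, 88])) (.leaf [61, 82, 83, 89])) (.leaf [0, 85, 87, 88])) (.leaf [3, 81, 86, 89])) (.leaf
  [3, 85, 87, 88])) (.leaf [3, 81, 85, 86])) (.leaf [61, 81, 83, 89])) (.leaf [61, 81, 83, 88]))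
  (.leaf [3, 85, 86, 87])) (.leaf [3, 86, 87, 89])) (.leaf [0, 83, 87, 88])) (.leaf [81, 83, 87,
  88])) (.leaf [61, 81, 86, 89])) (.leaf [61, 86, 87, 89])) (.leaf [61, 82, 87, 89])) (.leaf [62,
  82, 87, 89])) (.leaf [3, 62, 87, 89])) (.leaf [3, 62, 87, 88])) (.leaf [62, 81, 87, 88])) (.leaf
  [62, 82, 84, 89])) (.leaf [62, 81, 82, 87])) (.leaf [3, 62, 84, 89])) (.leaf [61, 82, 84, 88]))
  (.leaf [62, 81, 82, 84])) (.leaf [61, 82, 84, 87])) (.leaf [81, 82, 84, 87])) (.leaf [61, 81,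
  85, 86])) (.leaf [81, 83, 84, 87])) (.leaf [62, 81, 83, 84])) (.leaf [62, 81, 83, 85])) (.leaf
  [0, 62, 83, 85])) (.leaf [0, 83, 84, 87])) (.leaf [0, 62, 83, 84])) (.leaf [61, 62, 81, 85]))
  (.leaf [61, 62, 81, 88])) (.leaf [61, 85, 86, 87])) (.leaf [3, 61, 84, 88])) (.leaf [0, 61, 84,
  87])) (.leaf [0, 3, 61, 84])) (.leaf [0, 3, 62, 84])) (.leaf [0, 61, 85, 87])) (.leaf [0, 61,
  62, 85])) (.leaf [3, 61, 62, 88]))) (.node [0, 2, 61, 97] [0, 2, 61] (.node [2, 4, 61, 94] [2,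
  4, 61] (.node [4, 61, 94, 96] [4, 61, 94] (.node [0, 2, 4, 93] [0, 2, 4] (.node [0, 4, 61, 93]
  [0, 4] (.node [4, 61, 93, 96] [4, 61] (.node [0, 61, 93, 97] [0, 61] (.node [61, 94, 95, 96]
  [61, 94, 96] (.node [2, 61, 90, 97] [2, 61, 97] (.node [2, 61, 90, 94] [2, 61] (.node [2, 4, 92,
  93] [2, 4, 93] (.node [4, 92, 93, 96] [4, 93] (.node [2, 4, 92, 94] [2, 4] (.node [2, 90, 92,
  94] [2, 94] (.node [2, 90, 92, 93] [2, 92] (.node [90, 92, 93, 96] [92, 93] (.node [61, 90, 94,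
  95] [61, 94] (.node [90, 91, 93, 96] [90, 93, 96] (.node [61, 91, 93, 96] [93, 96] (.node [2,
  90, 91, 93] [90, 93] (.node [61, 91, 93, 97] [61, 93] (.node [0, 2, 93, 98] [0, 2, 93] (.node
  [2, 90, 91, 96] [90, 91] (.node [2, 91, 93, 98] [2, 93] (.node [2, 90, 96, 97] [2, 90] (.node
  [0, 2, 96, 97] [2, 97] (.node [0, 2, 96, 98] [0, 2] (.node [2, 91, 96, 98] [2] (.node [61, 91,
  96, 98] [91, 96] (.node [61, 95, 96, 98] [61, 96] (.node [61, 90, 95, 98] [61, 95] (.node [90,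
  92, 96, 97] [90, 96] (.node [4, 92, 96, 97] [92, 96] (.node [0, 95, 96, 98] [96, 98] (.node [0,
  94, 95, 96] [95, 96] (.node [61, 90, 92, 97] [90, 97] (.node [61, 90, 92, 98] [61, 90] (.node
  [0, 90, 94, 95] [94, 95] (.node [0, 94, 96, 97] [0, 96] (.node [0, 90, 95, 98] [95] (.node [4,
  94, 96, 97] [96] (.node [61, 91, 92, 98] [61, 98] (.node [61, 91, 92, 97] [61] (.node [90, 92,
  94, 98] [90, 92] (.node [0, 90, 94, 98] [90] (.node [91, 92, 94, 98] [92, 98] (.node [0, 93, 94,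
  98] [0, 98] (.node [0, 93, 94, 97] [0] (.node [91, 93, 94, 98] [98] (.node [91, 93, 94, 97] [93]
  (.node [4, 91, 94, 97] [94, 97] (.node [4, 91, 92, 97] [97] (.leaf [4, 91, 92, 94]) (.leaf [4,
  91, 92, 97])) (.leaf [4, 91, 94, 97])) (.leaf [91, 93, 94, 97])) (.leaf [91, 93, 94, 98]))
  (.leaf [0, 93, 94, 97])) (.leaf [0, 93, 94, 98])) (.leaf [91, 92, 94, 98])) (.leaf [0, 90, 94,
  98])) (.leaf [90, 92, 94, 98])) (.leaf [61, 91, 92, 97])) (.leaf [61, 91, 92, 98])) (.leaf [4,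
  94, 96, 97])) (.leaf [0, 90, 95, 98])) (.leaf [0, 94, 96, 97])) (.leaf [0, 90, 94, 95])) (.leaf
  [61, 90, 92, 98])) (.leaf [61, 90, 92, 97])) (.leaf [0, 94, 95, 96])) (.leaf [0, 95, 96, 98]))
  (.leaf [4, 92, 96, 97])) (.leaf [90, 92, 96, 97])) (.leaf [61, 90, 95, 98])) (.leaf [61, 95, 96,
  98])) (.leaf [61, 91, 96, 98])) (.leaf [2, 91, 96, 98])) (.leaf [0, 2, 96, 98])) (.leaf [0, 2,
  96, 97])) (.leaf [2, 90, 96, 97])) (.leaf [2, 91, 93, 98])) (.leaf [2, 90, 91, 96])) (.leaf [0,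
  2, 93, 98])) (.leaf [61, 91, 93, 97])) (.leaf [2, 90, 91, 93])) (.leaf [61, 91, 93, 96])) (.leaf
  [90, 91, 93, 96])) (.leaf [61, 90, 94, 95])) (.leaf [90, 92, 93, 96])) (.leaf [2, 90, 92, 93]))
  (.leaf [2, 90, 92, 94])) (.leaf [2, 4, 92, 94])) (.leaf [4, 92, 93, 96])) (.leaf [2, 4, 92,
  93])) (.leaf [2, 61, 90, 94])) (.leaf [2, 61, 90, 97])) (.leaf [61, 94, 95, 96])) (.leaf [0, 61,
  93, 97])) (.leaf [4, 61, 93, 96])) (.leaf [0, 4, 61, 93])) (.leaf [0, 2, 4, 93])) (.leaf [4, 61,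
  94, 96])) (.leaf [2, 4, 61, 94])) (.leaf [0, 2, 61, 97]))) (.node [0, 3, 61, 106] [0, 3, 61]
  (.node [0, 4, 61, 103] [0, 4, 61] (.node [4, 61, 103, 105] [4, 61, 103] (.node [0, 3, 4, 102]
  [0, 3, 4] (.node [3, 4, 61, 102] [3, 4] (.node [4, 61, 102, 105] [4, 61] (.node [3, 61, 102,
  106] [3, 61] (.node [61, 103, 104, 105] [61, 103, 105] (.node [0, 61, 99, 106] [0, 61, 106]
  (.node [0, 61, 99, 103] [0, 61] (.node [0, 4, 101, 102] [0, 4, 102] (.node [4, 101, 102, 105]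
  [4, 102] (.node [0, 4, 101, 103] [0, 4] (.node [0, 99, 101, 103] [0, 103] (.node [0, 99, 101,
  102] [0, 101] (.node [99, 101, 102, 105] [101, 102] (.node [61, 99, 103, 104] [61, 103] (.node
  [99, 100, 102, 105] [99, 102, 105] (.node [61, 100, 102, 105] [102, 105] (.node [0, 99, 100,
  102] [99, 102] (.node [61, 100, 102, 106] [61, 102] (.node [0, 3, 102, 107] [0, 3, 102] (.node
  [0, 99, 100, 105] [99, 100] (.node [0, 100, 102, 107] [0, 102] (.node [0, 99, 105, 106] [0, 99]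
  (.node [0, 3, 105, 106] [0, 106] (.node [0, 3, 105, 107] [0, 3] (.node [0, 100, 105, 107] [0]
  (.node [61, 100, 105, 107] [100, 105] (.node [61, 104, 105, 107] [61, 105] (.node [61, 99, 104,
  107] [61, 104] (.node [99, 101, 105, 106] [99, 105] (.node [4, 101, 105, 106] [101, 105] (.node
  [3, 104, 105, 107] [105, 107] (.node [3, 103, 104, 105] [104, 105] (.node [61, 99, 101, 106]
  [99, 106] (.node [61, 99, 101, 107] [61, 99] (.node [3, 99, 103, 104] [103, 104] (.node [3, 103,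
  105, 106] [3, 105] (.node [3, 99, 104, 107] [104] (.node [4, 103, 105, 106] [105] (.node [61,
  100, 101, 107] [61, 107] (.node [61, 100, 101, 106] [61] (.node [99, 101, 103, 107] [99, 101]
  (.node [3, 99, 103, 107] [99] (.node [100, 101, 103, 107] [101, 107] (.node [3, 102, 103, 107]
  [3, 107] (.node [3, 102, 103, 106] [3] (.node [100, 102, 103, 107] [107] (.node [100, 102, 103,
  106] [102] (.node [4, 100, 103, 106] [103, 106] (.node [4, 100, 101, 106] [106] (.leaf [4, 100,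
  101, 103]) (.leaf [4, 100, 101, 106])) (.leaf [4, 100, 103, 106])) (.leaf [100, 102, 103, 106]))
  (.leaf [100, 102, 103, 107])) (.leaf [3, 102, 103, 106])) (.leaf [3, 102, 103, 107])) (.leaf
  [100, 101, 103, 107])) (.leaf [3, 99, 103, 107])) (.leaf [99, 101, 103, 107])) (.leaf [61, 100,
  101, 106])) (.leaf [61, 100, 101, 107])) (.leaf [4, 103, 105, 106])) (.leaf [3, 99, 104, 107]))
  (.leaf [3, 103, 105, 106])) (.leaf [3, 99, 103, 104])) (.leaf [61, 99, 101, 107])) (.leaf [61,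
  99, 101, 106])) (.leaf [3, 103, 104, 105])) (.leaf [3, 104, 105, 107])) (.leaf [4, 101, 105,
  106])) (.leaf [99, 101, 105, 106])) (.leaf [61, 99, 104, 107])) (.leaf [61, 104, 105, 107]))
  (.leaf [61, 100, 105, 107])) (.leaf [0, 100, 105, 107])) (.leaf [0, 3, 105, 107])) (.leaf [0, 3,
  105, 106])) (.leaf [0, 99, 105, 106])) (.leaf [0, 100, 102, 107])) (.leaf [0, 99, 100, 105]))
  (.leaf [0, 3, 102, 107])) (.leaf [61, 100, 102, 106])) (.leaf [0, 99, 100, 102])) (.leaf [61,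
  100, 102, 105])) (.leaf [99, 100, 102, 105])) (.leaf [61, 99, 103, 104])) (.leaf [99, 101, 102,
  105])) (.leaf [0, 99, 101, 102])) (.leaf [0, 99, 101, 103])) (.leaf [0, 4, 101, 103])) (.leaf
  [4, 101, 102, 105])) (.leaf [0, 4, 101, 102])) (.leaf [0, 61, 99, 103])) (.leaf [0, 61, 99,
  106])) (.leaf [61, 103, 104, 105])) (.leaf [3, 61, 102, 106])) (.leaf [4, 61, 102, 105])) (.leaf
  [3, 4, 61, 102])) (.leaf [0, 3, 4, 102])) (.leaf [4, 61, 103, 105])) (.leaf [0, 4, 61, 103]))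
  (.leaf [0, 3, 61, 106]))) (.node [2, 3, 61, 115] [2, 3, 61] (.node [3, 4, 61, 112] [3, 4, 61]
  (.node [4, 61, 112, 114] [4, 61, 112] (.node [2, 3, 4, 111] [2, 3, 4] (.node [2, 4, 61, 111] [2,
  4] (.node [4, 61, 111, 114] [4, 61] (.node [2, 61, 111, 115] [2, 61] (.node [61, 112, 113, 114]
  [61, 112, 114] (.node [3, 61, 108, 115] [3, 61, 115] (.node [3, 61, 108, 112] [3, 61] (.node [3,
  4, 110, 111] [3, 4, 111] (.node [4, 110, 111, 114] [4, 111] (.node [3, 4, 110, 112] [3, 4]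
  (.node [3, 108, 110, 112] [3, 112] (.node [3, 108, 110, 111] [3, 110] (.node [108, 110, 111,
  114] [110, 111] (.node [61, 108, 112, 113] [61, 112] (.node [108, 109, 111, 114] [108, 111, 114]
  (.node [61, 109, 111, 114] [111, 114] (.node [3, 108, 109, 111] [108, 111] (.node [61, 109, 111,
  115] [61, 111] (.node [2, 3, 111, 116] [2, 3, 111] (.node [3, 108, 109, 114] [108, 109] (.node
  [3, 109, 111, 116] [3, 111] (.node [3, 108, 114, 115] [3, 108] (.node [2, 3, 114, 115] [3, 115]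
  (.node [2, 3, 114, 116] [2, 3] (.node [3, 109, 114, 116] [3] (.node [61, 109, 114, 116] [109,
  114] (.node [61, 113, 114, 116] [61, 114] (.node [61, 108, 113, 116] [61, 113] (.node [108, 110,
  114, 115] [108, 114] (.node [4, 110, 114, 115] [110, 114] (.node [2, 113, 114, 116] [114, 116]
  (.node [2, 112, 113, 114] [113, 114] (.node [61, 108, 110, 115] [108, 115] (.node [61, 108, 110,
  116] [61, 108] (.node [2, 108, 112, 113] [112, 113] (.node [2, 112, 114, 115] [2, 114] (.node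
  [2, 108, 113, 116] [113] (.node [4, 112, 114, 115] [114] (.node [61, 109, 110, 116] [61, 116]
  (.node [61, 109, 110, 115] [61] (.node [108, 110, 112, 116] [108, 110] (.node [2, 108, 112, 116]
  [108] (.node [109, 110, 112, 116] [110, 116] (.node [2, 111, 112, 116] [2, 116] (.node [2, 111,
  112, 115] [2] (.node [109, 111, 112, 116] [116] (.node [109, 111, 112, 115] [111] (.node [4,
  109, 112, 115] [112, 115] (.node [4, 109, 110, 115] [115] (.leaf [4, 109, 110, 112]) (.leaf [4,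
  109, 110, 115])) (.leaf [4, 109, 112, 115])) (.leaf [109, 111, 112, 115])) (.leaf [109, 111,
  112, 116])) (.leaf [2, 111, 112, 115])) (.leaf [2, 111, 112, 116])) (.leaf [109, 110, 112,
  116])) (.leaf [2, 108, 112, 116])) (.leaf [108, 110, 112, 116])) (.leaf [61, 109, 110, 115]))
  (.leaf [61, 109, 110, 116])) (.leaf [4, 112, 114, 115])) (.leaf [2, 108, 113, 116])) (.leaf [2,
  112, 114, 115])) (.leaf [2, 108, 112, 113])) (.leaf [61, 108, 110, 116])) (.leaf [61, 108, 110,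
  115])) (.leaf [2, 112, 113, 114])) (.leaf [2, 113, 114, 116])) (.leaf [4, 110, 114, 115]))
  (.leaf [108, 110, 114, 115])) (.leaf [61, 108, 113, 116])) (.leaf [61, 113, 114, 116])) (.leaf
  [61, 109, 114, 116])) (.leaf [3, 109, 114, 116])) (.leaf [2, 3, 114, 116])) (.leaf [2, 3, 114,
  115])) (.leaf [3, 108, 114, 115])) (.leaf [3, 109, 111, 116])) (.leaf [3, 108, 109, 114]))
  (.leaf [2, 3, 111, 116])) (.leaf [61, 109, 111, 115])) (.leaf [3, 108, 109, 111])) (.leaf [61,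
  109, 111, 114])) (.leaf [108, 109, 111, 114])) (.leaf [61, 108, 112, 113])) (.leaf [108, 110,
  111, 114])) (.leaf [3, 108, 110, 111])) (.leaf [3, 108, 110, 112])) (.leaf [3, 4, 110, 112]))
  (.leaf [4, 110, 111, 114])) (.leaf [3, 4, 110, 111])) (.leaf [3, 61, 108, 112])) (.leaf [3, 61,
  108, 115])) (.leaf [61, 112, 113, 114])) (.leaf [2, 61, 111, 115])) (.leaf [4, 61, 111, 114]))
  (.leaf [2, 4, 61, 111])) (.leaf [2, 3, 4, 111])) (.leaf [4, 61, 112, 114])) (.leaf [3, 4, 61,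
  112])) (.leaf [2, 3, 61, 115])))

noncomputable def ct2 : CT :=
  (.node [1, 3, 4, 117] [1, 3, 4] (.node [0, 3, 4, 117] [3, 4] (.node [0, 1, 4, 117] [4] (.node
  [0, 3, 117, 118] [0, 3, 117] (.node [1, 3, 117, 118] [3, 117] (.node [0, 1, 117, 118] [117]
  (.leaf [0, 1, 3, 118]) (.node [0, 117, 118, 126] [0, 117, 118] (.node [1, 117, 118, 123] [1,
  117, 118] (.node [1, 117, 123, 125] [1, 117, 123] (.node [0, 1, 118, 122] [0, 1, 118] (.node [0,
  1, 117, 122] [0, 1] (.node [1, 117, 122, 125] [1, 117] (.node [0, 117, 122, 126] [0, 117] (.node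
  [117, 123, 124, 125] [117, 123, 125] (.node [117, 118, 119, 126] [117, 118, 126] (.node [117,
  118, 119, 123] [117, 118] (.node [1, 118, 121, 122] [1, 118, 122] (.node [1, 121, 122, 125] [1,
  122] (.node [1, 118, 121, 123] [1, 118] (.node [118, 119, 121, 123] [118, 123] (.node [118, 119,
  121, 122] [118, 121] (.node [119, 121, 122, 125] [121, 122] (.node [117, 119, 123, 124] [117,
  123] (.node [119, 120, 122, 125] [119, 122, 125] (.node [117, 120, 122, 125] [122, 125] (.node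
  [118, 119, 120, 122] [119, 122] (.node [117, 120, 122, 126] [117, 122] (.node [0, 118, 122, 127]
  [0, 118, 122] (.node [118, 119, 120, 125] [119, 120] (.node [118, 120, 122, 127] [118, 122]
  (.node [118, 119, 125, 126] [118, 119] (.node [0, 118, 125, 126] [118, 126] (.node [0, 118, 125,
  127] [0, 118] (.node [118, 120, 125, 127] [118] (.node [117, 120, 125, 127] [120, 125] (.node
  [117, 124, 125, 127] [117, 125] (.node [117, 119, 124, 127] [117, 124] (.node [119, 121, 125,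
  126] [119, 125] (.node [1, 121, 125, 126] [121, 125] (.node [0, 124, 125, 127] [125, 127] (.node
  [0, 123, 124, 125] [124, 125] (.node [117, 119, 121, 126] [119, 126] (.node [117, 119, 121, 127]
  [117, 119] (.node [0, 119, 123, 124] [123, 124] (.node [0, 123, 125, 126] [0, 125] (.node [0,
  119, 124, 127] [124] (.node [1, 123, 125, 126] [125] (.node [117, 120, 121, 127] [117, 127]
  (.node [117, 120, 121, 126] [117] (.node [119, 121, 123, 127] [119, 121] (.node [0, 119, 123,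
  127] [119] (.node [120, 121, 123, 127] [121, 127] (.node [0, 122, 123, 127] [0, 127] (.node [0,
  122, 123, 126] [0] (.node [120, 122, 123, 127] [127] (.node [120, 122, 123, 126] [122] (.node
  [1, 120, 123, 126] [123, 126] (.node [1, 120, 121, 126] [126] (.leaf [1, 120, 121, 123]) (.leaf
  [1, 120, 121, 126])) (.leaf [1, 120, 123, 126])) (.leaf [120, 122, 123, 126])) (.leaf [120, 122,
  123, 127])) (.leaf [0, 122, 123, 126])) (.leaf [0, 122, 123, 127])) (.leaf [120, 121, 123,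
  127])) (.leaf [0, 119, 123, 127])) (.leaf [119, 121, 123, 127])) (.leaf [117, 120, 121, 126]))
  (.leaf [117, 120, 121, 127])) (.leaf [1, 123, 125, 126])) (.leaf [0, 119, 124, 127])) (.leaf [0,
  123, 125, 126])) (.leaf [0, 119, 123, 124])) (.leaf [117, 119, 121, 127])) (.leaf [117, 119,
  121, 126])) (.leaf [0, 123, 124, 125])) (.leaf [0, 124, 125, 127])) (.leaf [1, 121, 125, 126]))
  (.leaf [119, 121, 125, 126])) (.leaf [117, 119, 124, 127])) (.leaf [117, 124, 125, 127])) (.leaf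
  [117, 120, 125, 127])) (.leaf [118, 120, 125, 127])) (.leaf [0, 118, 125, 127])) (.leaf [0, 118,
  125, 126])) (.leaf [118, 119, 125, 126])) (.leaf [118, 120, 122, 127])) (.leaf [118, 119, 120,
  125])) (.leaf [0, 118, 122, 127])) (.leaf [117, 120, 122, 126])) (.leaf [118, 119, 120, 122]))
  (.leaf [117, 120, 122, 125])) (.leaf [119, 120, 122, 125])) (.leaf [117, 119, 123, 124])) (.leaf
  [119, 121, 122, 125])) (.leaf [118, 119, 121, 122])) (.leaf [118, 119, 121, 123])) (.leaf [1,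
  118, 121, 123])) (.leaf [1, 121, 122, 125])) (.leaf [1, 118, 121, 122])) (.leaf [117, 118, 119,
  123])) (.leaf [117, 118, 119, 126])) (.leaf [117, 123, 124, 125])) (.leaf [0, 117, 122, 126]))
  (.leaf [1, 117, 122, 125])) (.leaf [0, 1, 117, 122])) (.leaf [0, 1, 118, 122])) (.leaf [1, 117,
  123, 125])) (.leaf [1, 117, 118, 123])) (.leaf [0, 117, 118, 126]))) (.node [1, 117, 118, 135]
  [1, 117, 118] (.node [3, 117, 118, 132] [3, 117, 118] (.node [3, 117, 132, 134] [3, 117, 132]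
  (.node [1, 3, 118, 131] [1, 3, 118] (.node [1, 3, 117, 131] [1, 3] (.node [3, 117, 131, 134] [3,
  117] (.node [1, 117, 131, 135] [1, 117] (.node [117, 132, 133, 134] [117, 132, 134] (.node [117,
  118, 128, 135] [117, 118, 135] (.node [117, 118, 128, 132] [117, 118] (.node [3, 118, 130, 131]
  [3, 118, 131] (.node [3, 130, 131, 134] [3, 131] (.node [3, 118, 130, 132] [3, 118] (.node [118,
  128, 130, 132] [118, 132] (.node [118, 128, 130, 131] [118, 130] (.node [128, 130, 131, 134]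
  [130, 131] (.node [117, 128, 132, 133] [117, 132] (.node [128, 129, 131, 134] [128, 131, 134]
  (.node [117, 129, 131, 134] [131, 134] (.node [118, 128, 129, 131] [128, 131] (.node [117, 129,
  131, 135] [117, 131] (.node [1, 118, 131, 136] [1, 118, 131] (.node [118, 128, 129, 134] [128,
  129] (.node [118, 129, 131, 136] [118, 131] (.node [118, 128, 134, 135] [118, 128] (.node [1,
  118, 134, 135] [118, 135] (.node [1, 118, 134, 136] [1, 118] (.node [118, 129, 134, 136] [118]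
  (.node [117, 129, 134, 136] [129, 134] (.node [117, 133, 134, 136] [117, 134] (.node [117, 128,
  133, 136] [117, 133] (.node [128, 130, 134, 135] [128, 134] (.node [3, 130, 134, 135] [130, 134]
  (.node [1, 133, 134, 136] [134, 136] (.node [1, 132, 133, 134] [133, 134] (.node [117, 128, 130,
  135] [128, 135] (.node [117, 128, 130, 136] [117, 128] (.node [1, 128, 132, 133] [132, 133]
  (.node [1, 132, 134, 135] [1, 134] (.node [1, 128, 133, 136] [133] (.node [3, 132, 134, 135]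
  [134] (.node [117, 129, 130, 136] [117, 136] (.node [117, 129, 130, 135] [117] (.node [128, 130,
  132, 136] [128, 130] (.node [1, 128, 132, 136] [128] (.node [129, 130, 132, 136] [130, 136]
  (.node [1, 131, 132, 136] [1, 136] (.node [1, 131, 132, 135] [1] (.node [129, 131, 132, 136]
  [136] (.node [129, 131, 132, 135] [131] (.node [3, 129, 132, 135] [132, 135] (.node [3, 129,
  130, 135] [135] (.leaf [3, 129, 130, 132]) (.leaf [3, 129, 130, 135])) (.leaf [3, 129, 132,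
  135])) (.leaf [129, 131, 132, 135])) (.leaf [129, 131, 132, 136])) (.leaf [1, 131, 132, 135]))
  (.leaf [1, 131, 132, 136])) (.leaf [129, 130, 132, 136])) (.leaf [1, 128, 132, 136])) (.leaf
  [128, 130, 132, 136])) (.leaf [117, 129, 130, 135])) (.leaf [117, 129, 130, 136])) (.leaf [3,
  132, 134, 135])) (.leaf [1, 128, 133, 136])) (.leaf [1, 132, 134, 135])) (.leaf [1, 128, 132,
  133])) (.leaf [117, 128, 130, 136])) (.leaf [117, 128, 130, 135])) (.leaf [1, 132, 133, 134]))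
  (.leaf [1, 133, 134, 136])) (.leaf [3, 130, 134, 135])) (.leaf [128, 130, 134, 135])) (.leaf
  [117, 128, 133, 136])) (.leaf [117, 133, 134, 136])) (.leaf [117, 129, 134, 136])) (.leaf [118,
  129, 134, 136])) (.leaf [1, 118, 134, 136])) (.leaf [1, 118, 134, 135])) (.leaf [118, 128, 134,
  135])) (.leaf [118, 129, 131, 136])) (.leaf [118, 128, 129, 134])) (.leaf [1, 118, 131, 136]))
  (.leaf [117, 129, 131, 135])) (.leaf [118, 128, 129, 131])) (.leaf [117, 129, 131, 134])) (.leaf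
  [128, 129, 131, 134])) (.leaf [117, 128, 132, 133])) (.leaf [128, 130, 131, 134])) (.leaf [118,
  128, 130, 131])) (.leaf [118, 128, 130, 132])) (.leaf [3, 118, 130, 132])) (.leaf [3, 130, 131,
  134])) (.leaf [3, 118, 130, 131])) (.leaf [117, 118, 128, 132])) (.leaf [117, 118, 128, 135]))
  (.leaf [117, 132, 133, 134])) (.leaf [1, 117, 131, 135])) (.leaf [3, 117, 131, 134])) (.leaf [1,
  3, 117, 131])) (.leaf [1, 3, 118, 131])) (.leaf [3, 117, 132, 134])) (.leaf [3, 117, 118, 132]))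
  (.leaf [1, 117, 118, 135]))) (.node [3, 117, 118, 144] [3, 117, 118] (.node [0, 117, 118, 141]
  [0, 117, 118] (.node [0, 117, 141, 143] [0, 117, 141] (.node [0, 3, 118, 140] [0, 3, 118] (.node
  [0, 3, 117, 140] [0, 3] (.node [0, 117, 140, 143] [0, 117] (.node [3, 117, 140, 144] [3, 117]
  (.node [117, 141, 142, 143] [117, 141, 143] (.node [117, 118, 137, 144] [117, 118, 144] (.node
  [117, 118, 137, 141] [117, 118] (.node [0, 118, 139, 140] [0, 118, 140] (.node [0, 139, 140,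
  143] [0, 140] (.node [0, 118, 139, 141] [0, 118] (.node [118, 137, 139, 141] [118, 141] (.node
  [118, 137, 139, 140] [118, 139] (.node [137, 139, 140, 143] [139, 140] (.node [117, 137, 141,
  142] [117, 141] (.node [137, 138, 140, 143] [137, 140, 143] (.node [117, 138, 140, 143] [140,
  143] (.node [118, 137, 138, 140] [137, 140] (.node [117, 138, 140, 144] [117, 140] (.node [3,
  118, 140, 145] [3, 118, 140] (.node [118, 137, 138, 143] [137, 138] (.node [118, 138, 140, 145]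
  [118, 140] (.node [118, 137, 143, 144] [118, 137] (.node [3, 118, 143, 144] [118, 144] (.node
  [3, 118, 143, 145] [3, 118] (.node [118, 138, 143, 145] [118] (.node [117, 138, 143, 145] [138,
  143] (.node [117, 142, 143, 145] [117, 143] (.node [117, 137, 142, 145] [117, 142] (.node [137,
  139, 143, 144] [137, 143] (.node [0, 139, 143, 144] [139, 143] (.node [3, 142, 143, 145] [143,
  145] (.node [3, 141, 142, 143] [142, 143] (.node [117, 137, 139, 144] [137, 144] (.node [117,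
  137, 139, 145] [117, 137] (.node [3, 137, 141, 142] [141, 142] (.node [3, 141, 143, 144] [3,
  143] (.node [3, 137, 142, 145] [142] (.node [0, 141, 143, 144] [143] (.node [117, 138, 139, 145]
  [117, 145] (.node [117, 138, 139, 144] [117] (.node [137, 139, 141, 145] [137, 139] (.node [3,
  137, 141, 145] [137] (.node [138, 139, 141, 145] [139, 145] (.node [3, 140, 141, 145] [3, 145]
  (.node [3, 140, 141, 144] [3] (.node [138, 140, 141, 145] [145] (.node [138, 140, 141, 144]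
  [140] (.node [0, 138, 141, 144] [141, 144] (.node [0, 138, 139, 144] [144] (.leaf [0, 138, 139,
  141]) (.leaf [0, 138, 139, 144])) (.leaf [0, 138, 141, 144])) (.leaf [138, 140, 141, 144]))
  (.leaf [138, 140, 141, 145])) (.leaf [3, 140, 141, 144])) (.leaf [3, 140, 141, 145])) (.leaf
  [138, 139, 141, 145])) (.leaf [3, 137, 141, 145])) (.leaf [137, 139, 141, 145])) (.leaf [117,
  138, 139, 144])) (.leaf [117, 138, 139, 145])) (.leaf [0, 141, 143, 144])) (.leaf [3, 137, 142,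
  145])) (.leaf [3, 141, 143, 144])) (.leaf [3, 137, 141, 142])) (.leaf [117, 137, 139, 145]))
  (.leaf [117, 137, 139, 144])) (.leaf [3, 141, 142, 143])) (.leaf [3, 142, 143, 145])) (.leaf [0,
  139, 143, 144])) (.leaf [137, 139, 143, 144])) (.leaf [117, 137, 142, 145])) (.leaf [117, 142,
  143, 145])) (.leaf [117, 138, 143, 145])) (.leaf [118, 138, 143, 145])) (.leaf [3, 118, 143,
  145])) (.leaf [3, 118, 143, 144])) (.leaf [118, 137, 143, 144])) (.leaf [118, 138, 140, 145]))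
  (.leaf [118, 137, 138, 143])) (.leaf [3, 118, 140, 145])) (.leaf [117, 138, 140, 144])) (.leaf
  [118, 137, 138, 140])) (.leaf [117, 138, 140, 143])) (.leaf [137, 138, 140, 143])) (.leaf [117,
  137, 141, 142])) (.leaf [137, 139, 140, 143])) (.leaf [118, 137, 139, 140])) (.leaf [118, 137,
  139, 141])) (.leaf [0, 118, 139, 141])) (.leaf [0, 139, 140, 143])) (.leaf [0, 118, 139, 140]))
  (.leaf [117, 118, 137, 141])) (.leaf [117, 118, 137, 144])) (.leaf [117, 141, 142, 143])) (.leaf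
  [3, 117, 140, 144])) (.leaf [0, 117, 140, 143])) (.leaf [0, 3, 117, 140])) (.leaf [0, 3, 118,
  140])) (.leaf [0, 117, 141, 143])) (.leaf [0, 117, 118, 141])) (.leaf [3, 117, 118, 144])))
  (.node [0, 1, 117, 153] [0, 1, 117] (.node [1, 4, 117, 150] [1, 4, 117] (.node [4, 117, 150,
  152] [4, 117, 150] (.node [0, 1, 4, 149] [0, 1, 4] (.node [0, 4, 117, 149] [0, 4] (.node [4,
  117, 149, 152] [4, 117] (.node [0, 117, 149, 153] [0, 117] (.node [117, 150, 151, 152] [117,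
  150, 152] (.node [1, 117, 146, 153] [1, 117, 153] (.node [1, 117, 146, 150] [1, 117] (.node [1,
  4, 148, 149] [1, 4, 149] (.node [4, 148, 149, 152] [4, 149] (.node [1, 4, 148, 150] [1, 4]
  (.node [1, 146, 148, 150] [1, 150] (.node [1, 146, 148, 149] [1, 148] (.node [146, 148, 149,
  152] [148, 149] (.node [117, 146, 150, 151] [117, 150] (.node [146, 147, 149, 152] [146, 149,
  152] (.node [117, 147, 149, 152] [149, 152] (.node [1, 146, 147, 149] [146, 149] (.node [117,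
  147, 149, 153] [117, 149] (.node [0, 1, 149, 154] [0, 1, 149] (.node [1, 146, 147, 152] [146,
  147] (.node [1, 147, 149, 154] [1, 149] (.node [1, 146, 152, 153] [1, 146] (.node [0, 1, 152,
  153] [1, 153] (.node [0, 1, 152, 154] [0, 1] (.node [1, 147, 152, 154] [1] (.node [117, 147,
  152, 154] [147, 152] (.node [117, 151, 152, 154] [117, 152] (.node [117, 146, 151, 154] [117,
  151] (.node [146, 148, 152, 153] [146, 152] (.node [4, 148, 152, 153] [148, 152] (.node [0, 151,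
  152, 154] [152, 154] (.node [0, 150, 151, 152] [151, 152] (.node [117, 146, 148, 153] [146, 153]
  (.node [117, 146, 148, 154] [117, 146] (.node [0, 146, 150, 151] [150, 151] (.node [0, 150, 152,
  153] [0, 152] (.node [0, 146, 151, 154] [151] (.node [4, 150, 152, 153] [152] (.node [117, 147,
  148, 154] [117, 154] (.node [117, 147, 148, 153] [117] (.node [146, 148, 150, 154] [146, 148]
  (.node [0, 146, 150, 154] [146] (.node [147, 148, 150, 154] [148, 154] (.node [0, 149, 150, 154]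
  [0, 154] (.node [0, 149, 150, 153] [0] (.node [147, 149, 150, 154] [154] (.node [147, 149, 150,
  153] [149] (.node [4, 147, 150, 153] [150, 153] (.node [4, 147, 148, 153] [153] (.leaf [4, 147,
  148, 150]) (.leaf [4, 147, 148, 153])) (.leaf [4, 147, 150, 153])) (.leaf [147, 149, 150, 153]))
  (.leaf [147, 149, 150, 154])) (.leaf [0, 149, 150, 153])) (.leaf [0, 149, 150, 154])) (.leaf
  [147, 148, 150, 154])) (.leaf [0, 146, 150, 154])) (.leaf [146, 148, 150, 154])) (.leaf [117,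
  147, 148, 153])) (.leaf [117, 147, 148, 154])) (.leaf [4, 150, 152, 153])) (.leaf [0, 146, 151,
  154])) (.leaf [0, 150, 152, 153])) (.leaf [0, 146, 150, 151])) (.leaf [117, 146, 148, 154]))
  (.leaf [117, 146, 148, 153])) (.leaf [0, 150, 151, 152])) (.leaf [0, 151, 152, 154])) (.leaf [4,
  148, 152, 153])) (.leaf [146, 148, 152, 153])) (.leaf [117, 146, 151, 154])) (.leaf [117, 151,
  152, 154])) (.leaf [117, 147, 152, 154])) (.leaf [1, 147, 152, 154])) (.leaf [0, 1, 152, 154]))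
  (.leaf [0, 1, 152, 153])) (.leaf [1, 146, 152, 153])) (.leaf [1, 147, 149, 154])) (.leaf [1,
  146, 147, 152])) (.leaf [0, 1, 149, 154])) (.leaf [117, 147, 149, 153])) (.leaf [1, 146, 147,
  149])) (.leaf [117, 147, 149, 152])) (.leaf [146, 147, 149, 152])) (.leaf [117, 146, 150, 151]))
  (.leaf [146, 148, 149, 152])) (.leaf [1, 146, 148, 149])) (.leaf [1, 146, 148, 150])) (.leaf [1,
  4, 148, 150])) (.leaf [4, 148, 149, 152])) (.leaf [1, 4, 148, 149])) (.leaf [1, 117, 146, 150]))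
  (.leaf [1, 117, 146, 153])) (.leaf [117, 150, 151, 152])) (.leaf [0, 117, 149, 153])) (.leaf [4,
  117, 149, 152])) (.leaf [0, 4, 117, 149])) (.leaf [0, 1, 4, 149])) (.leaf [4, 117, 150, 152]))
  (.leaf [1, 4, 117, 150])) (.leaf [0, 1, 117, 153]))) (.node [0, 3, 117, 162] [0, 3, 117] (.node
  [0, 4, 117, 159] [0, 4, 117] (.node [4, 117, 159, 161] [4, 117, 159] (.node [0, 3, 4, 158] [0,
  3, 4] (.node [3, 4, 117, 158] [3, 4] (.node [4, 117, 158, 161] [4, 117] (.node [3, 117, 158,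
  162] [3, 117] (.node [117, 159, 160, 161] [117, 159, 161] (.node [0, 117, 155, 162] [0, 117,
  162] (.node [0, 117, 155, 159] [0, 117] (.node [0, 4, 157, 158] [0, 4, 158] (.node [4, 157, 158,
  161] [4, 158] (.node [0, 4, 157, 159] [0, 4] (.node [0, 155, 157, 159] [0, 159] (.node [0, 155,
  157, 158] [0, 157] (.node [155, 157, 158, 161] [157, 158] (.node [117, 155, 159, 160] [117, 159]
  (.node [155, 156, 158, 161] [155, 158, 161] (.node [117, 156, 158, 161] [158, 161] (.node [0,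
  155, 156, 158] [155, 158] (.node [117, 156, 158, 162] [117, 158] (.node [0, 3, 158, 163] [0, 3,
  158] (.node [0, 155, 156, 161] [155, 156] (.node [0, 156, 158, 163] [0, 158] (.node [0, 155,
  161, 162] [0, 155] (.node [0, 3, 161, 162] [0, 162] (.node [0, 3, 161, 163] [0, 3] (.node [0,
  156, 161, 163] [0] (.node [117, 156, 161, 163] [156, 161] (.node [117, 160, 161, 163] [117, 161]
  (.node [117, 155, 160, 163] [117, 160] (.node [155, 157, 161, 162] [155, 161] (.node [4, 157,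
  161, 162] [157, 161] (.node [3, 160, 161, 163] [161, 163] (.node [3, 159, 160, 161] [160, 161]
  (.node [117, 155, 157, 162] [155, 162] (.node [117, 155, 157, 163] [117, 155] (.node [3, 155,
  159, 160] [159, 160] (.node [3, 159, 161, 162] [3, 161] (.node [3, 155, 160, 163] [160] (.node
  [4, 159, 161, 162] [161] (.node [117, 156, 157, 163] [117, 163] (.node [117, 156, 157, 162]
  [117] (.node [155, 157, 159, 163] [155, 157] (.node [3, 155, 159, 163] [155] (.node [156, 157,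
  159, 163] [157, 163] (.node [3, 158, 159, 163] [3, 163] (.node [3, 158, 159, 162] [3] (.node
  [156, 158, 159, 163] [163] (.node [156, 158, 159, 162] [158] (.node [4, 156, 159, 162] [159,
  162] (.node [4, 156, 157, 162] [162] (.leaf [4, 156, 157, 159]) (.leaf [4, 156, 157, 162]))
  (.leaf [4, 156, 159, 162])) (.leaf [156, 158, 159, 162])) (.leaf [156, 158, 159, 163])) (.leaf
  [3, 158, 159, 162])) (.leaf [3, 158, 159, 163])) (.leaf [156, 157, 159, 163])) (.leaf [3, 155,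
  159, 163])) (.leaf [155, 157, 159, 163])) (.leaf [117, 156, 157, 162])) (.leaf [117, 156, 157,
  163])) (.leaf [4, 159, 161, 162])) (.leaf [3, 155, 160, 163])) (.leaf [3, 159, 161, 162]))
  (.leaf [3, 155, 159, 160])) (.leaf [117, 155, 157, 163])) (.leaf [117, 155, 157, 162])) (.leaf
  [3, 159, 160, 161])) (.leaf [3, 160, 161, 163])) (.leaf [4, 157, 161, 162])) (.leaf [155, 157,
  161, 162])) (.leaf [117, 155, 160, 163])) (.leaf [117, 160, 161, 163])) (.leaf [117, 156, 161,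
  163])) (.leaf [0, 156, 161, 163])) (.leaf [0, 3, 161, 163])) (.leaf [0, 3, 161, 162])) (.leaf
  [0, 155, 161, 162])) (.leaf [0, 156, 158, 163])) (.leaf [0, 155, 156, 161])) (.leaf [0, 3, 158,
  163])) (.leaf [117, 156, 158, 162])) (.leaf [0, 155, 156, 158])) (.leaf [117, 156, 158, 161]))
  (.leaf [155, 156, 158, 161])) (.leaf [117, 155, 159, 160])) (.leaf [155, 157, 158, 161])) (.leaf
  [0, 155, 157, 158])) (.leaf [0, 155, 157, 159])) (.leaf [0, 4, 157, 159])) (.leaf [4, 157, 158,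
  161])) (.leaf [0, 4, 157, 158])) (.leaf [0, 117, 155, 159])) (.leaf [0, 117, 155, 162])) (.leaf
  [117, 159, 160, 161])) (.leaf [3, 117, 158, 162])) (.leaf [4, 117, 158, 161])) (.leaf [3, 4,
  117, 158])) (.leaf [0, 3, 4, 158])) (.leaf [4, 117, 159, 161])) (.leaf [0, 4, 117, 159])) (.leaf
  [0, 3, 117, 162]))) (.node [1, 3, 117, 171] [1, 3, 117] (.node [3, 4, 117, 168] [3, 4, 117]
  (.node [4, 117, 168, 170] [4, 117, 168] (.node [1, 3, 4, 167] [1, 3, 4] (.node [1, 4, 117, 167]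
  [1, 4] (.node [4, 117, 167, 170] [4, 117] (.node [1, 117, 167, 171] [1, 117] (.node [117, 168,
  169, 170] [117, 168, 170] (.node [3, 117, 164, 171] [3, 117, 171] (.node [3, 117, 164, 168] [3,
  117] (.node [3, 4, 166, 167] [3, 4, 167] (.node [4, 166, 167, 170] [4, 167] (.node [3, 4, 166,
  168] [3, 4] (.node [3, 164, 166, 168] [3, 168] (.node [3, 164, 166, 167] [3, 166] (.node [164,
  166, 167, 170] [166, 167] (.node [117, 164, 168, 169] [117, 168] (.node [164, 165, 167, 170]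
  [164, 167, 170] (.node [117, 165, 167, 170] [167, 170] (.node [3, 164, 165, 167] [164, 167]
  (.node [117, 165, 167, 171] [117, 167] (.node [1, 3, 167, 172] [1, 3, 167] (.node [3, 164, 165,
  170] [164, 165] (.node [3, 165, 167, 172] [3, 167] (.node [3, 164, 170, 171] [3, 164] (.node [1,
  3, 170, 171] [3, 171] (.node [1, 3, 170, 172] [1, 3] (.node [3, 165, 170, 172] [3] (.node [117,
  165, 170, 172] [165, 170] (.node [117, 169, 170, 172] [117, 170] (.node [117, 164, 169, 172]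
  [117, 169] (.node [164, 166, 170, 171] [164, 170] (.node [4, 166, 170, 171] [166, 170] (.node
  [1, 169, 170, 172] [170, 172] (.node [1, 168, 169, 170] [169, 170] (.node [117, 164, 166, 171]
  [164, 171] (.node [117, 164, 166, 172] [117, 164] (.node [1, 164, 168, 169] [168, 169] (.node
  [1, 168, 170, 171] [1, 170] (.node [1, 164, 169, 172] [169] (.node [4, 168, 170, 171] [170]
  (.node [117, 165, 166, 172] [117, 172] (.node [117, 165, 166, 171] [117] (.node [164, 166, 168,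
  172] [164, 166] (.node [1, 164, 168, 172] [164] (.node [165, 166, 168, 172] [166, 172] (.node
  [1, 167, 168, 172] [1, 172] (.node [1, 167, 168, 171] [1] (.node [165, 167, 168, 172] [172]
  (.node [165, 167, 168, 171] [167] (.node [4, 165, 168, 171] [168, 171] (.node [4, 165, 166, 171]
  [171] (.leaf [4, 165, 166, 168]) (.leaf [4, 165, 166, 171])) (.leaf [4, 165, 168, 171])) (.leaf
  [165, 167, 168, 171])) (.leaf [165, 167, 168, 172])) (.leaf [1, 167, 168, 171])) (.leaf [1, 167,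
  168, 172])) (.leaf [165, 166, 168, 172])) (.leaf [1, 164, 168, 172])) (.leaf [164, 166, 168,
  172])) (.leaf [117, 165, 166, 171])) (.leaf [117, 165, 166, 172])) (.leaf [4, 168, 170, 171]))
  (.leaf [1, 164, 169, 172])) (.leaf [1, 168, 170, 171])) (.leaf [1, 164, 168, 169])) (.leaf [117,
  164, 166, 172])) (.leaf [117, 164, 166, 171])) (.leaf [1, 168, 169, 170])) (.leaf [1, 169, 170,
  172])) (.leaf [4, 166, 170, 171])) (.leaf [164, 166, 170, 171])) (.leaf [117, 164, 169, 172]))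
  (.leaf [117, 169, 170, 172])) (.leaf [117, 165, 170, 172])) (.leaf [3, 165, 170, 172])) (.leaf
  [1, 3, 170, 172])) (.leaf [1, 3, 170, 171])) (.leaf [3, 164, 170, 171])) (.leaf [3, 165, 167,
  172])) (.leaf [3, 164, 165, 170])) (.leaf [1, 3, 167, 172])) (.leaf [117, 165, 167, 171]))
  (.leaf [3, 164, 165, 167])) (.leaf [117, 165, 167, 170])) (.leaf [164, 165, 167, 170])) (.leaf
  [117, 164, 168, 169])) (.leaf [164, 166, 167, 170])) (.leaf [3, 164, 166, 167])) (.leaf [3, 164,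
  166, 168])) (.leaf [3, 4, 166, 168])) (.leaf [4, 166, 167, 170])) (.leaf [3, 4, 166, 167]))
  (.leaf [3, 117, 164, 168])) (.leaf [3, 117, 164, 171])) (.leaf [117, 168, 169, 170])) (.leaf [1,
  117, 167, 171])) (.leaf [4, 117, 167, 170])) (.leaf [1, 4, 117, 167])) (.leaf [1, 3, 4, 167]))
  (.leaf [4, 117, 168, 170])) (.leaf [3, 4, 117, 168])) (.leaf [1, 3, 117, 171])))

noncomputable def ctAll : CT :=
  (.node [0, 1, 3, 4] [0, 1, 3, 4] (.node [0, 2, 3, 4] [0, 3, 4] (.node [1, 2, 3, 4] [3, 4] (.node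
  [0, 1, 2, 4] [4] (.leaf [0, 1, 2, 3]) (.leaf [0, 1, 2, 4])) ct0) ct1) ct2)

theorem ct_fac : ctAll.fac = fl SB := by decide +kernel

theorem ct_ok : okCT ctAll = true := by decide +kernel

end Pool.Agent.H401Z.CS
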