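import Mathlib
import Pool.Agent.H401Z.CS.Data

set_option autoImplicit false
set_option maxRecDepth 100000

namespace Pool.Agent.H401Z.CS

noncomputable def mg0 : ℕ × ℕ × List (List ℕ × List ℕ) :=
  (mk [164, 165, 166, 167, 168, 169, 170, 171, 172], mk [1, 3, 4, 117], [([4, 165], [166, 168,
  171]), ([164, 165], [3, 167, 170]), ([3, 165], [167, 170, 172]), ([4, 171], [166, 168, 170]),
  ([1, 164], [168, 169, 172]), ([3, 172], [1, 167, 170]), ([164, 167], [3, 166, 170]), ([164,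
  170], [3, 166, 171]), ([166, 167], [4, 3, 170]), ([164, 169], [117, 168, 172]), ([1, 169], [168,
  170, 172]), ([169], [117, 168, 170, 172]), ([1, 172], [167, 168, 170]), ([164, 171], [117, 3,
  166]), ([164, 172], [117, 166, 168]), ([164], [117, 3, 166, 168]), ([3, 168], [4, 117, 166]),
  ([3, 167], [1, 4, 170]), ([1, 168], [167, 170, 171]), ([4, 168], [117, 166, 170]), ([4, 167],
  [1, 117, 170]), ([166, 172], [117, 165, 168]), ([165, 170], [117, 167, 172]), ([170, 172], [117,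
  167, 168]), ([172], [117, 165, 167, 168]), ([165, 167], [117, 168, 171]), ([165], [117, 166,
  168, 171]), ([167, 168], [117, 170, 171]), ([167], [1, 117, 170, 171]), ([168], [117, 166, 170,
  171]), ([166, 171], [117, 3, 170]), ([166], [4, 117, 3, 170]), ([171], [1, 117, 3, 170]),
  ([170], [1, 4, 117, 3])])

noncomputable def mg1 : ℕ × ℕ × List (List ℕ × List ℕ) :=
  (mk [155, 156, 157, 158, 159, 160, 161, 162, 163], mk [0, 3, 4, 117], [([4, 156], [157, 159,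
  162]), ([155, 156], [0, 158, 161]), ([0, 156], [158, 161, 163]), ([4, 162], [157, 159, 161]),
  ([3, 155], [159, 160, 163]), ([0, 163], [3, 158, 161]), ([155, 158], [0, 157, 161]), ([155,
  161], [0, 157, 162]), ([157, 158], [4, 0, 161]), ([155, 160], [117, 159, 163]), ([3, 160], [159,
  161, 163]), ([160], [117, 159, 161, 163]), ([3, 163], [158, 159, 161]), ([155, 162], [117, 0,
  157]), ([155, 163], [117, 157, 159]), ([155], [117, 0, 157, 159]), ([0, 159], [4, 117, 157]),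
  ([0, 158], [3, 4, 161]), ([3, 159], [158, 161, 162]), ([4, 159], [117, 157, 161]), ([4, 158],
  [3, 117, 161]), ([157, 163], [117, 156, 159]), ([156, 161], [117, 158, 163]), ([161, 163], [117,
  158, 159]), ([163], [117, 156, 158, 159]), ([156, 158], [117, 159, 162]), ([156], [117, 157,
  159, 162]), ([158, 159], [117, 161, 162]), ([158], [3, 117, 161, 162]), ([159], [117, 157, 161,
  162]), ([157, 162], [117, 0, 161]), ([157], [4, 117, 0, 161]), ([162], [3, 117, 0, 161]),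
  ([161], [3, 4, 117, 0])])

noncomputable def mg2 : ℕ × ℕ × List (List ℕ × List ℕ) :=
  (mk [146, 147, 148, 149, 150, 151, 152, 153, 154], mk [0, 1, 4, 117], [([4, 147], [148, 150,
  153]), ([146, 147], [1, 149, 152]), ([1, 147], [149, 152, 154]), ([4, 153], [148, 150, 152]),
  ([0, 146], [150, 151, 154]), ([1, 154], [0, 149, 152]), ([146, 149], [1, 148, 152]), ([146,
  152], [1, 148, 153]), ([148, 149], [4, 1, 152]), ([146, 151], [117, 150, 154]), ([0, 151], [150,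
  152, 154]), ([151], [117, 150, 152, 154]), ([0, 154], [149, 150, 152]), ([146, 153], [117, 1,
  148]), ([146, 154], [117, 148, 150]), ([146], [117, 1, 148, 150]), ([1, 150], [4, 117, 148]),
  ([1, 149], [0, 4, 152]), ([0, 150], [149, 152, 153]), ([4, 150], [117, 148, 152]), ([4, 149],
  [0, 117, 152]), ([148, 154], [117, 147, 150]), ([147, 152], [117, 149, 154]), ([152, 154], [117,
  149, 150]), ([154], [117, 147, 149, 150]), ([147, 149], [117, 150, 153]), ([147], [117, 148,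
  150, 153]), ([149, 150], [117, 152, 153]), ([149], [0, 117, 152, 153]), ([150], [117, 148, 152,
  153]), ([148, 153], [117, 1, 152]), ([148], [4, 117, 1, 152]), ([153], [0, 117, 1, 152]),
  ([152], [0, 4, 117, 1])])

noncomputable def mg3 : ℕ × ℕ × List (List ℕ × List ℕ) :=
  (mk [137, 138, 139, 140, 141, 142, 143, 144, 145], mk [0, 3, 117, 118], [([0, 138], [139, 141,
  144]), ([137, 138], [118, 140, 143]), ([118, 138], [140, 143, 145]), ([0, 144], [139, 141,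
  143]), ([3, 137], [141, 142, 145]), ([118, 145], [3, 140, 143]), ([137, 140], [118, 139, 143]),
  ([137, 143], [118, 139, 144]), ([139, 140], [0, 118, 143]), ([137, 142], [117, 141, 145]), ([3,
  142], [141, 143, 145]), ([142], [117, 141, 143, 145]), ([3, 145], [140, 141, 143]), ([137, 144],
  [117, 118, 139]), ([137, 145], [117, 139, 141]), ([137], [117, 118, 139, 141]), ([118, 141], [0,
  117, 139]), ([118, 140], [3, 0, 143]), ([3, 141], [140, 143, 144]), ([0, 141], [117, 139, 143]),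
  ([0, 140], [3, 117, 143]), ([139, 145], [117, 138, 141]), ([138, 143], [117, 140, 145]), ([143,
  145], [117, 140, 141]), ([145], [117, 138, 140, 141]), ([138, 140], [117, 141, 144]), ([138],
  [117, 139, 141, 144]), ([140, 141], [117, 143, 144]), ([140], [3, 117, 143, 144]), ([141], [117,
  139, 143, 144]), ([139, 144], [117, 118, 143]), ([139], [0, 117, 118, 143]), ([144], [3, 117,
  118, 143]), ([143], [3, 0, 117, 118])])

noncomputable def mg4 : ℕ × ℕ × List (List ℕ × List ℕ) :=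
  (mk [128, 129, 130, 131, 132, 133, 134, 135, 136], mk [1, 3, 117, 118], [([3, 129], [130, 132,
  135]), ([128, 129], [118, 131, 134]), ([118, 129], [131, 134, 136]), ([3, 135], [130, 132,
  134]), ([1, 128], [132, 133, 136]), ([118, 136], [1, 131, 134]), ([128, 131], [118, 130, 134]),
  ([128, 134], [118, 130, 135]), ([130, 131], [3, 118, 134]), ([128, 133], [117, 132, 136]), ([1,
  133], [132, 134, 136]), ([133], [117, 132, 134, 136]), ([1, 136], [131, 132, 134]), ([128, 135],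
  [117, 118, 130]), ([128, 136], [117, 130, 132]), ([128], [117, 118, 130, 132]), ([118, 132], [3,
  117, 130]), ([118, 131], [1, 3, 134]), ([1, 132], [131, 134, 135]), ([3, 132], [117, 130, 134]),
  ([3, 131], [1, 117, 134]), ([130, 136], [117, 129, 132]), ([129, 134], [117, 131, 136]), ([134,
  136], [117, 131, 132]), ([136], [117, 129, 131, 132]), ([129, 131], [117, 132, 135]), ([129],
  [117, 130, 132, 135]), ([131, 132], [117, 134, 135]), ([131], [1, 117, 134, 135]), ([132], [117,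
  130, 134, 135]), ([130, 135], [117, 118, 134]), ([130], [3, 117, 118, 134]), ([135], [1, 117,
  118, 134]), ([134], [1, 3, 117, 118])])

noncomputable def mg5 : ℕ × ℕ × List (List ℕ × List ℕ) :=
  (mk [119, 120, 121, 122, 123, 124, 125, 126, 127], mk [0, 1, 117, 118], [([1, 120], [121, 123,
  126]), ([119, 120], [118, 122, 125]), ([118, 120], [122, 125, 127]), ([1, 126], [121, 123,
  125]), ([0, 119], [123, 124, 127]), ([118, 127], [0, 122, 125]), ([119, 122], [118, 121, 125]),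
  ([119, 125], [118, 121, 126]), ([121, 122], [1, 118, 125]), ([119, 124], [117, 123, 127]), ([0,
  124], [123, 125, 127]), ([124], [117, 123, 125, 127]), ([0, 127], [122, 123, 125]), ([119, 126],
  [117, 118, 121]), ([119, 127], [117, 121, 123]), ([119], [117, 118, 121, 123]), ([118, 123], [1,
  117, 121]), ([118, 122], [0, 1, 125]), ([0, 123], [122, 125, 126]), ([1, 123], [117, 121, 125]),
  ([1, 122], [0, 117, 125]), ([121, 127], [117, 120, 123]), ([120, 125], [117, 122, 127]), ([125,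
  127], [117, 122, 123]), ([127], [117, 120, 122, 123]), ([120, 122], [117, 123, 126]), ([120],
  [117, 121, 123, 126]), ([122, 123], [117, 125, 126]), ([122], [0, 117, 125, 126]), ([123], [117,
  121, 125, 126]), ([121, 126], [117, 118, 125]), ([121], [1, 117, 118, 125]), ([126], [0, 117,
  118, 125]), ([125], [0, 1, 117, 118])])

noncomputable def mg6 : ℕ × ℕ × List (List ℕ × List ℕ) :=
  (mk [], mk [0, 1, 3, 118], [])

noncomputable def mg7 : ℕ × ℕ × List (List ℕ × List ℕ) :=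
  (mk [108, 109, 110, 111, 112, 113, 114, 115, 116], mk [2, 3, 4, 61], [([4, 109], [110, 112,
  115]), ([108, 109], [3, 111, 114]), ([3, 109], [111, 114, 116]), ([4, 115], [110, 112, 114]),
  ([2, 108], [112, 113, 116]), ([3, 116], [2, 111, 114]), ([108, 111], [3, 110, 114]), ([108,
  114], [3, 110, 115]), ([110, 111], [4, 3, 114]), ([108, 113], [61, 112, 116]), ([2, 113], [112,
  114, 116]), ([113], [61, 112, 114, 116]), ([2, 116], [111, 112, 114]), ([108, 115], [61, 3,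
  110]), ([108, 116], [61, 110, 112]), ([108], [61, 3, 110, 112]), ([3, 112], [4, 61, 110]), ([3,
  111], [2, 4, 114]), ([2, 112], [111, 114, 115]), ([4, 112], [61, 110, 114]), ([4, 111], [2, 61,
  114]), ([110, 116], [61, 109, 112]), ([109, 114], [61, 111, 116]), ([114, 116], [61, 111, 112]),
  ([116], [61, 109, 111, 112]), ([109, 111], [61, 112, 115]), ([109], [61, 110, 112, 115]), ([111,
  112], [61, 114, 115]), ([111], [2, 61, 114, 115]), ([112], [61, 110, 114, 115]), ([110, 115],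
  [61, 3, 114]), ([110], [4, 61, 3, 114]), ([115], [2, 61, 3, 114]), ([114], [2, 4, 61, 3])])

noncomputable def mg8 : ℕ × ℕ × List (List ℕ × List ℕ) :=
  (mk [99, 100, 101, 102, 103, 104, 105, 106, 107], mk [0, 3, 4, 61], [([4, 100], [101, 103,
  106]), ([99, 100], [0, 102, 105]), ([0, 100], [102, 105, 107]), ([4, 106], [101, 103, 105]),
  ([3, 99], [103, 104, 107]), ([0, 107], [3, 102, 105]), ([99, 102], [0, 101, 105]), ([99, 105],
  [0, 101, 106]), ([101, 102], [4, 0, 105]), ([99, 104], [61, 103, 107]), ([3, 104], [103, 105,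
  107]), ([104], [61, 103, 105, 107]), ([3, 107], [102, 103, 105]), ([99, 106], [61, 0, 101]),
  ([99, 107], [61, 101, 103]), ([99], [61, 0, 101, 103]), ([0, 103], [4, 61, 101]), ([0, 102], [3,
  4, 105]), ([3, 103], [102, 105, 106]), ([4, 103], [61, 101, 105]), ([4, 102], [3, 61, 105]),
  ([101, 107], [61, 100, 103]), ([100, 105], [61, 102, 107]), ([105, 107], [61, 102, 103]),
  ([107], [61, 100, 102, 103]), ([100, 102], [61, 103, 106]), ([100], [61, 101, 103, 106]), ([102,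
  103], [61, 105, 106]), ([102], [3, 61, 105, 106]), ([103], [61, 101, 105, 106]), ([101, 106],
  [61, 0, 105]), ([101], [4, 61, 0, 105]), ([106], [3, 61, 0, 105]), ([105], [3, 4, 61, 0])])

noncomputable def mg9 : ℕ × ℕ × List (List ℕ × List ℕ) :=
  (mk [90, 91, 92, 93, 94, 95, 96, 97, 98], mk [0, 2, 4, 61], [([4, 91], [92, 94, 97]), ([90, 91],
  [2, 93, 96]), ([2, 91], [93, 96, 98]), ([4, 97], [92, 94, 96]), ([0, 90], [94, 95, 98]), ([2,
  98], [0, 93, 96]), ([90, 93], [2, 92, 96]), ([90, 96], [2, 92, 97]), ([92, 93], [4, 2, 96]),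
  ([90, 95], [61, 94, 98]), ([0, 95], [94, 96, 98]), ([95], [61, 94, 96, 98]), ([0, 98], [93, 94,
  96]), ([90, 97], [61, 2, 92]), ([90, 98], [61, 92, 94]), ([90], [61, 2, 92, 94]), ([2, 94], [4,
  61, 92]), ([2, 93], [0, 4, 96]), ([0, 94], [93, 96, 97]), ([4, 94], [61, 92, 96]), ([4, 93], [0,
  61, 96]), ([92, 98], [61, 91, 94]), ([91, 96], [61, 93, 98]), ([96, 98], [61, 93, 94]), ([98],
  [61, 91, 93, 94]), ([91, 93], [61, 94, 97]), ([91], [61, 92, 94, 97]), ([93, 94], [61, 96, 97]),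
  ([93], [0, 61, 96, 97]), ([94], [61, 92, 96, 97]), ([92, 97], [61, 2, 96]), ([92], [4, 61, 2,
  96]), ([97], [0, 61, 2, 96]), ([96], [0, 4, 61, 2])])

noncomputable def mg10 : ℕ × ℕ × List (List ℕ × List ℕ) :=
  (mk [81, 82, 83, 84, 85, 86, 87, 88, 89], mk [0, 3, 61, 62], [([0, 82], [83, 85, 88]), ([81,
  82], [62, 84, 87]), ([62, 82], [84, 87, 89]), ([0, 88], [83, 85, 87]), ([3, 81], [85, 86, 89]),
  ([62, 89], [3, 84, 87]), ([81, 84], [62, 83, 87]), ([81, 87], [62, 83, 88]), ([83, 84], [0, 62,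
  87]), ([81, 86], [61, 85, 89]), ([3, 86], [85, 87, 89]), ([86], [61, 85, 87, 89]), ([3, 89],
  [84, 85, 87]), ([81, 88], [61, 62, 83]), ([81, 89], [61, 83, 85]), ([81], [61, 62, 83, 85]),
  ([62, 85], [0, 61, 83]), ([62, 84], [3, 0, 87]), ([3, 85], [84, 87, 88]), ([0, 85], [61, 83,
  87]), ([0, 84], [3, 61, 87]), ([83, 89], [61, 82, 85]), ([82, 87], [61, 84, 89]), ([87, 89],
  [61, 84, 85]), ([89], [61, 82, 84, 85]), ([82, 84], [61, 85, 88]), ([82], [61, 83, 85, 88]),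
  ([84, 85], [61, 87, 88]), ([84], [3, 61, 87, 88]), ([85], [61, 83, 87, 88]), ([83, 88], [61, 62,
  87]), ([83], [0, 61, 62, 87]), ([88], [3, 61, 62, 87]), ([87], [3, 0, 61, 62])])

noncomputable def mg11 : ℕ × ℕ × List (List ℕ × List ℕ) :=
  (mk [72, 73, 74, 75, 76, 77, 78, 79, 80], mk [2, 3, 61, 62], [([3, 73], [74, 76, 79]), ([72,
  73], [62, 75, 78]), ([62, 73], [75, 78, 80]), ([3, 79], [74, 76, 78]), ([2, 72], [76, 77, 80]),
  ([62, 80], [2, 75, 78]), ([72, 75], [62, 74, 78]), ([72, 78], [62, 74, 79]), ([74, 75], [3, 62,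
  78]), ([72, 77], [61, 76, 80]), ([2, 77], [76, 78, 80]), ([77], [61, 76, 78, 80]), ([2, 80],
  [75, 76, 78]), ([72, 79], [61, 62, 74]), ([72, 80], [61, 74, 76]), ([72], [61, 62, 74, 76]),
  ([62, 76], [3, 61, 74]), ([62, 75], [2, 3, 78]), ([2, 76], [75, 78, 79]), ([3, 76], [61, 74,
  78]), ([3, 75], [2, 61, 78]), ([74, 80], [61, 73, 76]), ([73, 78], [61, 75, 80]), ([78, 80],
  [61, 75, 76]), ([80], [61, 73, 75, 76]), ([73, 75], [61, 76, 79]), ([73], [61, 74, 76, 79]),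
  ([75, 76], [61, 78, 79]), ([75], [2, 61, 78, 79]), ([76], [61, 74, 78, 79]), ([74, 79], [61, 62,
  78]), ([74], [3, 61, 62, 78]), ([79], [2, 61, 62, 78]), ([78], [2, 3, 61, 62])])

noncomputable def mg12 : ℕ × ℕ × List (List ℕ × List ℕ) :=
  (mk [63, 64, 65, 66, 67, 68, 69, 70, 71], mk [0, 2, 61, 62], [([2, 64], [65, 67, 70]), ([63,
  64], [62, 66, 69]), ([62, 64], [66, 69, 71]), ([2, 70], [65, 67, 69]), ([0, 63], [67, 68, 71]),
  ([62, 71], [0, 66, 69]), ([63, 66], [62, 65, 69]), ([63, 69], [62, 65, 70]), ([65, 66], [2, 62,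
  69]), ([63, 68], [61, 67, 71]), ([0, 68], [67, 69, 71]), ([68], [61, 67, 69, 71]), ([0, 71],
  [66, 67, 69]), ([63, 70], [61, 62, 65]), ([63, 71], [61, 65, 67]), ([63], [61, 62, 65, 67]),
  ([62, 67], [2, 61, 65]), ([62, 66], [0, 2, 69]), ([0, 67], [66, 69, 70]), ([2, 67], [61, 65,
  69]), ([2, 66], [0, 61, 69]), ([65, 71], [61, 64, 67]), ([64, 69], [61, 66, 71]), ([69, 71],
  [61, 66, 67]), ([71], [61, 64, 66, 67]), ([64, 66], [61, 67, 70]), ([64], [61, 65, 67, 70]),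
  ([66, 67], [61, 69, 70]), ([66], [0, 61, 69, 70]), ([67], [61, 65, 69, 70]), ([65, 70], [61, 62,
  69]), ([65], [2, 61, 62, 69]), ([70], [0, 61, 62, 69]), ([69], [0, 2, 61, 62])])

noncomputable def mg13 : ℕ × ℕ × List (List ℕ × List ℕ) :=
  (mk [], mk [0, 2, 3, 62], [])

noncomputable def mg14 : ℕ × ℕ × List (List ℕ × List ℕ) :=
  (mk [52, 53, 54, 55, 56, 57, 58, 59, 60], mk [2, 3, 4, 5], [([4, 53], [54, 56, 59]), ([52, 53],
  [3, 55, 58]), ([3, 53], [55, 58, 60]), ([4, 59], [54, 56, 58]), ([2, 52], [56, 57, 60]), ([3,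
  60], [2, 55, 58]), ([52, 55], [3, 54, 58]), ([52, 58], [3, 54, 59]), ([54, 55], [4, 3, 58]),
  ([52, 57], [5, 56, 60]), ([2, 57], [56, 58, 60]), ([57], [5, 56, 58, 60]), ([2, 60], [55, 56,
  58]), ([52, 59], [5, 3, 54]), ([52, 60], [5, 54, 56]), ([52], [5, 3, 54, 56]), ([3, 56], [4, 5,
  54]), ([3, 55], [2, 4, 58]), ([2, 56], [55, 58, 59]), ([4, 56], [5, 54, 58]), ([4, 55], [2, 5,
  58]), ([54, 60], [5, 53, 56]), ([53, 58], [5, 55, 60]), ([58, 60], [5, 55, 56]), ([60], [5, 53,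
  55, 56]), ([53, 55], [5, 56, 59]), ([53], [5, 54, 56, 59]), ([55, 56], [5, 58, 59]), ([55], [2,
  5, 58, 59]), ([56], [5, 54, 58, 59]), ([54, 59], [5, 3, 58]), ([54], [4, 5, 3, 58]), ([59], [2,
  5, 3, 58]), ([58], [2, 4, 5, 3])])

noncomputable def mg15 : ℕ × ℕ × List (List ℕ × List ℕ) :=
  (mk [43, 44, 45, 46, 47, 48, 49, 50, 51], mk [1, 3, 4, 5], [([4, 44], [45, 47, 50]), ([43, 44],
  [1, 46, 49]), ([1, 44], [46, 49, 51]), ([4, 50], [45, 47, 49]), ([3, 43], [47, 48, 51]), ([1,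
  51], [3, 46, 49]), ([43, 46], [1, 45, 49]), ([43, 49], [1, 45, 50]), ([45, 46], [4, 1, 49]),
  ([43, 48], [5, 47, 51]), ([3, 48], [47, 49, 51]), ([48], [5, 47, 49, 51]), ([3, 51], [46, 47,
  49]), ([43, 50], [5, 1, 45]), ([43, 51], [5, 45, 47]), ([43], [5, 1, 45, 47]), ([1, 47], [4, 5,
  45]), ([1, 46], [3, 4, 49]), ([3, 47], [46, 49, 50]), ([4, 47], [5, 45, 49]), ([4, 46], [3, 5,
  49]), ([45, 51], [5, 44, 47]), ([44, 49], [5, 46, 51]), ([49, 51], [5, 46, 47]), ([51], [5, 44,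
  46, 47]), ([44, 46], [5, 47, 50]), ([44], [5, 45, 47, 50]), ([46, 47], [5, 49, 50]), ([46], [3,
  5, 49, 50]), ([47], [5, 45, 49, 50]), ([45, 50], [5, 1, 49]), ([45], [4, 5, 1, 49]), ([50], [3,
  5, 1, 49]), ([49], [3, 4, 5, 1])])

noncomputable def mg16 : ℕ × ℕ × List (List ℕ × List ℕ) :=
  (mk [34, 35, 36, 37, 38, 39, 40, 41, 42], mk [1, 2, 4, 5], [([4, 35], [36, 38, 41]), ([34, 35],
  [2, 37, 40]), ([2, 35], [37, 40, 42]), ([4, 41], [36, 38, 40]), ([1, 34], [38, 39, 42]), ([2,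
  42], [1, 37, 40]), ([34, 37], [2, 36, 40]), ([34, 40], [2, 36, 41]), ([36, 37], [4, 2, 40]),
  ([34, 39], [5, 38, 42]), ([1, 39], [38, 40, 42]), ([39], [5, 38, 40, 42]), ([1, 42], [37, 38,
  40]), ([34, 41], [5, 2, 36]), ([34, 42], [5, 36, 38]), ([34], [5, 2, 36, 38]), ([2, 38], [4, 5,
  36]), ([2, 37], [1, 4, 40]), ([1, 38], [37, 40, 41]), ([4, 38], [5, 36, 40]), ([4, 37], [1, 5,
  40]), ([36, 42], [5, 35, 38]), ([35, 40], [5, 37, 42]), ([40, 42], [5, 37, 38]), ([42], [5, 35,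
  37, 38]), ([35, 37], [5, 38, 41]), ([35], [5, 36, 38, 41]), ([37, 38], [5, 40, 41]), ([37], [1,
  5, 40, 41]), ([38], [5, 36, 40, 41]), ([36, 41], [5, 2, 40]), ([36], [4, 5, 2, 40]), ([41], [1,
  5, 2, 40]), ([40], [1, 4, 5, 2])])

noncomputable def mg17 : ℕ × ℕ × List (List ℕ × List ℕ) :=
  (mk [25, 26, 27, 28, 29, 30, 31, 32, 33], mk [1, 3, 5, 6], [([1, 26], [27, 29, 32]), ([25, 26],
  [6, 28, 31]), ([6, 26], [28, 31, 33]), ([1, 32], [27, 29, 31]), ([3, 25], [29, 30, 33]), ([6,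
  33], [3, 28, 31]), ([25, 28], [6, 27, 31]), ([25, 31], [6, 27, 32]), ([27, 28], [1, 6, 31]),
  ([25, 30], [5, 29, 33]), ([3, 30], [29, 31, 33]), ([30], [5, 29, 31, 33]), ([3, 33], [28, 29,
  31]), ([25, 32], [5, 6, 27]), ([25, 33], [5, 27, 29]), ([25], [5, 6, 27, 29]), ([6, 29], [1, 5,
  27]), ([6, 28], [3, 1, 31]), ([3, 29], [28, 31, 32]), ([1, 29], [5, 27, 31]), ([1, 28], [3, 5,
  31]), ([27, 33], [5, 26, 29]), ([26, 31], [5, 28, 33]), ([31, 33], [5, 28, 29]), ([33], [5, 26,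
  28, 29]), ([26, 28], [5, 29, 32]), ([26], [5, 27, 29, 32]), ([28, 29], [5, 31, 32]), ([28], [3,
  5, 31, 32]), ([29], [5, 27, 31, 32]), ([27, 32], [5, 6, 31]), ([27], [1, 5, 6, 31]), ([32], [3,
  5, 6, 31]), ([31], [3, 1, 5, 6])])

noncomputable def mg18 : ℕ × ℕ × List (List ℕ × List ℕ) :=
  (mk [16, 17, 18, 19, 20, 21, 22, 23, 24], mk [2, 3, 5, 6], [([3, 17], [18, 20, 23]), ([16, 17],
  [6, 19, 22]), ([6, 17], [19, 22, 24]), ([3, 23], [18, 20, 22]), ([2, 16], [20, 21, 24]), ([6,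
  24], [2, 19, 22]), ([16, 19], [6, 18, 22]), ([16, 22], [6, 18, 23]), ([18, 19], [3, 6, 22]),
  ([16, 21], [5, 20, 24]), ([2, 21], [20, 22, 24]), ([21], [5, 20, 22, 24]), ([2, 24], [19, 20,
  22]), ([16, 23], [5, 6, 18]), ([16, 24], [5, 18, 20]), ([16], [5, 6, 18, 20]), ([6, 20], [3, 5,
  18]), ([6, 19], [2, 3, 22]), ([2, 20], [19, 22, 23]), ([3, 20], [5, 18, 22]), ([3, 19], [2, 5,
  22]), ([18, 24], [5, 17, 20]), ([17, 22], [5, 19, 24]), ([22, 24], [5, 19, 20]), ([24], [5, 17,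
  19, 20]), ([17, 19], [5, 20, 23]), ([17], [5, 18, 20, 23]), ([19, 20], [5, 22, 23]), ([19], [2,
  5, 22, 23]), ([20], [5, 18, 22, 23]), ([18, 23], [5, 6, 22]), ([18], [3, 5, 6, 22]), ([23], [2,
  5, 6, 22]), ([22], [2, 3, 5, 6])])

noncomputable def mg19 : ℕ × ℕ × List (List ℕ × List ℕ) :=
  (mk [7, 8, 9, 10, 11, 12, 13, 14, 15], mk [1, 2, 5, 6], [([2, 8], [9, 11, 14]), ([7, 8], [6, 10,
  13]), ([6, 8], [10, 13, 15]), ([2, 14], [9, 11, 13]), ([1, 7], [11, 12, 15]), ([6, 15], [1, 10,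
  13]), ([7, 10], [6, 9, 13]), ([7, 13], [6, 9, 14]), ([9, 10], [2, 6, 13]), ([7, 12], [5, 11,
  15]), ([1, 12], [11, 13, 15]), ([12], [5, 11, 13, 15]), ([1, 15], [10, 11, 13]), ([7, 14], [5,
  6, 9]), ([7, 15], [5, 9, 11]), ([7], [5, 6, 9, 11]), ([6, 11], [2, 5, 9]), ([6, 10], [1, 2,
  13]), ([1, 11], [10, 13, 14]), ([2, 11], [5, 9, 13]), ([2, 10], [1, 5, 13]), ([9, 15], [5, 8,
  11]), ([8, 13], [5, 10, 15]), ([13, 15], [5, 10, 11]), ([15], [5, 8, 10, 11]), ([8, 10], [5, 11,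
  14]), ([8], [5, 9, 11, 14]), ([10, 11], [5, 13, 14]), ([10], [1, 5, 13, 14]), ([11], [5, 9, 13,
  14]), ([9, 14], [5, 6, 13]), ([9], [2, 5, 6, 13]), ([14], [1, 5, 6, 13]), ([13], [1, 2, 5, 6])])

noncomputable def mg20 : ℕ × ℕ × List (List ℕ × List ℕ) :=
  (mk [], mk [1, 2, 3, 6], [])

noncomputable def mg21 : ℕ × ℕ × List (List ℕ × List ℕ) :=
  (mk [], mk [0, 1, 2, 4], [])

noncomputable def mg22 : ℕ × ℕ × List (List ℕ × List ℕ) :=
  (mk [], mk [0, 1, 2, 3], [])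

noncomputable def mgAll : List (ℕ × ℕ × List (List ℕ × List ℕ)) :=
  [mg0, mg1, mg2, mg3, mg4, mg5, mg6, mg7, mg8, mg9, mg10, mg11, mg12, mg13, mg14, mg15, mg16,
  mg17, mg18, mg19, mg20, mg21, mg22]

noncomputable def S0 : List ℕ :=
  [mk [1, 3, 4, 117], mk [0, 3, 4, 117], mk [0, 1, 4, 117], mk [0, 3, 117, 118], mk [1, 3, 117,
  118], mk [0, 1, 117, 118], mk [0, 1, 3, 118], mk [2, 3, 4, 61], mk [0, 3, 4, 61], mk [0, 2, 4,
  61], mk [0, 3, 61, 62], mk [2, 3, 61, 62], mk [0, 2, 61, 62], mk [0, 2, 3, 62], mk [2, 3, 4, 5],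
  mk [1, 3, 4, 5], mk [1, 2, 4, 5], mk [1, 3, 5, 6], mk [2, 3, 5, 6], mk [1, 2, 5, 6], mk [1, 2,
  3, 6], mk [0, 1, 2, 4], mk [0, 1, 2, 3]]

theorem mg_ok : colB SB mgAll S0 = true := by decide +kernel

theorem fin_ok : chainB (2 ^ 173 - 1) 0 S0
  [([6], [5, 1, 2, 3]), ([5], [1, 2, 3, 4]), ([62], [61, 0, 2, 3]), ([61], [0, 2, 3, 4]), ([118],
  [117, 0, 1, 3]), ([117], [0, 1, 3, 4])]
  [30, 29, 27, 23, 15] = true := by decide +kernel

end Pool.Agent.H401Z.CS
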