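import Mathlib
import Pool.Agent.H401Z.CS.Data

set_option autoImplicit false
set_option maxRecDepth 100000

namespace Pool.Agent.H401Z.CS

noncomputable def I0 : ℕ :=
  mk [5, 6, 7, 8, 9, 10, 11, 12, 13, 14, 15, 16, 17, 18, 19, 20, 21, 22, 23, 24, 25, 26, 27, 28,
  29, 30, 31, 32, 33, 34, 35, 36, 37, 38, 39, 40, 41, 42, 43, 44, 45, 46, 47, 48, 49, 50, 51, 52,
  53, 54, 55, 56, 57, 58, 59, 60]

noncomputable def gs0 : List (List ℕ × ℕ × Tr) :=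
  [([1, 2, 5, 6, 7, 8, 9, 10, 11, 12, 13, 14, 15], mk [1, 2, 5, 41], (.node 40 [1, 2, 41] (.node
  42 [1, 2, 40] (.node 37 [1, 2, 42] (.node 4 [1, 2, 37] (.node 0 [1, 2, 4] .nil .nil) .nil) .nil)
  .nil) (.node 10 [1, 2, 5] (.node 6 [1, 2, 10] (.node 3 [1, 2, 6] (.node 0 [1, 2, 3] .nil .nil)
  .nil) .nil) .nil))), ([2, 3, 5, 6, 16, 17, 18, 19, 20, 21, 22, 23, 24], mk [2, 3, 61, 115],
  (.node 114 [2, 3, 115] (.node 116 [2, 3, 114] (.node 111 [2, 3, 116] (.node 4 [2, 3, 111] (.node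
  55 [2, 3, 4] (.node 60 [2, 3, 55] (.node 58 [2, 3, 60] (.node 59 [2, 3, 58] .nil .nil) .nil)
  .nil) .nil) .nil) .nil) .nil) (.node 75 [2, 3, 61] (.node 62 [2, 3, 75] (.node 0 [2, 3, 62]
  (.node 1 [0, 2, 3] (.node 6 [1, 2, 3] (.node 19 [2, 3, 6] (.node 5 [2, 3, 19] (.node 59 [2, 3,
  5] .nil .nil) .nil) .nil) .nil) .nil) .nil) .nil) .nil))), ([3, 1, 5, 6, 25, 26, 27, 28, 29, 30,
  31, 32, 33], mk [1, 3, 117, 171], (.node 170 [1, 3, 171] (.node 172 [1, 3, 170] (.node 167 [1,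
  3, 172] (.node 4 [1, 3, 167] (.node 46 [1, 3, 4] (.node 51 [1, 3, 46] (.node 49 [1, 3, 51]
  (.node 50 [1, 3, 49] .nil .nil) .nil) .nil) .nil) .nil) .nil) .nil) (.node 131 [1, 3, 117]
  (.node 118 [1, 3, 131] (.node 0 [1, 3, 118] (.node 2 [0, 1, 3] (.node 6 [1, 2, 3] (.node 28 [1,
  3, 6] (.node 5 [1, 3, 28] (.node 50 [1, 3, 5] .nil .nil) .nil) .nil) .nil) .nil) .nil) .nil)
  .nil))), ([1, 4, 5, 2, 34, 35, 36, 37, 38, 39, 40, 41, 42], mk [1, 3, 4, 167], (.node 117 [1, 4,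
  167] (.node 150 [1, 4, 117] (.node 148 [1, 4, 150] (.node 149 [1, 4, 148] (.node 0 [1, 4, 149]
  (.node 2 [0, 1, 4] .nil .nil) .nil) .nil) .nil) .nil) (.node 46 [1, 3, 4] (.node 45 [1, 4, 46]
  (.node 47 [1, 4, 45] (.node 5 [1, 4, 47] (.node 37 [1, 4, 5] (.node 2 [1, 4, 37] .nil .nil)
  .nil) .nil) .nil) .nil) .nil))), ([3, 4, 5, 1, 43, 44, 45, 46, 47, 48, 49, 50, 51], mk [3, 4,
  117, 168], (.node 166 [3, 4, 168] (.node 167 [3, 4, 166] (.node 1 [3, 4, 167] (.node 46 [1, 3,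
  4] (.node 5 [3, 4, 46] (.node 56 [3, 4, 5] (.node 54 [3, 4, 56] (.node 55 [3, 4, 54] (.node 2
  [3, 4, 55] .nil .nil) .nil) .nil) .nil) .nil) .nil) .nil) .nil) (.node 158 [3, 4, 117] (.node 0
  [3, 4, 158] (.node 102 [0, 3, 4] (.node 61 [3, 4, 102] (.node 112 [3, 4, 61] (.node 110 [3, 4,
  112] (.node 111 [3, 4, 110] (.node 2 [3, 4, 111] .nil .nil) .nil) .nil) .nil) .nil) .nil) .nil)
  .nil))), ([2, 4, 5, 3, 52, 53, 54, 55, 56, 57, 58, 59, 60], mk [2, 3, 4, 111], (.node 61 [2, 4,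
  111] (.node 94 [2, 4, 61] (.node 92 [2, 4, 94] (.node 93 [2, 4, 92] (.node 0 [2, 4, 93] (.node 1
  [0, 2, 4] .nil .nil) .nil) .nil) .nil) .nil) (.node 55 [2, 3, 4] (.node 5 [2, 4, 55] (.node 38
  [2, 4, 5] (.node 36 [2, 4, 38] (.node 37 [2, 4, 36] (.node 1 [2, 4, 37] .nil .nil) .nil) .nil)
  .nil) .nil) .nil)))]

theorem cell0_ok : cellB SB I0 [1, 2, 3, 4] gs0 = true := by decide +kernel

theorem gad0_ok : gs0.all (gadB SB I0) = true := by decide +kernel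

noncomputable def I1 : ℕ :=
  mk [61, 62, 63, 64, 65, 66, 67, 68, 69, 70, 71, 72, 73, 74, 75, 76, 77, 78, 79, 80, 81, 82, 83,
  84, 85, 86, 87, 88, 89, 90, 91, 92, 93, 94, 95, 96, 97, 98, 99, 100, 101, 102, 103, 104, 105,
  106, 107, 108, 109, 110, 111, 112, 113, 114, 115, 116]

noncomputable def gs1 : List (List ℕ × ℕ × Tr) :=
  [([0, 2, 61, 62, 63, 64, 65, 66, 67, 68, 69, 70, 71], mk [0, 2, 61, 97], (.node 96 [0, 2, 97]
  (.node 98 [0, 2, 96] (.node 93 [0, 2, 98] (.node 4 [0, 2, 93] (.node 1 [0, 2, 4] .nil .nil)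
  .nil) .nil) .nil) (.node 66 [0, 2, 61] (.node 62 [0, 2, 66] (.node 3 [0, 2, 62] (.node 1 [0, 2,
  3] .nil .nil) .nil) .nil) .nil))), ([2, 3, 61, 62, 72, 73, 74, 75, 76, 77, 78, 79, 80], mk [2,
  3, 61, 115], (.node 114 [2, 3, 115] (.node 116 [2, 3, 114] (.node 111 [2, 3, 116] (.node 4 [2,
  3, 111] (.node 55 [2, 3, 4] (.node 60 [2, 3, 55] (.node 58 [2, 3, 60] (.node 59 [2, 3, 58] .nil
  .nil) .nil) .nil) .nil) .nil) .nil) .nil) (.node 75 [2, 3, 61] (.node 62 [2, 3, 75] (.node 0 [2,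
  3, 62] (.node 1 [0, 2, 3] (.node 6 [1, 2, 3] (.node 19 [2, 3, 6] (.node 5 [2, 3, 19] (.node 59
  [2, 3, 5] .nil .nil) .nil) .nil) .nil) .nil) .nil) .nil) .nil))), ([3, 0, 61, 62, 81, 82, 83,
  84, 85, 86, 87, 88, 89], mk [0, 3, 117, 162], (.node 161 [0, 3, 162] (.node 163 [0, 3, 161]
  (.node 158 [0, 3, 163] (.node 4 [0, 3, 158] (.node 102 [0, 3, 4] (.node 107 [0, 3, 102] (.node
  105 [0, 3, 107] (.node 106 [0, 3, 105] .nil .nil) .nil) .nil) .nil) .nil) .nil) .nil) (.node 140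
  [0, 3, 117] (.node 118 [0, 3, 140] (.node 1 [0, 3, 118] (.node 2 [0, 1, 3] (.node 62 [0, 2, 3]
  (.node 84 [0, 3, 62] (.node 61 [0, 3, 84] (.node 106 [0, 3, 61] .nil .nil) .nil) .nil) .nil)
  .nil) .nil) .nil) .nil))), ([0, 4, 61, 2, 90, 91, 92, 93, 94, 95, 96, 97, 98], mk [0, 4, 117,
  159], (.node 157 [0, 4, 159] (.node 158 [0, 4, 157] (.node 3 [0, 4, 158] (.node 102 [0, 3, 4]
  (.node 101 [0, 4, 102] (.node 103 [0, 4, 101] .nil .nil) .nil) .nil) .nil) .nil) (.node 149 [0,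
  4, 117] (.node 1 [0, 4, 149] (.node 2 [0, 1, 4] (.node 93 [0, 2, 4] (.node 61 [0, 4, 93] (.node
  103 [0, 4, 61] .nil .nil) .nil) .nil) .nil) .nil) .nil))), ([3, 4, 61, 0, 99, 100, 101, 102,
  103, 104, 105, 106, 107], mk [3, 4, 117, 168], (.node 166 [3, 4, 168] (.node 167 [3, 4, 166]
  (.node 1 [3, 4, 167] (.node 46 [1, 3, 4] (.node 5 [3, 4, 46] (.node 56 [3, 4, 5] (.node 54 [3,
  4, 56] (.node 55 [3, 4, 54] (.node 2 [3, 4, 55] .nil .nil) .nil) .nil) .nil) .nil) .nil) .nil)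
  .nil) (.node 158 [3, 4, 117] (.node 0 [3, 4, 158] (.node 102 [0, 3, 4] (.node 61 [3, 4, 102]
  (.node 112 [3, 4, 61] (.node 110 [3, 4, 112] (.node 111 [3, 4, 110] (.node 2 [3, 4, 111] .nil
  .nil) .nil) .nil) .nil) .nil) .nil) .nil) .nil))), ([2, 4, 61, 3, 108, 109, 110, 111, 112, 113,
  114, 115, 116], mk [2, 3, 4, 111], (.node 61 [2, 4, 111] (.node 94 [2, 4, 61] (.node 92 [2, 4,
  94] (.node 93 [2, 4, 92] (.node 0 [2, 4, 93] (.node 1 [0, 2, 4] .nil .nil) .nil) .nil) .nil)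
  .nil) (.node 55 [2, 3, 4] (.node 5 [2, 4, 55] (.node 38 [2, 4, 5] (.node 36 [2, 4, 38] (.node 37
  [2, 4, 36] (.node 1 [2, 4, 37] .nil .nil) .nil) .nil) .nil) .nil) .nil)))]

theorem cell1_ok : cellB SB I1 [0, 2, 3, 4] gs1 = true := by decide +kernel

theorem gad1_ok : gs1.all (gadB SB I1) = true := by decide +kernel

noncomputable def I2 : ℕ :=
  mk [117, 118, 119, 120, 121, 122, 123, 124, 125, 126, 127, 128, 129, 130, 131, 132, 133, 134,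
  135, 136, 137, 138, 139, 140, 141, 142, 143, 144, 145, 146, 147, 148, 149, 150, 151, 152, 153,
  154, 155, 156, 157, 158, 159, 160, 161, 162, 163, 164, 165, 166, 167, 168, 169, 170, 171, 172]

noncomputable def gs2 : List (List ℕ × ℕ × Tr) :=
  [([0, 1, 117, 118, 119, 120, 121, 122, 123, 124, 125, 126, 127], mk [0, 1, 117, 153], (.node 152
  [0, 1, 153] (.node 154 [0, 1, 152] (.node 149 [0, 1, 154] (.node 4 [0, 1, 149] (.node 2 [0, 1,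
  4] .nil .nil) .nil) .nil) .nil) (.node 122 [0, 1, 117] (.node 118 [0, 1, 122] (.node 3 [0, 1,
  118] (.node 2 [0, 1, 3] .nil .nil) .nil) .nil) .nil))), ([1, 3, 117, 118, 128, 129, 130, 131,
  132, 133, 134, 135, 136], mk [1, 3, 117, 171], (.node 170 [1, 3, 171] (.node 172 [1, 3, 170]
  (.node 167 [1, 3, 172] (.node 4 [1, 3, 167] (.node 46 [1, 3, 4] (.node 51 [1, 3, 46] (.node 49
  [1, 3, 51] (.node 50 [1, 3, 49] .nil .nil) .nil) .nil) .nil) .nil) .nil) .nil) (.node 131 [1, 3,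
  117] (.node 118 [1, 3, 131] (.node 0 [1, 3, 118] (.node 2 [0, 1, 3] (.node 6 [1, 2, 3] (.node 28
  [1, 3, 6] (.node 5 [1, 3, 28] (.node 50 [1, 3, 5] .nil .nil) .nil) .nil) .nil) .nil) .nil) .nil)
  .nil))), ([3, 0, 117, 118, 137, 138, 139, 140, 141, 142, 143, 144, 145], mk [0, 3, 117, 162],
  (.node 161 [0, 3, 162] (.node 163 [0, 3, 161] (.node 158 [0, 3, 163] (.node 4 [0, 3, 158] (.node
  102 [0, 3, 4] (.node 107 [0, 3, 102] (.node 105 [0, 3, 107] (.node 106 [0, 3, 105] .nil .nil)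
  .nil) .nil) .nil) .nil) .nil) .nil) (.node 140 [0, 3, 117] (.node 118 [0, 3, 140] (.node 1 [0,
  3, 118] (.node 2 [0, 1, 3] (.node 62 [0, 2, 3] (.node 84 [0, 3, 62] (.node 61 [0, 3, 84] (.node
  106 [0, 3, 61] .nil .nil) .nil) .nil) .nil) .nil) .nil) .nil) .nil))), ([0, 4, 117, 1, 146, 147,
  148, 149, 150, 151, 152, 153, 154], mk [0, 4, 117, 159], (.node 157 [0, 4, 159] (.node 158 [0,
  4, 157] (.node 3 [0, 4, 158] (.node 102 [0, 3, 4] (.node 101 [0, 4, 102] (.node 103 [0, 4, 101]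
  .nil .nil) .nil) .nil) .nil) .nil) (.node 149 [0, 4, 117] (.node 1 [0, 4, 149] (.node 2 [0, 1,
  4] (.node 93 [0, 2, 4] (.node 61 [0, 4, 93] (.node 103 [0, 4, 61] .nil .nil) .nil) .nil) .nil)
  .nil) .nil))), ([3, 4, 117, 0, 155, 156, 157, 158, 159, 160, 161, 162, 163], mk [3, 4, 117,
  168], (.node 166 [3, 4, 168] (.node 167 [3, 4, 166] (.node 1 [3, 4, 167] (.node 46 [1, 3, 4]
  (.node 5 [3, 4, 46] (.node 56 [3, 4, 5] (.node 54 [3, 4, 56] (.node 55 [3, 4, 54] (.node 2 [3,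
  4, 55] .nil .nil) .nil) .nil) .nil) .nil) .nil) .nil) .nil) (.node 158 [3, 4, 117] (.node 0 [3,
  4, 158] (.node 102 [0, 3, 4] (.node 61 [3, 4, 102] (.node 112 [3, 4, 61] (.node 110 [3, 4, 112]
  (.node 111 [3, 4, 110] (.node 2 [3, 4, 111] .nil .nil) .nil) .nil) .nil) .nil) .nil) .nil)
  .nil))), ([1, 4, 117, 3, 164, 165, 166, 167, 168, 169, 170, 171, 172], mk [1, 3, 4, 167], (.node
  117 [1, 4, 167] (.node 150 [1, 4, 117] (.node 148 [1, 4, 150] (.node 149 [1, 4, 148] (.node 0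
  [1, 4, 149] (.node 2 [0, 1, 4] .nil .nil) .nil) .nil) .nil) .nil) (.node 46 [1, 3, 4] (.node 45
  [1, 4, 46] (.node 47 [1, 4, 45] (.node 5 [1, 4, 47] (.node 37 [1, 4, 5] (.node 2 [1, 4, 37] .nil
  .nil) .nil) .nil) .nil) .nil) .nil)))]

theorem cell2_ok : cellB SB I2 [0, 1, 3, 4] gs2 = true := by decide +kernel

theorem gad2_ok : gs2.all (gadB SB I2) = true := by decide +kernel

theorem d01 : (mk [1, 2, 3, 4] ||| I0) &&& I1 = 0 := by decide +kernel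

theorem d02 : (mk [1, 2, 3, 4] ||| I0) &&& I2 = 0 := by decide +kernel

theorem d12 : (mk [0, 2, 3, 4] ||| I1) &&& I2 = 0 := by decide +kernel

end Pool.Agent.H401Z.CS
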