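import Mathlib
import Pool.Agent.H401Z.CS.Data

set_option autoImplicit false
set_option maxRecDepth 100000

namespace Pool.Agent.H401Z.CS

noncomputable def tr0 : Tr :=
  (.node 164 [3, 117, 171] (.node 166 [117, 164, 171] (.node 170 [164, 166, 171] (.node 4 [166,
  170, 171] .nil (.node 167 [164, 166, 170] .nil .nil)) (.node 165 [117, 166, 171] (.node 4 [165,
  166, 171] (.node 168 [4, 165, 166] .nil .nil) (.node 172 [117, 165, 166] (.node 168 [165, 166,
  172] .nil .nil) .nil)) (.node 172 [117, 164, 166] (.node 168 [164, 166, 172] .nil (.node 169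
  [117, 164, 172] .nil .nil)) .nil))) (.node 170 [3, 164, 171] (.node 165 [3, 164, 170] (.node 167
  [164, 165, 170] .nil (.node 167 [3, 164, 165] .nil .nil)) .nil) (.node 168 [3, 117, 164] (.node
  169 [117, 164, 168] (.node 1 [164, 168, 169] .nil (.node 170 [117, 168, 169] .nil .nil)) (.node
  166 [3, 164, 168] (.node 4 [3, 166, 168] .nil (.node 167 [3, 164, 166] .nil .nil)) (.node 4 [3,
  117, 168] (.node 170 [4, 117, 168] .nil (.node 158 [3, 4, 117] (.node 161 [4, 117, 158] (.node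
  156 [117, 158, 161] (.node 155 [156, 158, 161] (.node 0 [155, 156, 161] .nil (.node 0 [155, 156,
  158] .nil .nil)) (.node 163 [117, 156, 161] (.node 0 [156, 161, 163] .nil (.node 160 [117, 161,
  163] (.node 155 [117, 160, 163] .nil .nil) (.node 157 [117, 156, 163] (.node 159 [156, 157, 163]
  .nil (.node 155 [117, 157, 163] .nil .nil)) .nil))) .nil)) (.node 157 [4, 158, 161] (.node 155
  [157, 158, 161] (.node 162 [155, 157, 161] .nil .nil) (.node 162 [4, 157, 161] (.node 156 [4,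
  157, 162] .nil .nil) .nil)) (.node 159 [4, 117, 161] (.node 160 [117, 159, 161] (.node 3 [159,
  160, 161] (.node 155 [3, 159, 160] .nil .nil) (.node 155 [117, 159, 160] .nil .nil)) (.node 162
  [4, 159, 161] (.node 156 [4, 159, 162] .nil .nil) (.node 0 [4, 117, 159] (.node 155 [0, 117,
  159] .nil .nil) .nil))) .nil))) (.node 162 [3, 117, 158] (.node 156 [117, 158, 162] (.node 159
  [156, 158, 162] (.node 163 [156, 158, 159] .nil .nil) (.node 157 [117, 156, 162] (.node 155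
  [117, 157, 162] .nil .nil) .nil)) (.node 159 [3, 158, 162] (.node 161 [3, 159, 162] .nil (.node
  163 [3, 158, 159] (.node 155 [3, 159, 163] (.node 157 [155, 159, 163] .nil (.node 160 [3, 155,
  163] .nil .nil)) .nil) .nil)) (.node 0 [3, 117, 162] (.node 155 [0, 117, 162] (.node 161 [0,
  155, 162] .nil .nil) (.node 161 [0, 3, 162] .nil .nil)) .nil))) (.node 0 [3, 4, 158] (.node 157
  [0, 4, 158] (.node 155 [0, 157, 158] (.node 159 [0, 155, 157] .nil .nil) (.node 159 [0, 4, 157]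
  (.node 156 [4, 157, 159] .nil .nil) .nil)) (.node 163 [0, 3, 158] (.node 156 [0, 158, 163] .nil
  (.node 161 [0, 3, 163] (.node 160 [3, 161, 163] .nil .nil) .nil)) (.node 102 [0, 3, 4] (.node 61
  [3, 4, 102] (.node 105 [4, 61, 102] (.node 100 [61, 102, 105] (.node 99 [100, 102, 105] .nil
  (.node 107 [61, 100, 105] (.node 101 [61, 100, 107] .nil .nil) .nil)) (.node 103 [4, 61, 105]
  (.node 104 [61, 103, 105] .nil (.node 106 [4, 103, 105] .nil .nil)) .nil)) (.node 106 [3, 61,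
  102] (.node 100 [61, 102, 106] (.node 103 [100, 102, 106] .nil (.node 101 [61, 100, 106] .nil
  .nil)) (.node 103 [3, 102, 106] (.node 105 [3, 103, 106] .nil .nil) .nil)) (.node 112 [3, 4, 61]
  (.node 114 [4, 61, 112] (.node 113 [61, 112, 114] (.node 2 [112, 113, 114] .nil (.node 116 [61,
  113, 114] (.node 109 [61, 114, 116] .nil .nil) .nil)) (.node 115 [4, 112, 114] (.node 110 [4,
  114, 115] .nil (.node 109 [4, 112, 115] .nil .nil)) (.node 111 [4, 61, 114] (.node 109 [61, 111,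
  114] (.node 108 [109, 111, 114] .nil .nil) (.node 110 [4, 111, 114] (.node 108 [110, 111, 114]
  .nil .nil) .nil)) .nil))) (.node 108 [3, 61, 112] (.node 113 [61, 108, 112] (.node 2 [108, 112,
  113] (.node 116 [2, 108, 113] .nil (.node 116 [2, 108, 112] .nil .nil)) (.node 116 [61, 108,
  113] .nil .nil)) (.node 110 [3, 108, 112] (.node 116 [108, 110, 112] .nil (.node 111 [3, 108,
  110] (.node 109 [3, 108, 111] .nil .nil) .nil)) .nil)) (.node 110 [3, 4, 112] (.node 109 [4,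
  110, 112] (.node 116 [109, 110, 112] (.node 111 [109, 112, 116] .nil (.node 61 [109, 110, 116]
  .nil .nil)) (.node 115 [4, 109, 110] .nil .nil)) (.node 111 [3, 4, 110] .nil .nil)) .nil)))
  .nil))) (.node 101 [0, 4, 102] (.node 105 [4, 101, 102] (.node 99 [101, 102, 105] (.node 106
  [99, 101, 105] .nil .nil) (.node 106 [4, 101, 105] (.node 100 [4, 101, 106] .nil .nil) .nil))
  (.node 99 [0, 101, 102] (.node 100 [0, 99, 102] (.node 105 [0, 99, 100] .nil .nil) (.node 103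
  [0, 99, 101] (.node 107 [99, 101, 103] (.node 61 [99, 101, 107] .nil .nil) .nil) .nil)) (.node
  103 [0, 4, 101] (.node 100 [4, 101, 103] (.node 107 [100, 101, 103] .nil (.node 106 [4, 100,
  103] .nil .nil)) .nil) .nil))) (.node 107 [0, 3, 102] (.node 103 [3, 102, 107] (.node 100 [102,
  103, 107] .nil (.node 99 [3, 103, 107] (.node 104 [3, 99, 107] (.node 61 [99, 104, 107] .nil
  .nil) (.node 104 [3, 99, 103] .nil .nil)) .nil)) (.node 100 [0, 102, 107] (.node 105 [0, 100,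
  107] .nil .nil) (.node 105 [0, 3, 107] (.node 104 [3, 105, 107] (.node 61 [104, 105, 107] .nil
  (.node 103 [3, 104, 105] .nil .nil)) (.node 106 [0, 3, 105] (.node 99 [0, 105, 106] .nil .nil)
  .nil)) .nil))) .nil))) .nil))) .nil))) .nil)) .nil))) .nil))) (.node 167 [1, 117, 171] (.node
  165 [117, 167, 171] (.node 168 [165, 167, 171] (.node 4 [165, 168, 171] .nil (.node 172 [165,
  167, 168] .nil .nil)) (.node 170 [117, 165, 167] (.node 172 [117, 165, 170] .nil .nil) .nil))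
  (.node 168 [1, 167, 171] (.node 172 [1, 167, 168] (.node 164 [1, 168, 172] .nil .nil) .nil)
  (.node 4 [1, 117, 167] (.node 170 [4, 117, 167] (.node 166 [4, 167, 170] .nil .nil) (.node 3 [1,
  4, 167] (.node 166 [3, 4, 167] .nil (.node 46 [1, 3, 4] (.node 5 [3, 4, 46] (.node 49 [4, 5, 46]
  (.node 44 [5, 46, 49] (.node 43 [44, 46, 49] .nil (.node 51 [5, 44, 49] (.node 45 [5, 44, 51]
  .nil .nil) .nil)) (.node 47 [4, 5, 49] (.node 48 [5, 47, 49] (.node 43 [5, 47, 48] .nil .nil)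
  (.node 50 [4, 47, 49] .nil .nil)) .nil)) (.node 50 [3, 5, 46] (.node 44 [5, 46, 50] (.node 47
  [44, 46, 50] .nil (.node 45 [5, 44, 50] (.node 43 [5, 45, 50] .nil .nil) .nil)) (.node 47 [3,
  46, 50] (.node 49 [3, 47, 50] .nil .nil) (.node 1 [3, 5, 50] (.node 43 [1, 5, 50] .nil .nil)
  .nil))) (.node 56 [3, 4, 5] (.node 58 [4, 5, 56] (.node 57 [5, 56, 58] (.node 2 [56, 57, 58]
  (.node 60 [2, 57, 58] .nil .nil) (.node 60 [5, 57, 58] (.node 53 [5, 58, 60] (.node 3 [53, 58,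
  60] .nil .nil) .nil) .nil)) (.node 59 [4, 56, 58] (.node 2 [56, 58, 59] (.node 55 [2, 56, 59]
  (.node 60 [2, 55, 56] .nil .nil) .nil) (.node 54 [4, 58, 59] (.node 52 [54, 58, 59] .nil .nil)
  (.node 53 [4, 56, 59] (.node 55 [53, 56, 59] .nil .nil) .nil))) (.node 55 [4, 5, 58] (.node 53
  [5, 55, 58] (.node 52 [53, 55, 58] .nil (.node 59 [5, 53, 55] .nil .nil)) (.node 54 [4, 55, 58]
  (.node 52 [54, 55, 58] .nil .nil) (.node 2 [4, 5, 55] .nil .nil))) .nil))) (.node 52 [3, 5, 56]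
  (.node 57 [5, 52, 56] (.node 2 [52, 56, 57] (.node 60 [2, 52, 57] .nil (.node 60 [2, 52, 56]
  .nil .nil)) (.node 60 [5, 52, 57] (.node 54 [5, 52, 60] .nil .nil) .nil)) (.node 54 [3, 52, 56]
  (.node 60 [52, 54, 56] .nil (.node 55 [3, 52, 54] (.node 53 [3, 52, 55] (.node 60 [3, 53, 55]
  .nil .nil) .nil) .nil)) (.node 59 [3, 5, 52] (.node 54 [5, 52, 59] (.node 53 [5, 54, 59] .nil
  .nil) (.node 58 [3, 52, 59] (.node 53 [3, 52, 58] .nil .nil) .nil)) .nil))) (.node 54 [3, 4, 56]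
  (.node 53 [4, 54, 56] (.node 60 [53, 54, 56] (.node 55 [53, 56, 60] .nil (.node 5 [53, 54, 60]
  .nil .nil)) (.node 59 [4, 53, 54] .nil .nil)) (.node 55 [3, 4, 54] (.node 2 [3, 4, 55] (.node 60
  [2, 3, 55] .nil (.node 111 [2, 3, 4] (.node 116 [2, 3, 111] (.node 109 [3, 111, 116] .nil .nil)
  .nil) .nil)) .nil) .nil)) .nil))) .nil))) (.node 45 [1, 4, 46] (.node 49 [4, 45, 46] (.node 43
  [45, 46, 49] (.node 50 [43, 45, 49] .nil .nil) (.node 50 [4, 45, 49] (.node 44 [4, 45, 50] .nil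
  .nil) .nil)) (.node 43 [1, 45, 46] (.node 44 [1, 43, 46] (.node 49 [1, 43, 44] .nil .nil) (.node
  47 [1, 43, 45] (.node 51 [43, 45, 47] (.node 5 [43, 45, 51] .nil .nil) (.node 5 [1, 43, 47] .nil
  .nil)) .nil)) (.node 47 [1, 4, 45] (.node 44 [4, 45, 47] (.node 51 [44, 45, 47] .nil (.node 50
  [4, 44, 47] .nil .nil)) (.node 5 [1, 4, 47] .nil .nil)) .nil))) (.node 51 [1, 3, 46] (.node 47
  [3, 46, 51] (.node 44 [46, 47, 51] .nil (.node 43 [3, 47, 51] (.node 48 [3, 43, 51] (.node 5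
  [43, 48, 51] .nil .nil) (.node 48 [3, 43, 47] .nil .nil)) .nil)) (.node 44 [1, 46, 51] (.node 49
  [1, 44, 51] .nil .nil) (.node 49 [1, 3, 51] (.node 48 [3, 49, 51] (.node 5 [48, 49, 51] .nil
  (.node 47 [3, 48, 49] .nil .nil)) (.node 50 [1, 3, 49] (.node 43 [1, 49, 50] .nil .nil) .nil))
  .nil))) .nil))) .nil)) (.node 150 [1, 4, 117] (.node 152 [4, 117, 150] (.node 151 [117, 150,
  152] (.node 0 [150, 151, 152] (.node 154 [0, 151, 152] (.node 1 [0, 152, 154] .nil .nil) .nil)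
  (.node 154 [117, 151, 152] (.node 147 [117, 152, 154] (.node 1 [147, 152, 154] .nil .nil) .nil)
  .nil)) (.node 153 [4, 150, 152] (.node 0 [150, 152, 153] (.node 1 [0, 152, 153] .nil (.node 149
  [0, 150, 153] (.node 154 [0, 149, 150] .nil .nil) .nil)) (.node 148 [4, 152, 153] (.node 146
  [148, 152, 153] .nil .nil) (.node 147 [4, 150, 153] (.node 149 [147, 150, 153] .nil .nil)
  .nil))) (.node 149 [4, 117, 152] (.node 147 [117, 149, 152] (.node 146 [147, 149, 152] .nil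
  (.node 153 [117, 147, 149] .nil .nil)) (.node 148 [4, 149, 152] (.node 146 [148, 149, 152] .nil
  .nil) (.node 0 [4, 117, 149] (.node 153 [0, 117, 149] .nil .nil) .nil))) .nil))) (.node 146 [1,
  117, 150] (.node 151 [117, 146, 150] (.node 0 [146, 150, 151] (.node 154 [0, 146, 151] .nil
  (.node 154 [0, 146, 150] .nil .nil)) (.node 154 [117, 146, 151] (.node 148 [117, 146, 154] .nil
  .nil) .nil)) (.node 148 [1, 146, 150] (.node 154 [146, 148, 150] .nil (.node 149 [1, 146, 148]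
  (.node 147 [1, 146, 149] (.node 154 [1, 147, 149] .nil .nil) .nil) .nil)) (.node 153 [1, 117,
  146] (.node 148 [117, 146, 153] (.node 147 [117, 148, 153] .nil .nil) (.node 152 [1, 146, 153]
  (.node 147 [1, 146, 152] .nil .nil) (.node 0 [1, 117, 153] .nil .nil))) .nil))) (.node 148 [1,
  4, 150] (.node 147 [4, 148, 150] (.node 154 [147, 148, 150] (.node 149 [147, 150, 154] .nil
  (.node 117 [147, 148, 154] .nil .nil)) (.node 153 [4, 147, 148] .nil .nil)) (.node 149 [1, 4,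
  148] (.node 0 [1, 4, 149] (.node 154 [0, 1, 149] .nil .nil) .nil) .nil)) .nil))) .nil))) .nil)))
  (.node 170 [1, 3, 171] (.node 168 [1, 170, 171] (.node 4 [168, 170, 171] .nil (.node 169 [1,
  168, 170] .nil .nil)) (.node 172 [1, 3, 170] (.node 165 [3, 170, 172] (.node 167 [3, 165, 172]
  .nil .nil) (.node 169 [1, 170, 172] (.node 117 [169, 170, 172] .nil (.node 164 [1, 169, 172]
  .nil .nil)) (.node 167 [1, 3, 172] .nil .nil))) .nil)) (.node 131 [1, 3, 117] (.node 134 [3,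
  117, 131] (.node 129 [117, 131, 134] (.node 128 [129, 131, 134] (.node 118 [128, 129, 134] .nil
  (.node 118 [128, 129, 131] .nil .nil)) (.node 136 [117, 129, 134] (.node 118 [129, 134, 136]
  .nil (.node 133 [117, 134, 136] (.node 128 [117, 133, 136] .nil .nil) (.node 130 [117, 129, 136]
  (.node 132 [129, 130, 136] .nil (.node 128 [117, 130, 136] .nil .nil)) .nil))) .nil)) (.node 130
  [3, 131, 134] (.node 128 [130, 131, 134] (.node 135 [128, 130, 134] .nil .nil) (.node 135 [3,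
  130, 134] (.node 129 [3, 130, 135] .nil .nil) .nil)) (.node 132 [3, 117, 134] (.node 133 [117,
  132, 134] (.node 1 [132, 133, 134] (.node 128 [1, 132, 133] .nil .nil) (.node 128 [117, 132,
  133] .nil .nil)) (.node 135 [3, 132, 134] (.node 129 [3, 132, 135] .nil .nil) (.node 118 [3,
  117, 132] (.node 128 [117, 118, 132] .nil (.node 144 [3, 117, 118] (.node 137 [117, 118, 144]
  (.node 143 [118, 137, 144] (.node 139 [137, 143, 144] .nil (.node 138 [118, 137, 143] .nil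
  .nil)) (.node 139 [117, 137, 144] (.node 138 [117, 139, 144] (.node 145 [117, 138, 139] .nil
  .nil) (.node 145 [117, 137, 139] (.node 142 [117, 137, 145] .nil .nil) .nil)) (.node 141 [117,
  118, 137] (.node 142 [117, 137, 141] .nil .nil) .nil))) (.node 143 [3, 118, 144] (.node 141 [3,
  143, 144] (.node 0 [141, 143, 144] .nil (.node 142 [3, 141, 143] .nil .nil)) .nil) (.node 140
  [3, 117, 144] (.node 138 [117, 140, 144] (.node 141 [138, 140, 144] .nil .nil) (.node 141 [3,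
  140, 144] .nil .nil)) .nil))) .nil)) .nil))) .nil))) (.node 135 [1, 117, 131] (.node 129 [117,
  131, 135] (.node 132 [129, 131, 135] (.node 136 [129, 131, 132] .nil .nil) (.node 130 [117, 129,
  135] (.node 128 [117, 130, 135] .nil .nil) .nil)) (.node 132 [1, 131, 135] (.node 134 [1, 132,
  135] .nil (.node 136 [1, 131, 132] (.node 128 [1, 132, 136] (.node 130 [128, 132, 136] .nil
  (.node 133 [1, 128, 136] .nil .nil)) .nil) .nil)) (.node 118 [1, 117, 135] (.node 128 [117, 118,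
  135] (.node 134 [118, 128, 135] .nil .nil) (.node 134 [1, 118, 135] .nil (.node 123 [1, 117,
  118] (.node 119 [117, 118, 123] (.node 121 [118, 119, 123] (.node 127 [119, 121, 123] (.node 117
  [119, 121, 127] .nil .nil) .nil) (.node 124 [117, 119, 123] (.node 0 [119, 123, 124] (.node 127
  [0, 119, 124] .nil .nil) (.node 127 [117, 119, 124] .nil .nil)) (.node 126 [117, 118, 119]
  (.node 125 [118, 119, 126] (.node 121 [119, 125, 126] .nil (.node 120 [118, 119, 125] .nil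
  .nil)) (.node 121 [117, 119, 126] (.node 120 [117, 121, 126] .nil .nil) (.node 0 [117, 118, 126]
  .nil .nil))) .nil))) (.node 121 [1, 118, 123] (.node 120 [1, 121, 123] (.node 127 [120, 121,
  123] (.node 117 [120, 121, 127] .nil .nil) (.node 126 [1, 120, 123] (.node 122 [120, 123, 126]
  .nil .nil) (.node 126 [1, 120, 121] .nil .nil))) .nil) (.node 125 [1, 117, 123] (.node 124 [117,
  123, 125] (.node 0 [123, 124, 125] .nil (.node 127 [117, 124, 125] (.node 120 [117, 125, 127]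
  .nil .nil) .nil)) (.node 126 [1, 123, 125] (.node 0 [123, 125, 126] .nil (.node 121 [1, 125,
  126] .nil .nil)) (.node 122 [1, 117, 125] (.node 120 [117, 122, 125] (.node 119 [120, 122, 125]
  .nil .nil) .nil) .nil))) .nil))) .nil))) .nil))) (.node 118 [1, 3, 131] (.node 130 [3, 118, 131]
  (.node 128 [118, 130, 131] (.node 132 [118, 128, 130] .nil .nil) (.node 132 [3, 118, 130] (.node
  129 [3, 130, 132] .nil .nil) .nil)) (.node 136 [1, 118, 131] (.node 129 [118, 131, 136] .nil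
  (.node 134 [1, 118, 136] (.node 133 [1, 134, 136] .nil .nil) .nil)) (.node 0 [1, 3, 118] (.node
  140 [0, 3, 118] (.node 145 [3, 118, 140] (.node 138 [118, 140, 145] (.node 141 [138, 140, 145]
  (.node 139 [138, 141, 145] .nil .nil) (.node 143 [118, 138, 145] (.node 117 [138, 143, 145] .nil
  .nil) (.node 137 [118, 138, 140] (.node 143 [137, 138, 140] .nil .nil) .nil))) (.node 141 [3,
  140, 145] (.node 137 [3, 141, 145] (.node 139 [137, 141, 145] .nil (.node 142 [3, 137, 145] .nil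
  (.node 142 [3, 137, 141] .nil .nil))) .nil) (.node 143 [3, 118, 145] (.node 142 [3, 143, 145]
  (.node 117 [142, 143, 145] .nil .nil) .nil) .nil))) (.node 139 [0, 118, 140] (.node 137 [118,
  139, 140] (.node 143 [137, 139, 140] .nil (.node 141 [118, 137, 139] .nil .nil)) (.node 143 [0,
  139, 140] (.node 144 [0, 139, 143] (.node 138 [0, 139, 144] .nil .nil) .nil) (.node 141 [0, 118,
  139] (.node 138 [0, 139, 141] (.node 144 [0, 138, 141] .nil .nil) (.node 117 [0, 118, 141] .nil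
  .nil)) .nil))) (.node 117 [0, 3, 140] (.node 143 [0, 117, 140] (.node 138 [117, 140, 143] .nil
  (.node 141 [0, 117, 143] (.node 142 [117, 141, 143] .nil .nil) .nil)) .nil) .nil))) (.node 122
  [0, 1, 118] (.node 121 [1, 118, 122] (.node 119 [118, 121, 122] (.node 125 [119, 121, 122] .nil
  (.node 120 [118, 119, 122] .nil .nil)) (.node 125 [1, 121, 122] .nil .nil)) (.node 127 [0, 118,
  122] (.node 120 [118, 122, 127] (.node 123 [120, 122, 127] .nil (.node 125 [118, 120, 127] .nil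
  .nil)) (.node 123 [0, 122, 127] (.node 119 [0, 123, 127] .nil (.node 126 [0, 122, 123] .nil
  .nil)) (.node 125 [0, 118, 127] (.node 124 [0, 125, 127] .nil (.node 126 [0, 118, 125] .nil
  .nil)) .nil))) (.node 117 [0, 1, 122] (.node 126 [0, 117, 122] (.node 120 [117, 122, 126] .nil
  .nil) .nil) .nil))) (.node 2 [0, 1, 3] (.node 6 [1, 2, 3] (.node 19 [2, 3, 6] (.node 18 [3, 6,
  19] (.node 16 [6, 18, 19] (.node 22 [16, 18, 19] (.node 17 [16, 19, 22] .nil (.node 23 [16, 18,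
  22] (.node 5 [16, 18, 23] .nil .nil) .nil)) (.node 17 [6, 16, 19] (.node 22 [6, 16, 17] .nil
  .nil) (.node 20 [6, 16, 18] (.node 24 [16, 18, 20] (.node 5 [16, 18, 24] .nil .nil) (.node 5 [6,
  16, 20] (.node 21 [5, 16, 20] .nil .nil) .nil)) .nil))) (.node 22 [3, 18, 19] (.node 23 [3, 18,
  22] (.node 20 [3, 22, 23] .nil (.node 17 [3, 18, 23] .nil .nil)) .nil) (.node 20 [3, 6, 18]
  (.node 17 [3, 18, 20] (.node 24 [17, 18, 20] (.node 5 [17, 18, 24] .nil .nil) (.node 23 [3, 17,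
  20] .nil .nil)) (.node 5 [3, 6, 20] .nil .nil)) .nil))) (.node 24 [2, 6, 19] (.node 17 [6, 19,
  24] (.node 20 [17, 19, 24] (.node 23 [17, 19, 20] .nil .nil) (.node 22 [6, 17, 24] (.node 5 [17,
  22, 24] .nil .nil) .nil)) (.node 20 [2, 19, 24] (.node 16 [2, 20, 24] (.node 21 [2, 16, 24]
  (.node 5 [16, 21, 24] .nil .nil) (.node 21 [2, 16, 20] .nil .nil)) (.node 23 [2, 19, 20] (.node
  22 [2, 20, 23] .nil .nil) .nil)) (.node 22 [2, 6, 24] (.node 21 [2, 22, 24] (.node 5 [21, 22,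
  24] .nil (.node 20 [2, 21, 22] .nil .nil)) (.node 23 [2, 6, 22] (.node 16 [6, 22, 23] .nil .nil)
  .nil)) .nil))) (.node 5 [2, 3, 19] (.node 22 [3, 5, 19] (.node 17 [5, 19, 22] .nil (.node 20 [3,
  5, 22] (.node 21 [5, 20, 22] .nil .nil) .nil)) (.node 23 [2, 5, 19] (.node 17 [5, 19, 23] (.node
  18 [5, 17, 23] .nil .nil) (.node 6 [2, 5, 23] (.node 16 [5, 6, 23] .nil .nil) .nil)) (.node 59
  [2, 3, 5] (.node 55 [2, 5, 59] .nil (.node 58 [2, 3, 59] (.node 60 [2, 3, 58] .nil .nil) .nil))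
  .nil))) .nil))) (.node 28 [1, 3, 6] (.node 33 [3, 6, 28] (.node 26 [6, 28, 33] (.node 29 [26,
  28, 33] (.node 27 [26, 29, 33] (.node 5 [26, 27, 33] .nil .nil) (.node 32 [26, 28, 29] .nil
  .nil)) (.node 31 [6, 26, 33] (.node 5 [26, 31, 33] .nil (.node 25 [6, 26, 31] .nil .nil)) (.node
  25 [6, 26, 28] (.node 31 [25, 26, 28] .nil .nil) .nil))) (.node 29 [3, 28, 33] (.node 25 [3, 29,
  33] (.node 27 [25, 29, 33] (.node 5 [25, 27, 33] .nil .nil) (.node 30 [3, 25, 33] (.node 5 [25,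
  30, 33] .nil .nil) (.node 30 [3, 25, 29] (.node 5 [25, 29, 30] .nil .nil) .nil))) (.node 32 [3,
  28, 29] (.node 31 [3, 29, 32] .nil .nil) .nil)) (.node 31 [3, 6, 33] (.node 30 [3, 31, 33]
  (.node 5 [30, 31, 33] .nil (.node 29 [3, 30, 31] .nil .nil)) (.node 32 [3, 6, 31] (.node 25 [6,
  31, 32] .nil .nil) .nil)) .nil))) (.node 27 [1, 6, 28] (.node 25 [6, 27, 28] (.node 31 [25, 27,
  28] (.node 32 [25, 27, 31] (.node 5 [25, 27, 32] .nil .nil) .nil) (.node 29 [6, 25, 27] (.node 5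
  [6, 25, 29] .nil .nil) .nil)) (.node 31 [1, 27, 28] (.node 32 [1, 27, 31] (.node 29 [1, 31, 32]
  .nil (.node 26 [1, 27, 32] .nil .nil)) .nil) (.node 29 [1, 6, 27] (.node 26 [1, 27, 29] (.node
  32 [1, 26, 29] .nil .nil) (.node 5 [1, 6, 29] .nil .nil)) .nil))) (.node 5 [1, 3, 28] (.node 32
  [3, 5, 28] (.node 26 [5, 28, 32] (.node 27 [5, 26, 32] .nil .nil) (.node 6 [3, 5, 32] (.node 25
  [5, 6, 32] .nil .nil) .nil)) (.node 31 [1, 5, 28] (.node 26 [5, 28, 31] .nil (.node 29 [1, 5,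
  31] (.node 30 [5, 29, 31] .nil .nil) .nil)) .nil)) .nil))) (.node 10 [1, 2, 6] (.node 9 [2, 6,
  10] (.node 7 [6, 9, 10] (.node 13 [7, 9, 10] (.node 8 [7, 10, 13] .nil (.node 14 [7, 9, 13]
  (.node 5 [7, 9, 14] .nil .nil) .nil)) (.node 8 [6, 7, 10] (.node 13 [6, 7, 8] .nil .nil) (.node
  11 [6, 7, 9] (.node 15 [7, 9, 11] (.node 5 [7, 9, 15] .nil .nil) (.node 5 [6, 7, 11] (.node 12
  [5, 7, 11] .nil .nil) .nil)) .nil))) (.node 13 [2, 9, 10] (.node 14 [2, 9, 13] (.node 11 [2, 13,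
  14] .nil (.node 8 [2, 9, 14] .nil .nil)) .nil) (.node 11 [2, 6, 9] (.node 8 [2, 9, 11] (.node 15
  [8, 9, 11] (.node 5 [8, 9, 15] .nil .nil) (.node 14 [2, 8, 11] .nil .nil)) (.node 5 [2, 6, 11]
  .nil .nil)) .nil))) (.node 15 [1, 6, 10] (.node 8 [6, 10, 15] (.node 11 [8, 10, 15] (.node 14
  [8, 10, 11] .nil .nil) (.node 13 [6, 8, 15] (.node 5 [8, 13, 15] .nil .nil) .nil)) (.node 11 [1,
  10, 15] (.node 7 [1, 11, 15] (.node 12 [1, 7, 15] (.node 5 [7, 12, 15] .nil .nil) (.node 12 [1,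
  7, 11] .nil .nil)) (.node 14 [1, 10, 11] (.node 13 [1, 11, 14] .nil .nil) .nil)) (.node 13 [1,
  6, 15] (.node 12 [1, 13, 15] (.node 5 [12, 13, 15] .nil (.node 11 [1, 12, 13] .nil .nil)) (.node
  14 [1, 6, 13] (.node 7 [6, 13, 14] .nil .nil) .nil)) .nil))) (.node 5 [1, 2, 10] (.node 13 [2,
  5, 10] (.node 8 [5, 10, 13] .nil (.node 11 [2, 5, 13] (.node 12 [5, 11, 13] .nil .nil) .nil))
  (.node 14 [1, 5, 10] (.node 8 [5, 10, 14] (.node 9 [5, 8, 14] .nil .nil) (.node 6 [1, 5, 14]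
  (.node 7 [5, 6, 14] .nil .nil) .nil)) (.node 41 [1, 2, 5] (.node 34 [2, 5, 41] (.node 36 [5, 34,
  41] (.node 42 [5, 34, 36] .nil .nil) (.node 40 [2, 34, 41] .nil (.node 38 [2, 5, 34] (.node 39
  [5, 34, 38] .nil .nil) .nil))) (.node 40 [1, 2, 41] (.node 38 [1, 40, 41] .nil .nil) .nil))
  .nil))) .nil))) .nil))) (.node 62 [0, 2, 3] (.node 75 [2, 3, 62] (.node 74 [3, 62, 75] (.node 72
  [62, 74, 75] (.node 78 [72, 74, 75] (.node 73 [72, 75, 78] .nil (.node 79 [72, 74, 78] (.node 61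
  [72, 74, 79] .nil .nil) .nil)) (.node 73 [62, 72, 75] (.node 78 [62, 72, 73] .nil .nil) (.node
  76 [62, 72, 74] (.node 80 [72, 74, 76] (.node 61 [72, 74, 80] .nil .nil) (.node 61 [62, 72, 76]
  (.node 77 [61, 72, 76] .nil .nil) .nil)) .nil))) (.node 78 [3, 74, 75] (.node 79 [3, 74, 78]
  (.node 76 [3, 78, 79] .nil (.node 73 [3, 74, 79] .nil .nil)) .nil) (.node 76 [3, 62, 74] (.node
  73 [3, 74, 76] (.node 80 [73, 74, 76] (.node 61 [73, 74, 80] .nil .nil) (.node 79 [3, 73, 76]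
  .nil .nil)) (.node 61 [3, 62, 76] .nil .nil)) .nil))) (.node 80 [2, 62, 75] (.node 73 [62, 75,
  80] (.node 76 [73, 75, 80] (.node 79 [73, 75, 76] .nil .nil) (.node 78 [62, 73, 80] (.node 61
  [73, 78, 80] .nil .nil) .nil)) (.node 76 [2, 75, 80] (.node 72 [2, 76, 80] (.node 77 [2, 72, 80]
  (.node 61 [72, 77, 80] .nil .nil) (.node 77 [2, 72, 76] .nil .nil)) (.node 79 [2, 75, 76] (.node
  78 [2, 76, 79] .nil .nil) .nil)) (.node 78 [2, 62, 80] (.node 77 [2, 78, 80] (.node 61 [77, 78,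
  80] .nil (.node 76 [2, 77, 78] .nil .nil)) (.node 79 [2, 62, 78] (.node 72 [62, 78, 79] .nil
  .nil) .nil)) .nil))) (.node 61 [2, 3, 75] (.node 78 [3, 61, 75] (.node 73 [61, 75, 78] .nil
  (.node 76 [3, 61, 78] (.node 77 [61, 76, 78] .nil .nil) .nil)) (.node 79 [2, 61, 75] (.node 73
  [61, 75, 79] (.node 74 [61, 73, 79] .nil .nil) (.node 62 [2, 61, 79] (.node 72 [61, 62, 79] .nil
  .nil) .nil)) (.node 115 [2, 3, 61] (.node 108 [3, 61, 115] (.node 110 [61, 108, 115] (.node 114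
  [108, 110, 115] .nil (.node 109 [61, 110, 115] .nil (.node 116 [61, 108, 110] .nil .nil)))
  (.node 114 [3, 108, 115] (.node 109 [3, 108, 114] .nil .nil) .nil)) (.node 111 [2, 61, 115]
  (.node 109 [61, 111, 115] (.node 112 [109, 111, 115] .nil .nil) (.node 112 [2, 111, 115] (.node
  116 [2, 111, 112] .nil .nil) (.node 4 [2, 61, 111] .nil .nil))) (.node 114 [2, 3, 115] (.node
  112 [2, 114, 115] .nil (.node 116 [2, 3, 114] (.node 109 [3, 114, 116] .nil (.node 113 [2, 114,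
  116] .nil .nil)) .nil)) .nil))) .nil))) .nil))) (.node 84 [0, 3, 62] (.node 89 [3, 62, 84]
  (.node 82 [62, 84, 89] (.node 85 [82, 84, 89] (.node 83 [82, 85, 89] (.node 61 [82, 83, 89] .nil
  .nil) (.node 88 [82, 84, 85] .nil .nil)) (.node 87 [62, 82, 89] (.node 61 [82, 87, 89] .nil
  (.node 81 [62, 82, 87] .nil .nil)) (.node 81 [62, 82, 84] (.node 87 [81, 82, 84] .nil .nil)
  .nil))) (.node 85 [3, 84, 89] (.node 81 [3, 85, 89] (.node 83 [81, 85, 89] (.node 61 [81, 83,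
  89] .nil .nil) (.node 86 [3, 81, 89] (.node 61 [81, 86, 89] .nil .nil) (.node 86 [3, 81, 85]
  (.node 61 [81, 85, 86] .nil .nil) .nil))) (.node 88 [3, 84, 85] (.node 87 [3, 85, 88] .nil .nil)
  .nil)) (.node 87 [3, 62, 89] (.node 86 [3, 87, 89] (.node 61 [86, 87, 89] .nil (.node 85 [3, 86,
  87] .nil .nil)) (.node 88 [3, 62, 87] (.node 81 [62, 87, 88] .nil .nil) .nil)) .nil))) (.node 83
  [0, 62, 84] (.node 81 [62, 83, 84] (.node 87 [81, 83, 84] (.node 88 [81, 83, 87] (.node 61 [81,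
  83, 88] .nil .nil) .nil) (.node 85 [62, 81, 83] (.node 61 [62, 81, 85] .nil .nil) .nil)) (.node
  87 [0, 83, 84] (.node 88 [0, 83, 87] (.node 85 [0, 87, 88] .nil (.node 82 [0, 83, 88] .nil
  .nil)) .nil) (.node 85 [0, 62, 83] (.node 82 [0, 83, 85] (.node 88 [0, 82, 85] .nil .nil) (.node
  61 [0, 62, 85] .nil .nil)) .nil))) (.node 61 [0, 3, 84] (.node 88 [3, 61, 84] (.node 82 [61, 84,
  88] (.node 83 [61, 82, 88] .nil .nil) (.node 62 [3, 61, 88] (.node 81 [61, 62, 88] .nil .nil)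
  .nil)) (.node 87 [0, 61, 84] (.node 82 [61, 84, 87] .nil (.node 85 [0, 61, 87] (.node 86 [61,
  85, 87] .nil .nil) .nil)) (.node 106 [0, 3, 61] (.node 99 [0, 61, 106] (.node 101 [61, 99, 106]
  .nil .nil) .nil) .nil))) .nil))) (.node 66 [0, 2, 62] (.node 65 [2, 62, 66] (.node 63 [62, 65,
  66] (.node 69 [63, 65, 66] (.node 64 [63, 66, 69] .nil (.node 70 [63, 65, 69] (.node 61 [63, 65,
  70] .nil .nil) .nil)) (.node 64 [62, 63, 66] (.node 69 [62, 63, 64] .nil .nil) (.node 67 [62,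
  63, 65] (.node 71 [63, 65, 67] (.node 61 [63, 65, 71] .nil .nil) (.node 61 [62, 63, 67] (.node
  68 [61, 63, 67] .nil .nil) .nil)) .nil))) (.node 69 [2, 65, 66] (.node 70 [2, 65, 69] (.node 67
  [2, 69, 70] .nil (.node 64 [2, 65, 70] .nil .nil)) .nil) (.node 67 [2, 62, 65] (.node 64 [2, 65,
  67] (.node 71 [64, 65, 67] (.node 61 [64, 65, 71] .nil .nil) (.node 70 [2, 64, 67] .nil .nil))
  (.node 61 [2, 62, 67] .nil .nil)) .nil))) (.node 71 [0, 62, 66] (.node 64 [62, 66, 71] (.node 67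
  [64, 66, 71] (.node 70 [64, 66, 67] .nil .nil) (.node 69 [62, 64, 71] (.node 61 [64, 69, 71]
  .nil .nil) .nil)) (.node 67 [0, 66, 71] (.node 63 [0, 67, 71] (.node 68 [0, 63, 71] (.node 61
  [63, 68, 71] .nil .nil) (.node 68 [0, 63, 67] .nil .nil)) (.node 70 [0, 66, 67] (.node 69 [0,
  67, 70] .nil .nil) .nil)) (.node 69 [0, 62, 71] (.node 68 [0, 69, 71] (.node 61 [68, 69, 71]
  .nil (.node 67 [0, 68, 69] .nil .nil)) (.node 70 [0, 62, 69] (.node 63 [62, 69, 70] .nil .nil)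
  .nil)) .nil))) (.node 61 [0, 2, 66] (.node 69 [2, 61, 66] (.node 64 [61, 66, 69] .nil (.node 67
  [2, 61, 69] (.node 68 [61, 67, 69] .nil .nil) .nil)) (.node 70 [0, 61, 66] (.node 64 [61, 66,
  70] (.node 65 [61, 64, 70] .nil .nil) (.node 62 [0, 61, 70] (.node 63 [61, 62, 70] .nil .nil)
  .nil)) (.node 97 [0, 2, 61] (.node 90 [2, 61, 97] (.node 92 [61, 90, 97] (.node 98 [61, 90, 92]
  .nil .nil) (.node 96 [2, 90, 97] .nil (.node 94 [2, 61, 90] (.node 95 [61, 90, 94] .nil .nil)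
  .nil))) (.node 96 [0, 2, 97] (.node 94 [0, 96, 97] .nil .nil) .nil)) .nil))) .nil))) .nil)))
  (.node 4 [0, 1, 2] (.node 37 [1, 2, 4] (.node 36 [2, 4, 37] (.node 40 [4, 36, 37] (.node 34 [36,
  37, 40] (.node 35 [34, 37, 40] .nil (.node 41 [34, 36, 40] .nil .nil)) (.node 41 [4, 36, 40]
  (.node 38 [4, 40, 41] .nil (.node 35 [4, 36, 41] .nil .nil)) .nil)) (.node 34 [2, 36, 37] (.node
  35 [2, 34, 37] (.node 40 [2, 34, 35] .nil .nil) (.node 38 [2, 34, 36] (.node 42 [34, 36, 38]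
  .nil .nil) .nil)) (.node 38 [2, 4, 36] (.node 35 [4, 36, 38] (.node 42 [35, 36, 38] (.node 5
  [35, 36, 42] .nil .nil) (.node 41 [4, 35, 38] .nil .nil)) (.node 5 [2, 4, 38] .nil .nil))
  .nil))) (.node 5 [1, 4, 37] (.node 40 [4, 5, 37] (.node 35 [5, 37, 40] (.node 42 [5, 35, 40]
  .nil .nil) (.node 38 [4, 5, 40] (.node 39 [5, 38, 40] .nil .nil) .nil)) (.node 41 [1, 5, 37]
  (.node 35 [5, 37, 41] (.node 38 [35, 37, 41] .nil (.node 36 [5, 35, 41] .nil .nil)) (.node 38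
  [1, 37, 41] .nil .nil)) .nil)) (.node 42 [1, 2, 37] (.node 35 [2, 37, 42] (.node 38 [35, 37, 42]
  .nil (.node 40 [2, 35, 42] .nil .nil)) (.node 38 [1, 37, 42] (.node 34 [1, 38, 42] (.node 39 [1,
  34, 42] (.node 5 [34, 39, 42] .nil .nil) (.node 39 [1, 34, 38] .nil .nil)) .nil) (.node 40 [1,
  2, 42] (.node 39 [1, 40, 42] (.node 5 [39, 40, 42] .nil (.node 38 [1, 39, 40] .nil .nil)) .nil)
  .nil))) .nil))) (.node 93 [0, 2, 4] (.node 92 [2, 4, 93] (.node 96 [4, 92, 93] (.node 90 [92,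
  93, 96] (.node 91 [90, 93, 96] .nil (.node 97 [90, 92, 96] .nil .nil)) (.node 97 [4, 92, 96]
  (.node 94 [4, 96, 97] .nil (.node 91 [4, 92, 97] .nil .nil)) .nil)) (.node 90 [2, 92, 93] (.node
  91 [2, 90, 93] (.node 96 [2, 90, 91] .nil .nil) (.node 94 [2, 90, 92] (.node 98 [90, 92, 94]
  .nil .nil) .nil)) (.node 94 [2, 4, 92] (.node 91 [4, 92, 94] (.node 98 [91, 92, 94] (.node 61
  [91, 92, 98] .nil .nil) (.node 97 [4, 91, 94] .nil .nil)) (.node 61 [2, 4, 94] .nil .nil))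
  .nil))) (.node 61 [0, 4, 93] (.node 96 [4, 61, 93] (.node 91 [61, 93, 96] (.node 98 [61, 91, 96]
  .nil .nil) (.node 94 [4, 61, 96] (.node 95 [61, 94, 96] .nil .nil) .nil)) (.node 97 [0, 61, 93]
  (.node 91 [61, 93, 97] (.node 94 [91, 93, 97] .nil (.node 92 [61, 91, 97] .nil .nil)) (.node 94
  [0, 93, 97] .nil .nil)) (.node 103 [0, 4, 61] (.node 99 [0, 61, 103] (.node 104 [61, 99, 103]
  .nil .nil) .nil) .nil))) (.node 98 [0, 2, 93] (.node 91 [2, 93, 98] (.node 94 [91, 93, 98] .nil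
  (.node 96 [2, 91, 98] .nil .nil)) (.node 94 [0, 93, 98] (.node 90 [0, 94, 98] (.node 95 [0, 90,
  98] (.node 61 [90, 95, 98] .nil .nil) (.node 95 [0, 90, 94] .nil .nil)) .nil) (.node 96 [0, 2,
  98] (.node 95 [0, 96, 98] (.node 61 [95, 96, 98] .nil (.node 94 [0, 95, 96] .nil .nil)) .nil)
  .nil))) .nil))) .nil)) .nil))) .nil))) .nil))) .nil))) .nil))))

theorem tr0_ok : okTr SB 0 (mk [1, 3, 117, 171]) tr0 = true := by decide +kernel

theorem tr0_cov : covB SB 0 (mk [1, 3, 117, 171]) tr0 = true := by decide +kernel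

theorem conn0 : Conn (dcL (fl SB)) ∅ := dc_zero ▸ conn_of SB_ok tr0_ok tr0_cov

end Pool.Agent.H401Z.CS
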