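import Mathlib
import Pool.Agent.H401Z.CS.Mask

set_option autoImplicit false

namespace Pool.Agent.H401Z.CS

open Finset Pool.Agent.Helper175.NS

/-- the corner simplex in `ℝ⁴` -/
def simp4 : Set (EuclideanSpace ℝ (Fin 4)) := {y | (∀ i, 0 ≤ y i) ∧ y 0 + y 1 + y 2 + y 3 ≤ 1}

/-- its boundary -/
def bd4 : Set (EuclideanSpace ℝ (Fin 4)) :=
  {y | y ∈ simp4 ∧ (y 0 = 0 ∨ y 1 = 0 ∨ y 2 = 0 ∨ y 3 = 0 ∨ y 0 + y 1 + y 2 + y 3 = 1)}

theorem int_simp4 : interior simp4 = {y | (∀ i, 0 < y i) ∧ y 0 + y 1 + y 2 + y 3 < 1} := by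
  apply Set.Subset.antisymm
  · intro y hy
    have key : ∀ d : EuclideanSpace ℝ (Fin 4), ∃ ε : ℝ, 0 < ε ∧ y + ε • d ∈ simp4 := by
      intro d
      have hc : Continuous fun ε : ℝ => y + ε • d := by fun_prop
      have h0 : (fun ε : ℝ => y + ε • d) ⁻¹' interior simp4 ∈ nhds (0 : ℝ) :=
        hc.continuousAt.preimage_mem_nhds (isOpen_interior.mem_nhds (by simpa using hy))
      obtain ⟨ε, hε, h⟩ := Metric.mem_nhds_iff.1 h0
      refine ⟨ε / 2, by positivity, interior_subset (h ?_)⟩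
      rw [mem_ball_zero_iff, Real.norm_eq_abs, abs_of_pos (by positivity)]
      linarith
    refine ⟨fun i => ?_, ?_⟩
    · obtain ⟨ε, hε, h⟩ := key (WithLp.toLp 2 fun _ => -1)
      have := h.1 i
      simp only [PiLp.add_apply, PiLp.smul_apply, smul_eq_mul] at this
      linarith
    · obtain ⟨ε, hε, h⟩ := key (WithLp.toLp 2 fun _ => 1)
      have := h.2
      simp only [PiLp.add_apply, PiLp.smul_apply, smul_eq_mul] at this
      linarith
  · refine interior_maximal ?_ ?_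
    · rintro y ⟨h1, h2⟩
      exact ⟨fun i => (h1 i).le, h2.le⟩
    · have h1 : IsOpen {y : EuclideanSpace ℝ (Fin 4) | ∀ i, 0 < y i} := by
        rw [Set.setOf_forall]
        exact isOpen_iInter_of_finite fun i => isOpen_lt continuous_const (by fun_prop)
      have h2 : IsOpen {y : EuclideanSpace ℝ (Fin 4) | y 0 + y 1 + y 2 + y 3 < 1} :=
        isOpen_lt (by fun_prop) continuous_const
      exact h1.inter h2

theorem bd4_sphere : Nonempty (bd4 ≃ₜ Metric.sphere (0 : EuclideanSpace ℝ (Fin 4)) 1) := by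
  have hconv : Convex ℝ simp4 := by
    rintro a ⟨a1, a2⟩ b ⟨b1, b2⟩ p q hp hq hpq
    refine ⟨fun i => ?_, ?_⟩
    · have := a1 i
      have := b1 i
      simp only [PiLp.add_apply, PiLp.smul_apply, smul_eq_mul]
      positivity
    · simp only [PiLp.add_apply, PiLp.smul_apply, smul_eq_mul]
      nlinarith
  have hcl : IsClosed simp4 := by
    have h1 : IsClosed {y : EuclideanSpace ℝ (Fin 4) | ∀ i, 0 ≤ y i} := by
      rw [Set.setOf_forall]
      exact isClosed_iInter fun i => isClosed_le continuous_const (by fun_prop)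
    have h2 : IsClosed {y : EuclideanSpace ℝ (Fin 4) | y 0 + y 1 + y 2 + y 3 ≤ 1} :=
      isClosed_le (by fun_prop) continuous_const
    exact h1.inter h2
  have hb : Bornology.IsBounded simp4 := by
    refine (Metric.isBounded_closedBall (x := (0 : EuclideanSpace ℝ (Fin 4))) (r := 1)).subset ?_
    rintro y ⟨h1, h2⟩
    rw [mem_closedBall_zero_iff, EuclideanSpace.norm_eq, Fin.sum_univ_four]
    apply Real.sqrt_le_iff.2
    refine ⟨by norm_num, ?_⟩
    have a := h1 0
    have b := h1 1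
    have c := h1 2
    have d := h1 3
    simp only [Real.norm_eq_abs, sq_abs]
    nlinarith [mul_nonneg a b, mul_nonneg a c, mul_nonneg b c, mul_nonneg a d, mul_nonneg b d,
      mul_nonneg c d]
  have hi : (interior simp4).Nonempty := by
    rw [int_simp4]
    refine ⟨WithLp.toLp 2 (fun _ => (1 / 5 : ℝ)), fun i => ?_, ?_⟩ <;> norm_num
  obtain ⟨h, -, -, h2⟩ :=
    exists_homeomorph_image_interior_closure_frontier_eq_unitBall hconv hi hb
  have hf : frontier simp4 = bd4 := by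
    rw [hcl.frontier_eq, int_simp4]
    ext y
    constructor
    · rintro ⟨h1, h2⟩
      refine ⟨h1, ?_⟩
      by_contra hc
      push Not at hc
      apply h2
      refine ⟨fun i => ?_, lt_of_le_of_ne h1.2 hc.2.2.2.2⟩
      refine lt_of_le_of_ne (h1.1 i) (Ne.symm ?_)
      fin_cases i
      · exact hc.1
      · exact hc.2.1
      · exact hc.2.2.1
      · exact hc.2.2.2.1
    · rintro ⟨h1, h2⟩
      refine ⟨h1, ?_⟩
      rintro ⟨h3, h4⟩
      rcases h2 with h | h | h | h | h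
      · exact (h3 0).ne' h
      · exact (h3 1).ne' h
      · exact (h3 2).ne' h
      · exact (h3 3).ne' h
      · exact h4.ne h
  rw [hf] at h2
  exact ⟨(h.image bd4).trans (Homeomorph.setCongr h2)⟩

theorem sp_iff {V : Type} [Fintype V] (L : Finset (Finset V)) (x : V → ℝ) : x ∈ Sp L ↔
    (∀ i, 0 ≤ x i) ∧ ∑ i, x i = 1 ∧ ∃ σ ∈ L, ∀ i, x i ≠ 0 → i ∈ σ := by
  constructor
  · rintro ⟨h1, F, hF, h2, h3⟩
    refine ⟨h1, ?_, F, hF, fun i hi => by_contra fun h => hi (h2 i h)⟩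
    rw [← h3]
    exact (sum_subset (subset_univ F) fun v _ hv => h2 v hv).symm
  · rintro ⟨h1, h2, F, hF, h3⟩
    have h4 : ∀ v, v ∉ F → x v = 0 := fun v hv => by_contra fun h => hv (h3 v h)
    refine ⟨h1, F, hF, h4, ?_⟩
    rw [← h2]
    exact sum_subset (subset_univ F) fun v _ hv => h4 v hv

theorem dc_31 : dc 31 = {0, 1, 2, 3, 4} := by decide +kernel

theorem mem_bd (x : Fin 174 → ℝ) : x ∈ Sp (dcL [30, 29, 27, 23, 15]) ↔
    (∀ v, 0 ≤ x v) ∧ (∀ v, v ≠ 0 → v ≠ 1 → v ≠ 2 → v ≠ 3 → v ≠ 4 → x v = 0) ∧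
      x 0 + x 1 + x 2 + x 3 + x 4 = 1 ∧ (x 0 = 0 ∨ x 1 = 0 ∨ x 2 = 0 ∨ x 3 = 0 ∨ x 4 = 0) := by
  have hs : (∀ v, v ≠ 0 → v ≠ 1 → v ≠ 2 → v ≠ 3 → v ≠ 4 → x v = 0) →
      ∑ v, x v = x 0 + x 1 + x 2 + x 3 + x 4 := by
    intro h
    rw [← sum_subset (subset_univ ({0, 1, 2, 3, 4} : Finset (Fin 174))) (fun v _ hv => by
      simp only [mem_insert, mem_singleton, not_or] at hv
      exact h v hv.1 hv.2.1 hv.2.2.1 hv.2.2.2.1 hv.2.2.2.2)]
    rw [sum_insert (by decide), sum_insert (by decide), sum_insert (by decide),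
      sum_insert (by decide), sum_singleton]
    ring
  have e : ∀ j : Fin 174, j ∈ dc 31 → dc (31 ^^^ 2 ^ j.val) = (dc 31).erase j := fun j => dc_xor
  have e0 : dc 30 = (dc 31).erase 0 := e 0 (by decide)
  have e1 : dc 29 = (dc 31).erase 1 := e 1 (by decide)
  have e2 : dc 27 = (dc 31).erase 2 := e 2 (by decide)
  have e3 : dc 23 = (dc 31).erase 3 := e 3 (by decide)
  have e4 : dc 15 = (dc 31).erase 4 := e 4 (by decide)
  rw [sp_iff]
  constructor
  · rintro ⟨h1, h2, F, hF, h3⟩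
    obtain ⟨m, hm, rfl⟩ := mem_dcL.1 hF
    have key : ∀ j, dc m = (dc 31).erase j →
        (∀ v, v ≠ 0 → v ≠ 1 → v ≠ 2 → v ≠ 3 → v ≠ 4 → x v = 0) ∧ x j = 0 := by
      intro j hj
      rw [hj, dc_31] at h3
      refine ⟨fun v a b c d e => by_contra fun h => ?_, by_contra fun h => ?_⟩
      · have := mem_of_mem_erase (h3 v h)
        simp [a, b, c, d, e] at this
      · exact (mem_erase.1 (h3 j h)).1 rfl
    simp only [List.mem_cons, List.not_mem_nil, or_false] at hm
    rcases hm with rfl | rfl | rfl | rfl | rfl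
    · exact ⟨h1, (key _ e0).1, hs (key _ e0).1 ▸ h2, by simp [(key _ e0).2]⟩
    · exact ⟨h1, (key _ e1).1, hs (key _ e1).1 ▸ h2, by simp [(key _ e1).2]⟩
    · exact ⟨h1, (key _ e2).1, hs (key _ e2).1 ▸ h2, by simp [(key _ e2).2]⟩
    · exact ⟨h1, (key _ e3).1, hs (key _ e3).1 ▸ h2, by simp [(key _ e3).2]⟩
    · exact ⟨h1, (key _ e4).1, hs (key _ e4).1 ▸ h2, by simp [(key _ e4).2]⟩
  · rintro ⟨h1, h2, h3, h4⟩
    refine ⟨h1, by rw [hs h2, h3], ?_⟩
    have key : ∀ j, x j = 0 → ∀ i, x i ≠ 0 → i ∈ (dc 31).erase j := by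
      intro j hj i hi
      refine mem_erase.2 ⟨fun h => hi (h ▸ hj), ?_⟩
      rw [dc_31]
      by_contra hc
      simp only [mem_insert, mem_singleton, not_or] at hc
      exact hi (h2 i hc.1 hc.2.1 hc.2.2.1 hc.2.2.2.1 hc.2.2.2.2)
    rcases h4 with h | h | h | h | h
    · exact ⟨_, mem_dcL.2 ⟨30, by simp, e0⟩, key _ h⟩
    · exact ⟨_, mem_dcL.2 ⟨29, by simp, e1⟩, key _ h⟩
    · exact ⟨_, mem_dcL.2 ⟨27, by simp, e2⟩, key _ h⟩
    · exact ⟨_, mem_dcL.2 ⟨23, by simp, e3⟩, key _ h⟩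
    · exact ⟨_, mem_dcL.2 ⟨15, by simp, e4⟩, key _ h⟩

noncomputable def toB (x : Fin 174 → ℝ) : EuclideanSpace ℝ (Fin 4) :=
  WithLp.toLp 2 ![x 0, x 1, x 2, x 3]

noncomputable def ofB (y : EuclideanSpace ℝ (Fin 4)) : Fin 174 → ℝ := fun v =>
  if v = 0 then y 0 else if v = 1 then y 1 else if v = 2 then y 2 else if v = 3 then y 3 else
    if v = 4 then 1 - (y 0 + y 1 + y 2 + y 3) else 0

theorem sp_bd4 : Nonempty (Sp (dcL [30, 29, 27, 23, 15]) ≃ₜ bd4) := by
  have e0 : ∀ y, ofB y 0 = y 0 := fun y => rfl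
  have e1 : ∀ y, ofB y 1 = y 1 := fun y => rfl
  have e2 : ∀ y, ofB y 2 = y 2 := fun y => rfl
  have e3 : ∀ y, ofB y 3 = y 3 := fun y => rfl
  have e4 : ∀ y, ofB y 4 = 1 - (y 0 + y 1 + y 2 + y 3) := fun y => rfl
  have t0 : ∀ x, toB x 0 = x 0 := fun x => rfl
  have t1 : ∀ x, toB x 1 = x 1 := fun x => rfl
  have t2 : ∀ x, toB x 2 = x 2 := fun x => rfl
  have t3 : ∀ x, toB x 3 = x 3 := fun x => rfl
  refine ⟨{ toFun := fun x => ⟨toB x.1, ?_⟩
            invFun := fun y => ⟨ofB y.1, ?_⟩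
            left_inv := ?_
            right_inv := ?_
            continuous_toFun := ?_
            continuous_invFun := ?_ }⟩
  · obtain ⟨h1, -, h3, h4⟩ := (mem_bd _).1 x.2
    refine ⟨⟨fun i => ?_, ?_⟩, ?_⟩
    · fin_cases i
      · exact h1 0
      · exact h1 1
      · exact h1 2
      · exact h1 3
    · rw [t0, t1, t2, t3]
      linarith [h1 4]
    · rw [t0, t1, t2, t3]
      refine h4.imp_right fun h => h.imp_right fun h => h.imp_right fun h => h.imp_right
        fun h => ?_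
      linarith
  · obtain ⟨⟨h1, h2⟩, h3⟩ := y.2
    refine (mem_bd _).2 ⟨fun v => ?_, fun v a b c d e => ?_, ?_, ?_⟩
    · unfold ofB
      split_ifs
      · exact h1 0
      · exact h1 1
      · exact h1 2
      · exact h1 3
      · linarith
      · exact le_rfl
    · unfold ofB
      rw [if_neg a, if_neg b, if_neg c, if_neg d, if_neg e]
    · rw [e0, e1, e2, e3, e4]
      ring
    · rw [e0, e1, e2, e3, e4]
      refine h3.imp_right fun h => h.imp_right fun h => h.imp_right fun h => h.imp_right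
        fun h => ?_
      linarith
  · rintro ⟨x, hx⟩
    obtain ⟨-, h2, h3, -⟩ := (mem_bd _).1 hx
    apply Subtype.ext
    funext v
    show ofB (toB x) v = x v
    unfold ofB
    split_ifs with a b c d e
    · rw [a, t0]
    · rw [b, t1]
    · rw [c, t2]
    · rw [d, t3]
    · rw [e, t0, t1, t2, t3]
      linarith
    · exact (h2 v a b c d e).symm
  · rintro ⟨y, hy⟩
    apply Subtype.ext
    ext i
    fin_cases i <;> rfl
  · apply Continuous.subtype_mk
    unfold toB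
    refine (PiLp.continuous_toLp 2 _).comp (continuous_pi fun i => ?_)
    have hc : ∀ w : Fin 174, Continuous fun x : Sp (dcL [30, 29, 27, 23, 15]) =>
        (x : Fin 174 → ℝ) w := fun w => (continuous_apply w).comp continuous_subtype_val
    fin_cases i
    · exact hc 0
    · exact hc 1
    · exact hc 2
    · exact hc 3
  · apply Continuous.subtype_mk
    apply continuous_pi
    intro v
    unfold ofB
    split_ifs <;> fun_prop

end Pool.Agent.H401Z.CS
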